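import Pool.Agent.R963.Korn.Stm

/-! KO-13: approximation of `C^1` fields by polynomial fields (Landau kernels). -/

set_option autoImplicit false
set_option maxHeartbeats 400000

open MvPolynomial MeasureTheory Filter Topology
open scoped Convolution

namespace Pool.Agent.R963.Korn

namespace Ap

noncomputable section

variable {n : ℕ}

lemma ev_add (x : E n) (p q : P n) : ev x (p + q) = ev x p + ev x q := by simp [ev]

lemma ev_sub (x : E n) (p q : P n) : ev x (p - q) = ev x p - ev x q := by simp [ev]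

lemma ev_mul (x : E n) (p q : P n) : ev x (p * q) = ev x p * ev x q := by simp [ev]

lemma ev_pow (x : E n) (p : P n) (k : ℕ) : ev x (p ^ k) = ev x p ^ k := by simp [ev]

lemma ev_C (x : E n) (a : ℝ) : ev x (C a) = a := by simp [ev]

lemma ev_X (x : E n) (i : Fin n) : ev x (X i) = x i := by simp [ev]

lemma continuous_ev (p : P n) : Continuous fun x : E n => ev x p := by
  unfold ev
  exact (MvPolynomial.continuous_eval p).comp
    (continuous_pi fun i => (EuclideanSpace.proj (𝕜 := ℝ) i).continuous)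

lemma int_conv {g : E n → ℝ} (hg : Continuous g) (hc : HasCompactSupport g) (φ : P n) (x : E n) :
    Integrable fun y => g y * ev (x - y) φ := by
  refine Continuous.integrable_of_hasCompactSupport ?_ hc.mul_right
  exact hg.mul ((continuous_ev φ).comp (continuous_const.sub continuous_id))

lemma conv_poly (φ : P n) : ∀ g : E n → ℝ, Continuous g → HasCompactSupport g →
    ∃ p : P n, ∀ x : E n, ev x p = ∫ y, g y * ev (x - y) φ := by
  induction φ using MvPolynomial.induction_on with
  | C a =>
    intro g hg hc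
    refine ⟨C (a * ∫ y, g y), fun x => ?_⟩
    simp only [ev_C]
    rw [integral_mul_const, mul_comm]
  | add p q hp hq =>
    intro g hg hc
    obtain ⟨p', hp'⟩ := hp g hg hc
    obtain ⟨q', hq'⟩ := hq g hg hc
    refine ⟨p' + q', fun x => ?_⟩
    rw [ev_add, hp', hq', ← integral_add (int_conv hg hc p x) (int_conv hg hc q x)]
    congr 1
    funext y
    rw [ev_add]
    ring
  | mul_X p i hp =>
    intro g hg hc
    have hg2 : Continuous fun y : E n => y i * g y :=
      (EuclideanSpace.proj (𝕜 := ℝ) i).continuous.mul hg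
    have hc2 : HasCompactSupport fun y : E n => y i * g y := hc.mul_left
    obtain ⟨p1, h1⟩ := hp g hg hc
    obtain ⟨p2, h2⟩ := hp _ hg2 hc2
    refine ⟨X i * p1 - p2, fun x => ?_⟩
    rw [ev_sub, ev_mul, ev_X, h1, h2, ← integral_const_mul,
      ← integral_sub ((int_conv hg hc p x).const_mul _) (int_conv hg2 hc2 p x)]
    congr 1
    funext y
    rw [ev_mul, ev_X, PiLp.sub_apply]
    ring

lemma hasFDerivAt_ev (p : P n) (x : E n) : HasFDerivAt (fun x : E n => ev x p)
    (∑ i, ev x (pderiv i p) • (EuclideanSpace.proj i : E n →L[ℝ] ℝ)) x := by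
  induction p using MvPolynomial.induction_on with
  | C a =>
    simp only [ev_C]
    refine (hasFDerivAt_const a x).congr_fderiv ?_
    simp [ev]
  | add p q hp hq =>
    simp only [ev_add]
    refine (hp.add hq).congr_fderiv ?_
    rw [← Finset.sum_add_distrib]
    refine Finset.sum_congr rfl fun i _ => ?_
    rw [map_add, ev_add, add_smul]
  | mul_X p i hp =>
    have h1 : HasFDerivAt (fun x : E n => x i) (EuclideanSpace.proj i : E n →L[ℝ] ℝ) x :=
      (EuclideanSpace.proj (𝕜 := ℝ) i).hasFDerivAt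
    simp only [ev_mul, ev_X]
    refine (hp.mul h1).congr_fderiv ?_
    have h2 : ∀ j, ev x (pderiv j (p * X i)) • (EuclideanSpace.proj j : E n →L[ℝ] ℝ) =
        x i • (ev x (pderiv j p) • (EuclideanSpace.proj j : E n →L[ℝ] ℝ)) +
        (if i = j then ev x p • (EuclideanSpace.proj j : E n →L[ℝ] ℝ) else 0) := by
      intro j
      rw [pderiv_mul, ev_add, ev_mul, ev_mul, ev_X, add_smul]
      congr 1
      · rw [smul_smul, mul_comm]
      · by_cases hij : i = j
        · subst hij
          simp [ev]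
        · rw [if_neg hij, pderiv_X_of_ne hij]
          simp [ev]
    rw [Finset.sum_congr rfl fun j _ => h2 j, Finset.sum_add_distrib, ← Finset.smul_sum,
      Finset.sum_ite_eq, if_pos (Finset.mem_univ i), add_comm]

lemma fderiv_ev_single (p : P n) (x : E n) (i : Fin n) :
    fderiv ℝ (fun x : E n => ev x p) x (EuclideanSpace.single i 1) = ev x (pderiv i p) := by
  rw [(hasFDerivAt_ev p x).fderiv]
  simp only [FunLike.coe_sum, Finset.sum_apply, FunLike.coe_smul, Pi.smul_apply, smul_eq_mul]
  rw [Finset.sum_eq_single i]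
  · simp
  · intro j _ hj
    simp [hj]
  · simp

lemma conv_deriv {f : E n → ℝ} (hf : ContDiff ℝ 1 f) (hc : HasCompactSupport f) (φ p : P n)
    (hp : ∀ x : E n, ev x p = ∫ y, f y * ev (x - y) φ) (i : Fin n) (x : E n) :
    ev x (pderiv i p) = ∫ y, fderiv ℝ f y (EuclideanSpace.single i 1) * ev (x - y) φ := by
  set L := ContinuousLinearMap.mul ℝ ℝ with hL
  have hgl : LocallyIntegrable (fun y : E n => ev y φ) := (continuous_ev φ).locallyIntegrable
  have h1 := hc.hasFDerivAt_convolution_left L hf hgl x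
  have h2 : (f ⋆[L, volume] fun y : E n => ev y φ) = fun x => ev x p := by
    funext x
    rw [convolution_def, hp x]
    rfl
  rw [h2] at h1
  have h3 := (hasFDerivAt_ev p x).unique h1
  have h4 := congrArg (fun T : E n →L[ℝ] ℝ => T (EuclideanSpace.single i 1)) h3
  have h5 := fderiv_ev_single p x i
  rw [(hasFDerivAt_ev p x).fderiv] at h5
  beta_reduce at h4
  rw [h5] at h4
  rw [h4, convolution_def]
  have hint : Integrable fun t => (L.precompL (E n)) (fderiv ℝ f t) (ev (x - t) φ) :=
    (hc.fderiv (𝕜 := ℝ)).convolutionExists_left (L.precompL (E n))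
      (hf.continuous_fderiv one_ne_zero) hgl x
  rw [ContinuousLinearMap.integral_apply hint]
  rfl

/-- the Landau polynomial -/
def land (k : ℕ) : P n := (1 - C (1 / 16 : ℝ) * rr) ^ k

lemma ev_rr (z : E n) : ev z (rr : P n) = ‖z‖ ^ 2 := by
  rw [EuclideanSpace.real_norm_sq_eq]
  simp [ev, rr, sq]

lemma ev_land (k : ℕ) (z : E n) : ev z (land k : P n) = (1 - ‖z‖ ^ 2 / 16) ^ k := by
  unfold land
  rw [ev_pow, ev_sub, ev_mul, ev_C, ev_rr]
  simp [ev]
  ring

/-- the normalisation -/
def W (n k : ℕ) : ℝ := ∫ z in Metric.closedBall (0 : E n) 3, (1 - ‖z‖ ^ 2 / 16) ^ k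

lemma W_eq (k : ℕ) (x : E n) :
    ∫ y in Metric.closedBall x 3, (1 - ‖x - y‖ ^ 2 / 16) ^ k = W n k := by
  have h1 := integral_sub_left_eq_self (fun z : E n =>
    (Metric.closedBall (0 : E n) 3).indicator (fun z => (1 - ‖z‖ ^ 2 / 16) ^ k) z) volume x
  rw [integral_indicator measurableSet_closedBall] at h1
  unfold W
  rw [← h1, ← integral_indicator measurableSet_closedBall]
  congr 1
  funext y
  by_cases hy : y ∈ Metric.closedBall x 3
  · rw [Set.indicator_of_mem hy, Set.indicator_of_mem]
    rw [mem_closedBall_zero_iff, ← dist_eq_norm, dist_comm]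
    exact hy
  · rw [Set.indicator_of_notMem hy, Set.indicator_of_notMem]
    rw [mem_closedBall_zero_iff, ← dist_eq_norm, dist_comm]
    exact hy

lemma W_nonneg (n k : ℕ) : 0 ≤ W n k := by
  refine setIntegral_nonneg measurableSet_closedBall fun z hz => ?_
  rw [mem_closedBall_zero_iff] at hz
  have h0 := norm_nonneg z
  refine pow_nonneg ?_ _
  nlinarith

lemma int_ball {g : E n → ℝ} (hg0 : ∀ y, y ∉ Metric.closedBall (0 : E n) 2 → g y = 0)
    (k : ℕ) {x : E n} (hx : ‖x‖ < 1) :
    ∫ y, g y * ev (x - y) (land k : P n) =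
      ∫ y in Metric.closedBall x 3, (1 - ‖x - y‖ ^ 2 / 16) ^ k * g y := by
  rw [← integral_indicator measurableSet_closedBall]
  congr 1
  funext y
  by_cases hy : y ∈ Metric.closedBall x 3
  · rw [Set.indicator_of_mem hy, ev_land, mul_comm]
  · rw [Set.indicator_of_notMem hy, hg0, zero_mul]
    intro h2
    apply hy
    rw [mem_closedBall_zero_iff] at h2
    rw [Metric.mem_closedBall, dist_eq_norm]
    calc ‖y - x‖ ≤ ‖y‖ + ‖x‖ := norm_sub_le _ _
      _ ≤ 3 := by linarith

lemma ptw_lim {g : E n → ℝ} (hg : Continuous g) (x : E n) :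
    Tendsto (fun k : ℕ => (W n k)⁻¹ *
      ∫ y in Metric.closedBall x 3, (1 - ‖x - y‖ ^ 2 / 16) ^ k * g y) atTop (𝓝 (g x)) := by
  have h := tendsto_setIntegral_pow_smul_of_unique_maximum_of_isCompact_of_continuousOn
    (μ := (volume : Measure (E n))) (x₀ := x) (s := Metric.closedBall x 3)
    (isCompact_closedBall x 3) (c := fun y => 1 - ‖x - y‖ ^ 2 / 16) (g := g)
    (by fun_prop) ?_ ?_ ?_ ?_ hg.continuousOn
  · refine h.congr fun k => ?_
    rw [W_eq]
    rfl
  · intro y _ hy
    have h1 : 0 < ‖x - y‖ := norm_pos_iff.2 (sub_ne_zero.2 hy.symm)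
    have h2 : 0 < ‖x - y‖ ^ 2 := by positivity
    simp only [sub_self, norm_zero]
    linarith
  · intro y hy
    rw [Metric.mem_closedBall, dist_comm, dist_eq_norm] at hy
    have h0 := norm_nonneg (x - y)
    nlinarith
  · simp
  · refine subset_closure ?_
    refine mem_interior_iff_mem_nhds.2 (Metric.closedBall_mem_nhds x (by norm_num))

lemma bound {g : E n → ℝ} {M : ℝ} (hM : ∀ y, ‖g y‖ ≤ M) (k : ℕ) (x : E n) :
    |(W n k)⁻¹ * ∫ y in Metric.closedBall x 3, (1 - ‖x - y‖ ^ 2 / 16) ^ k * g y| ≤ M := by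
  have hM0 : 0 ≤ M := (norm_nonneg _).trans (hM 0)
  have hW := W_nonneg n k
  have h1 : |∫ y in Metric.closedBall x 3, (1 - ‖x - y‖ ^ 2 / 16) ^ k * g y| ≤ W n k * M := by
    rw [← Real.norm_eq_abs, ← W_eq k x, ← integral_mul_const]
    refine norm_integral_le_of_norm_le ?_ ?_
    · refine Integrable.mul_const ?_ _
      refine ContinuousOn.integrableOn_compact (isCompact_closedBall x 3) ?_
      fun_prop
    · rw [ae_restrict_iff' measurableSet_closedBall]
      refine Eventually.of_forall fun y hy => ?_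
      rw [Metric.mem_closedBall, dist_comm, dist_eq_norm] at hy
      have h0 := norm_nonneg (x - y)
      have h2 : 0 ≤ 1 - ‖x - y‖ ^ 2 / 16 := by nlinarith
      rw [norm_mul, norm_pow, Real.norm_of_nonneg h2]
      exact mul_le_mul_of_nonneg_left (hM y) (pow_nonneg h2 _)
  rw [abs_mul, abs_of_nonneg (inv_nonneg.2 hW)]
  calc (W n k)⁻¹ * |∫ y in Metric.closedBall x 3, (1 - ‖x - y‖ ^ 2 / 16) ^ k * g y|
      ≤ (W n k)⁻¹ * (W n k * M) := mul_le_mul_of_nonneg_left h1 (inv_nonneg.2 hW)
    _ = ((W n k)⁻¹ * W n k) * M := by ring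
    _ ≤ 1 * M := mul_le_mul_of_nonneg_right inv_mul_le_one hM0
    _ = M := one_mul M

/-- scalar version -/
lemma scalar {f : E n → ℝ} (hf : ContDiff ℝ 1 f) (hs : tsupport f ⊆ Metric.closedBall 0 2) :
    ∃ p : ℕ → P n, ∃ M : ℝ, (∀ k i x, ‖x‖ < 1 → |ev x (pderiv i (p k))| ≤ M) ∧
      (∀ i x, |fderiv ℝ f x (EuclideanSpace.single i 1)| ≤ M) ∧
      ∀ i x, ‖x‖ < 1 → Tendsto (fun k => ev x (pderiv i (p k))) atTop
        (𝓝 (fderiv ℝ f x (EuclideanSpace.single i 1))) := by
  have hc : HasCompactSupport f :=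
    (isCompact_closedBall (0 : E n) 2).of_isClosed_subset (isClosed_tsupport f) hs
  choose p hp using fun k : ℕ => conv_poly (land k : P n) f hf.continuous hc
  have hfc : Continuous (fderiv ℝ f) := hf.continuous_fderiv one_ne_zero
  obtain ⟨M, hM⟩ := hfc.bounded_above_of_compact_support (hc.fderiv (𝕜 := ℝ))
  have hM' : ∀ (i : Fin n) (y : E n), ‖fderiv ℝ f y (EuclideanSpace.single i 1)‖ ≤ M := by
    intro i y
    have h1 := (fderiv ℝ f y).le_opNorm (EuclideanSpace.single i (1 : ℝ))
    have h2 : ‖EuclideanSpace.single i (1 : ℝ)‖ = 1 := by simp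
    rw [h2, mul_one] at h1
    exact h1.trans (hM y)
  have hg0 : ∀ (i : Fin n) (y : E n), y ∉ Metric.closedBall (0 : E n) 2 →
      fderiv ℝ f y (EuclideanSpace.single i 1) = 0 := by
    intro i y hy
    have h1 : y ∉ tsupport f := fun h => hy (hs h)
    have h2 : fderiv ℝ f y = 0 := by
      by_contra h3
      exact h1 (support_fderiv_subset ℝ h3)
    rw [h2]
    rfl
  have key : ∀ k i x, ‖x‖ < 1 → ev x (pderiv i (C ((W n k)⁻¹) * p k)) = (W n k)⁻¹ *
      ∫ y in Metric.closedBall x 3, (1 - ‖x - y‖ ^ 2 / 16) ^ k *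
        fderiv ℝ f y (EuclideanSpace.single i 1) := by
    intro k i x hx
    rw [← int_ball (hg0 i) k hx, ← conv_deriv hf hc _ _ (hp k) i x, pderiv_C_mul, ev_mul, ev_C]
  refine ⟨fun k => C ((W n k)⁻¹) * p k, M, ?_, fun i x => hM' i x, ?_⟩
  · intro k i x hx
    rw [key k i x hx]
    exact bound (hM' i) k x
  · intro i x hx
    have hcont : Continuous fun y => fderiv ℝ f y (EuclideanSpace.single i 1) :=
      hfc.clm_apply continuous_const
    refine (ptw_lim hcont x).congr fun k => ?_
    exact (key k i x hx).symm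

end

end Ap

open Ap in
theorem t_approx : S_approx := by
  intro n u hu ε hε
  -- cut off
  set χ : ContDiffBump (0 : E n) := ⟨1, 2, by norm_num, by norm_num⟩ with hχ
  set f : Fin n → E n → ℝ := fun j x => χ x * (u x) j with hf
  have huj : ∀ j, ContDiff ℝ 1 fun x => (u x) j := fun j =>
    (EuclideanSpace.proj (𝕜 := ℝ) j).contDiff.comp hu
  have hfs : ∀ j, ContDiff ℝ 1 (f j) := fun j => χ.contDiff.mul (huj j)
  have hts : ∀ j, tsupport (f j) ⊆ Metric.closedBall 0 2 := by
    intro j
    refine (tsupport_mul_subset_left).trans ?_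
    rw [χ.tsupport_eq]
  choose p M h1 h2 h3 using fun j => scalar (hfs j) (hts j)
  have hG : ∀ x : E n, ‖x‖ < 1 → ∀ i j,
      fderiv ℝ (f j) x (EuclideanSpace.single i 1) = G u x i j := by
    intro x hx i j
    have e1 : f j =ᶠ[𝓝 x] fun x => (u x) j := by
      have h4 : x ∈ Metric.ball (0 : E n) χ.rIn := by
        rw [mem_ball_zero_iff]
        exact hx
      filter_upwards [χ.eventuallyEq_one_of_mem_ball h4] with y hy
      simp only [hf]
      rw [hy, Pi.one_apply, one_mul]
    rw [e1.fderiv_eq]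
    have h5 : HasFDerivAt u (fderiv ℝ u x) x :=
      (hu.differentiable one_ne_zero).differentiableAt.hasFDerivAt
    have h6 : HasFDerivAt (fun x => (u x) j)
        ((EuclideanSpace.proj (𝕜 := ℝ) j).comp (fderiv ℝ u x)) x :=
      (EuclideanSpace.proj (𝕜 := ℝ) j).hasFDerivAt.comp x h5
    rw [h6.fderiv]
    rfl
  have hGc : ∀ i j, Continuous fun x => G u x i j := by
    intro i j
    exact (EuclideanSpace.proj (𝕜 := ℝ) j).continuous.comp
      ((hu.continuous_fderiv one_ne_zero).clm_apply continuous_const)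
  have hlim : Tendsto (fun k : ℕ => ∫ x in Metric.ball (0 : E n) 1,
      ∑ i, ∑ j, (ev x (pderiv i (p j k)) - G u x i j) ^ 2) atTop
      (𝓝 (∫ _ in Metric.ball (0 : E n) 1, (0 : ℝ))) := by
    refine tendsto_integral_of_dominated_convergence
      (fun _ => ∑ _i : Fin n, ∑ j : Fin n, (2 * M j) ^ 2) ?_ ?_ ?_ ?_
    · intro k
      refine Continuous.aestronglyMeasurable ?_
      refine continuous_finsetSum _ fun i _ => continuous_finsetSum _ fun j _ => ?_
      exact ((continuous_ev _).sub (hGc i j)).pow 2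
    · have hfin : IsFiniteMeasure (volume.restrict (Metric.ball (0 : E n) 1)) :=
        ⟨by rw [Measure.restrict_apply_univ]; exact measure_ball_lt_top⟩
      exact integrable_const _
    · intro k
      rw [ae_restrict_iff' measurableSet_ball]
      refine Eventually.of_forall fun x hx => ?_
      rw [mem_ball_zero_iff] at hx
      rw [Real.norm_of_nonneg (by positivity)]
      refine Finset.sum_le_sum fun i _ => Finset.sum_le_sum fun j _ => ?_
      have h4 := h1 j k i x hx
      have h5 := h2 j i x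
      rw [hG x hx i j] at h5
      rw [abs_le] at h4 h5
      refine sq_le_sq' ?_ ?_ <;> linarith [h4.1, h4.2, h5.1, h5.2]
    · rw [ae_restrict_iff' measurableSet_ball]
      refine Eventually.of_forall fun x hx => ?_
      rw [mem_ball_zero_iff] at hx
      have h4 : Tendsto (fun k : ℕ => ∑ i, ∑ j, (ev x (pderiv i (p j k)) - G u x i j) ^ 2) atTop
          (𝓝 (∑ i, ∑ j, (G u x i j - G u x i j) ^ 2)) := by
        refine tendsto_finsetSum _ fun i _ => tendsto_finsetSum _ fun j _ => ?_
        have h5 := h3 j i x hx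
        rw [hG x hx i j] at h5
        exact (h5.sub_const _).pow 2
      simpa using h4
  rw [integral_zero] at hlim
  obtain ⟨k, hk⟩ := (hlim.eventually_lt_const hε).exists
  exact ⟨fun j => p j k, hk⟩

end Pool.Agent.R963.Korn
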