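import Mathlib

open MvPolynomial MeasureTheory

namespace Pool.Agent.R963.Korn

noncomputable section

variable {n : ℕ}

abbrev E (n : ℕ) := EuclideanSpace ℝ (Fin n)
abbrev P (n : ℕ) := MvPolynomial (Fin n) ℝ

/-- value of a polynomial at a point -/
def ev (x : E n) (p : P n) : ℝ := eval (fun i => x i) p

/-- integral over the open unit ball -/
def Lam (p : P n) : ℝ := ∫ x in Metric.ball (0 : E n) 1, ev x p

/-- Euler operator `∑ x_i ∂_i` -/
def Eu (p : P n) : P n := ∑ i, X i * pderiv i p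

/-- Laplacian -/
def Lap (p : P n) : P n := ∑ i, pderiv i (pderiv i p)

/-- `|x|^2` -/
def rr : P n := ∑ i, X i * X i

/-- the integral over the unit sphere, as `∫_ball div (x p)` -/
def sig (p : P n) : ℝ := Lam (C (n : ℝ) * p + Eu p)

/-- divergence of a polynomial vector field `u` (`u j` is the component with index `j`) -/
def dv (u : Fin n → P n) : P n := ∑ i, pderiv i (u i)

/-- `x · u` -/
def xd (u : Fin n → P n) : P n := ∑ i, X i * u i

/-- `∫ ∑ ∂_i u_j ∂_i v_j` -/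
def NN (u v : Fin n → P n) : ℝ := Lam (∑ i, ∑ j, pderiv i (u j) * pderiv i (v j))

/-- `∫ E(u) : E(v)`, `E(u)_{ij} = (∂_i u_j + ∂_j u_i)/2` -/
def DD (u v : Fin n → P n) : ℝ :=
  Lam (∑ i, ∑ j, (C (1/2 : ℝ) * (pderiv i (u j) + pderiv j (u i))) *
    (C (1/2 : ℝ) * (pderiv i (v j) + pderiv j (v i))))

/-- the side condition `∫ (∂_i u_j - ∂_j u_i) = 0` -/
def Side (u : Fin n → P n) : Prop := ∀ i j, Lam (pderiv i (u j) - pderiv j (u i)) = 0

/-- `K_l = 2 (l+1) (2l+n-2) / (l^2+l+n-2)` -/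
def Kl (n l : ℕ) : ℝ :=
  2 * ((l : ℝ) + 1) * (2 * (l : ℝ) + n - 2) / ((l : ℝ) ^ 2 + l + n - 2)

/-! smooth vector fields -/

/-- `∂_i u_j (x)` -/
def G (u : E n → E n) (x : E n) (i j : Fin n) : ℝ :=
  (fderiv ℝ u x (EuclideanSpace.single i 1)) j

/-- `∫ |∇u|^2` -/
def Nint (u : E n → E n) : ℝ := ∫ x in Metric.ball (0 : E n) 1, ∑ i, ∑ j, (G u x i j) ^ 2

/-- `∫ |(∇u+∇u^T)/2|^2` -/
def Dint (u : E n → E n) : ℝ :=
  ∫ x in Metric.ball (0 : E n) 1, ∑ i, ∑ j, ((G u x i j + G u x j i) / 2) ^ 2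

/-- side condition for smooth fields -/
def SideInt (u : E n → E n) : Prop :=
  ∀ i j, ∫ x in Metric.ball (0 : E n) 1, (G u x i j - G u x j i) = 0

end

end Pool.Agent.R963.Korn
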