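import Pool.Agent.R963.Korn.Stm

/-!
# KO-3: the divergence theorem for polynomials on the ball

Integration by parts against `max(0, 1 - |x|²) ^ (1 + ε)` and the limit `ε → 0`.
-/

set_option autoImplicit false
set_option maxHeartbeats 400000

open MvPolynomial MeasureTheory

namespace Pool.Agent.R963.Korn

noncomputable section

namespace DivP

variable {n : ℕ}

lemma ev_C (x : E n) (a : ℝ) : ev x (C a) = a := by simp [ev]
lemma ev_add (x : E n) (p q : P n) : ev x (p + q) = ev x p + ev x q := by simp [ev]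
lemma ev_sub (x : E n) (p q : P n) : ev x (p - q) = ev x p - ev x q := by simp [ev]
lemma ev_mul (x : E n) (p q : P n) : ev x (p * q) = ev x p * ev x q := by simp [ev]
lemma ev_X (x : E n) (i : Fin n) : ev x (X i) = x i := by simp [ev]
lemma ev_sum (x : E n) {ι : Type} (s : Finset ι) (p : ι → P n) :
    ev x (∑ i ∈ s, p i) = ∑ i ∈ s, ev x (p i) := by simp [ev, map_sum]

lemma cont_ev (p : P n) : Continuous (fun x : E n => ev x p) := by
  unfold ev
  exact (MvPolynomial.continuous_eval p).comp (by fun_prop)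

/-- the line derivative of the evaluation -/
lemma hasDerivAt_ev (p : P n) (x v : E n) :
    HasDerivAt (fun t : ℝ => ev (x + t • v) p) (∑ i, ev x (pderiv i p) * v i) 0 := by
  induction p using MvPolynomial.induction_on with
  | C a =>
    have h : (fun t : ℝ => ev (x + t • v) (C a)) = fun _ => a := by
      funext t; simp [ev]
    rw [h]
    have h2 : (∑ i, ev x (pderiv i (C a)) * v i) = 0 := by
      simp [ev]
    rw [h2]
    exact hasDerivAt_const _ _
  | add p q hp hq =>
    have h : (fun t : ℝ => ev (x + t • v) (p + q)) =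
        fun t : ℝ => ev (x + t • v) p + ev (x + t • v) q := by
      funext t; simp [ev]
    rw [h]
    have h2 : (∑ i, ev x (pderiv i (p + q)) * v i) =
        (∑ i, ev x (pderiv i p) * v i) + ∑ i, ev x (pderiv i q) * v i := by
      rw [← Finset.sum_add_distrib]
      refine Finset.sum_congr rfl fun i _ => ?_
      rw [← add_mul, map_add, ev_add]
    rw [h2]
    exact hp.add hq
  | mul_X p j hp =>
    have h : (fun t : ℝ => ev (x + t • v) (p * X j)) =
        fun t : ℝ => ev (x + t • v) p * (x j + t * v j) := by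
      funext t; simp [ev]
    rw [h]
    have h2 : (∑ i, ev x (pderiv i (p * X j)) * v i) =
        (∑ i, ev x (pderiv i p) * v i) * (x j + 0 * v j) + ev (x + (0:ℝ) • v) p * (1 * v j) := by
      have h3 : ∀ i ∈ Finset.univ, ev x (pderiv i (p * X j)) * v i =
          ev x (pderiv i p) * v i * x j + (if i = j then ev x p * v j else 0) := by
        intro i _
        rw [pderiv_mul, ev_add, ev_mul, ev_mul, ev_X]
        by_cases hij : i = j
        · subst hij
          rw [if_pos rfl, pderiv_X_self]
          simp [ev]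
          ring
        · rw [if_neg hij, pderiv_X_of_ne (Ne.symm hij)]
          simp [ev]
          ring
      rw [Finset.sum_congr rfl h3, Finset.sum_add_distrib, Finset.sum_mul]
      simp
    rw [h2]
    have h4 : HasDerivAt (fun t : ℝ => x j + t * v j) (1 * v j) 0 :=
      ((hasDerivAt_id (0:ℝ)).mul_const (v j)).const_add (x j)
    exact hp.mul h4

lemma hasLine_ev (p : P n) (i : Fin n) (x : E n) :
    HasLineDerivAt ℝ (fun y => ev y p) (ev x (pderiv i p)) x (EuclideanSpace.single i 1) := by
  have h := hasDerivAt_ev p x (EuclideanSpace.single i 1)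
  have h2 : (∑ j, ev x (pderiv j p) * (EuclideanSpace.single i (1:ℝ) : E n) j) = ev x (pderiv i p) := by
    rw [Finset.sum_eq_single i]
    · simp
    · intro j _ hj
      simp [hj]
    · simp
  rw [h2] at h
  exact h

/-- the derivative of the power of the positive part -/
lemma hasDerivAt_pos (ε : ℝ) (hε : 0 < ε) (s : ℝ) :
    HasDerivAt (fun s : ℝ => (max 0 s) ^ (1 + ε)) ((1 + ε) * (max 0 s) ^ ε) s := by
  rcases lt_trichotomy s 0 with hs | hs | hs
  · have h1 : (fun s : ℝ => (max 0 s) ^ (1 + ε)) =ᶠ[nhds s] fun _ => 0 := by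
      filter_upwards [Iio_mem_nhds hs] with t ht
      rw [max_eq_left (le_of_lt ht), Real.zero_rpow (by positivity)]
    rw [max_eq_left hs.le, Real.zero_rpow hε.ne', mul_zero]
    exact (hasDerivAt_const s (0:ℝ)).congr_of_eventuallyEq h1
  · subst hs
    rw [max_self, Real.zero_rpow hε.ne', mul_zero, hasDerivAt_iff_isLittleO]
    simp only [max_self, sub_zero, smul_zero]
    rw [Real.zero_rpow (by positivity), ]
    simp only [sub_zero]
    have h1 : (fun t : ℝ => (max 0 t) ^ (1 + ε)) = fun t : ℝ => (max 0 t) ^ ε * (max 0 t) := by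
      funext t
      rcases le_or_gt t 0 with ht | ht
      · rw [max_eq_left ht, Real.zero_rpow (by positivity), mul_zero]
      · rw [max_eq_right ht.le, add_comm, Real.rpow_add ht, Real.rpow_one]
    rw [h1]
    have h2 : (fun t : ℝ => (max 0 t) ^ ε) =o[nhds 0] fun _ => (1 : ℝ) := by
      rw [Asymptotics.isLittleO_one_iff]
      have h3 : Continuous (fun t : ℝ => (max 0 t) ^ ε) :=
        (by fun_prop : Continuous (fun t : ℝ => max 0 t)).rpow_const (fun t => Or.inr hε.le)
      have h4 := h3.tendsto 0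
      simp only [max_self] at h4
      rwa [Real.zero_rpow hε.ne'] at h4
    have h5 : (fun t : ℝ => max 0 t) =O[nhds 0] fun t : ℝ => t := by
      apply Asymptotics.IsBigO.of_bound 1
      apply Filter.Eventually.of_forall
      intro t
      rw [one_mul, Real.norm_eq_abs, Real.norm_eq_abs, abs_of_nonneg (le_max_left _ _)]
      exact max_le (abs_nonneg _) (le_abs_self _)
    have h6 := h2.mul_isBigO h5
    simpa using h6
  · have h1 : (fun s : ℝ => (max 0 s) ^ (1 + ε)) =ᶠ[nhds s] fun t => t ^ (1 + ε) := by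
      filter_upwards [Ioi_mem_nhds hs] with t ht
      rw [max_eq_right (le_of_lt ht)]
    rw [max_eq_right hs.le]
    have h2 := Real.hasDerivAt_rpow_const (x := s) (p := 1 + ε) (Or.inl hs.ne')
    rw [show 1 + ε - 1 = ε by ring] at h2
    exact h2.congr_of_eventuallyEq h1

/-- the weight -/
def W (a : ℝ) (x : E n) : ℝ := (max 0 (ev x (1 - rr))) ^ a

lemma ev_rr (x : E n) : ev x (1 - rr : P n) = 1 - ‖x‖ ^ 2 := by
  rw [ev_sub]
  unfold rr
  rw [ev_sum, EuclideanSpace.real_norm_sq_eq]
  congr 1
  · simp [ev]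
  · refine Finset.sum_congr rfl fun i _ => ?_
    rw [ev_mul, ev_X]
    ring

lemma W_cont (a : ℝ) (ha : 0 < a) : Continuous (W a : E n → ℝ) := by
  unfold W
  exact (continuous_const.max (cont_ev _)).rpow_const (fun t => Or.inr ha.le)

lemma W_zero (a : ℝ) (ha : 0 < a) (x : E n) (hx : 1 ≤ ‖x‖) : W a x = 0 := by
  unfold W
  rw [ev_rr, max_eq_left (by nlinarith), Real.zero_rpow ha.ne']

lemma W_add (ε : ℝ) (hε : 0 < ε) (x : E n) : W (1 + ε) x = ev x (1 - rr) * W ε x := by
  unfold W
  rcases le_or_gt (ev x (1 - rr : P n)) 0 with ht | ht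
  · rw [max_eq_left ht, Real.zero_rpow (by positivity), Real.zero_rpow hε.ne', mul_zero]
  · rw [max_eq_right ht.le, Real.rpow_add ht, Real.rpow_one]

lemma integrable_W (a : ℝ) (ha : 0 < a) (f : E n → ℝ) (hf : Continuous f) :
    Integrable (fun x : E n => f x * W a x) := by
  apply Continuous.integrable_of_hasCompactSupport (hf.mul (W_cont a ha))
  apply HasCompactSupport.intro (isCompact_closedBall (0 : E n) 1)
  intro x hx
  rw [mem_closedBall_zero_iff, not_le] at hx
  change f x * W a x = 0
  rw [W_zero a ha x hx.le, mul_zero]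

/-- the weighted integral -/
def J (a : ℝ) (p : P n) : ℝ := ∫ x : E n, ev x p * W a x

lemma J_add (a : ℝ) (ha : 0 < a) (p q : P n) : J a (p + q) = J a p + J a q := by
  unfold J
  rw [← integral_add (integrable_W a ha _ (cont_ev p)) (integrable_W a ha _ (cont_ev q))]
  congr 1
  funext x
  rw [ev_add]
  ring

lemma J_sub (a : ℝ) (ha : 0 < a) (p q : P n) : J a (p - q) = J a p - J a q := by
  unfold J
  rw [← integral_sub (integrable_W a ha _ (cont_ev p)) (integrable_W a ha _ (cont_ev q))]
  congr 1
  funext x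
  rw [ev_sub]
  ring

lemma J_C (a c : ℝ) (p : P n) : J a (C c * p) = c * J a p := by
  unfold J
  rw [← integral_const_mul]
  congr 1
  funext x
  rw [ev_mul, ev_C]
  ring

lemma J_sum (a : ℝ) (ha : 0 < a) {ι : Type} (s : Finset ι) (p : ι → P n) :
    J a (∑ i ∈ s, p i) = ∑ i ∈ s, J a (p i) := by
  classical
  induction s using Finset.induction_on with
  | empty => simp [J, ev]
  | insert i s hi ih => rw [Finset.sum_insert hi, Finset.sum_insert hi, J_add a ha, ih]

lemma J_one_add (ε : ℝ) (hε : 0 < ε) (p : P n) : J (1 + ε) p = J ε ((1 - rr) * p) := by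
  unfold J
  congr 1
  funext x
  rw [W_add ε hε, ev_mul]
  ring

lemma pderiv_rr (i : Fin n) : pderiv i (1 - rr : P n) = C (-2) * X i := by
  unfold rr
  rw [map_sub, map_sum, pderiv_one, Finset.sum_eq_single i]
  · rw [pderiv_mul, pderiv_X_self]
    simp only [C_neg, map_ofNat]
    ring
  · intro j _ hj
    rw [pderiv_mul, pderiv_X_of_ne hj]
    ring
  · intro h
    exact absurd (Finset.mem_univ i) h

lemma W_line (ε : ℝ) (hε : 0 < ε) (i : Fin n) (x : E n) :
    HasLineDerivAt ℝ (W (1 + ε)) ((1 + ε) * W ε x * (-2 * x i)) x (EuclideanSpace.single i 1) := by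
  have h1 := hasLine_ev (1 - rr : P n) i x
  have h2 := hasDerivAt_pos ε hε (ev x (1 - rr : P n))
  rw [pderiv_rr, ev_mul, ev_C, ev_X] at h1
  unfold HasLineDerivAt at h1 ⊢
  have h3 : ev x (1 - rr : P n) = (fun t : ℝ => ev (x + t • EuclideanSpace.single i (1:ℝ)) (1 - rr : P n)) 0 := by
    simp
  rw [h3] at h2
  have h4 := h2.comp (0:ℝ) h1
  have h5 : (1 + ε) * W ε x * (-2 * x i) = (1 + ε) * (max 0
      ((fun t : ℝ => ev (x + t • EuclideanSpace.single i (1:ℝ)) (1 - rr : P n)) 0)) ^ ε * (-2 * x i) := by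
    rw [← h3]
    rfl
  rw [h5]
  exact h4

/-- integration by parts -/
lemma ibp (ε : ℝ) (hε : 0 < ε) (i : Fin n) (q : P n) :
    2 * (1 + ε) * J ε (X i * q) = J (1 + ε) (pderiv i q) := by
  have hWc : Continuous (W ε : E n → ℝ) := W_cont ε hε
  have h := integral_bilinear_hasLineDerivAt_right_eq_neg_left_of_integrable (μ := (volume : Measure (E n)))
    (f := fun x : E n => ev x q) (f' := fun x : E n => ev x (pderiv i q)) (g := W (1 + ε))
    (g' := fun x : E n => (1 + ε) * W ε x * (-2 * x i)) (v := EuclideanSpace.single i 1)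
    (B := ContinuousLinearMap.mul ℝ ℝ)
    (by
      simp only [ContinuousLinearMap.mul_apply']
      exact integrable_W (1 + ε) (by positivity) _ (cont_ev _))
    (by
      simp only [ContinuousLinearMap.mul_apply']
      have h1 := integrable_W ε hε (fun x : E n => (1 + ε) * (-2) * x i * ev x q)
        ((by fun_prop : Continuous (fun x : E n => (1 + ε) * (-2) * x i)).mul (cont_ev q))
      refine h1.congr (Filter.Eventually.of_forall fun x => ?_)
      change (1 + ε) * (-2) * x i * ev x q * W ε x = ev x q * ((1 + ε) * W ε x * (-2 * x i))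
      ring)
    (by
      simp only [ContinuousLinearMap.mul_apply']
      exact integrable_W (1 + ε) (by positivity) _ (cont_ev _))
    (fun x _ => hasLine_ev q i x) (fun x _ => W_line ε hε i x)
  simp only [ContinuousLinearMap.mul_apply'] at h
  have h2 : J (1 + ε) (pderiv i q) = ∫ x : E n, ev x (pderiv i q) * W (1 + ε) x := rfl
  have h3 : 2 * (1 + ε) * J ε (X i * q) = -∫ x : E n, ev x q * ((1 + ε) * W ε x * (-2 * x i)) := by
    unfold J
    rw [← integral_const_mul, ← integral_neg]
    congr 1
    funext x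
    rw [ev_mul, ev_X]
    ring
  rw [h3, h, neg_neg, h2]

/-- Euler's formula -/
lemma euler (ε : ℝ) (hε : 0 < ε) (g : P n) :
    J (1 + ε) (C ((n : ℝ) + 2 * (1 + ε)) * g + Eu g) = 2 * (1 + ε) * J ε g := by
  have h1 : ∑ i : Fin n, 2 * (1 + ε) * J ε (X i * (X i * g)) =
      ∑ i : Fin n, J (1 + ε) (pderiv i (X i * g)) := Finset.sum_congr rfl fun i _ => ibp ε hε i _
  rw [← Finset.mul_sum, ← J_sum ε hε, ← J_sum (1 + ε) (by positivity)] at h1
  have h2 : (∑ i : Fin n, X i * (X i * g) : P n) = g - (1 - rr) * g := by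
    unfold rr
    rw [sub_mul, one_mul, Finset.sum_mul, sub_sub_cancel]
    refine Finset.sum_congr rfl fun i _ => by ring
  have h3 : (∑ i : Fin n, pderiv i (X i * g) : P n) = C (n : ℝ) * g + Eu g := by
    unfold Eu
    have : ∀ i ∈ (Finset.univ : Finset (Fin n)), pderiv i (X i * g) = g + X i * pderiv i g := by
      intro i _
      rw [pderiv_mul, pderiv_X_self]
      ring
    rw [Finset.sum_congr rfl this, Finset.sum_add_distrib]
    simp
  rw [h2, h3, J_sub ε hε, ← J_one_add ε hε] at h1
  have h4 : (C ((n : ℝ) + 2 * (1 + ε)) * g + Eu g : P n) = (C (n : ℝ) * g + Eu g) + C (2 * (1 + ε)) * g := by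
    rw [C_add]
    ring
  rw [h4, J_add (1 + ε) (by positivity), ← h1, J_C]
  ring

lemma pd_comm (i j : Fin n) (p : P n) : pderiv i (pderiv j p) = pderiv j (pderiv i p) := by
  have h : ⁅(pderiv i : Derivation ℝ (P n) (P n)), (pderiv j : Derivation ℝ (P n) (P n))⁆ = 0 := by
    apply MvPolynomial.derivation_ext
    intro k
    rw [Derivation.commutator_apply, pderiv_X, pderiv_X]
    simp only [Pi.single_apply]
    have h0 : ∀ (a : Fin n) (b : Prop) [Decidable b], pderiv a (if b then (1 : P n) else 0) = 0 := by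
      intro a b _
      split_ifs <;> simp
    rw [h0, h0]
    simp
  have h2 := congrArg (fun D : Derivation ℝ (P n) (P n) => D p) h
  simp only [Derivation.commutator_apply, Derivation.coe_zero, Pi.zero_apply] at h2
  exact sub_eq_zero.1 h2

lemma Eu_pderiv (i : Fin n) (p : P n) : Eu (pderiv i p) = pderiv i (Eu p) - pderiv i p := by
  unfold Eu
  rw [map_sum]
  have : ∀ j ∈ (Finset.univ : Finset (Fin n)), pderiv i (X j * pderiv j p) =
      X j * pderiv j (pderiv i p) + (if j = i then pderiv i p else 0) := by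
    intro j _
    rw [pderiv_mul]
    have hc : pderiv i (pderiv j p) = pderiv j (pderiv i p) := by
      exact pd_comm i j p
    by_cases hij : j = i
    · subst hij
      rw [if_pos rfl, pderiv_X_self]
      ring
    · rw [if_neg hij, pderiv_X_of_ne hij, hc]
      ring
  rw [Finset.sum_congr rfl this, Finset.sum_add_distrib]
  simp

lemma Eu_X (i : Fin n) (p : P n) : Eu (X i * p) = X i * p + X i * Eu p := by
  unfold Eu
  rw [Finset.mul_sum]
  have : ∀ j ∈ (Finset.univ : Finset (Fin n)), X j * pderiv j (X i * p) =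
      X i * (X j * pderiv j p) + (if j = i then X i * p else 0) := by
    intro j _
    rw [pderiv_mul]
    by_cases hij : j = i
    · subst hij
      rw [if_pos rfl, pderiv_X_self]
      ring
    · rw [if_neg hij, pderiv_X_of_ne (Ne.symm hij)]
      ring
  rw [Finset.sum_congr rfl this, Finset.sum_add_distrib]
  simp
  ring

lemma key (ε : ℝ) (hε : 0 < ε) (i : Fin n) (p : P n) :
    J ε (pderiv i p) = ((n : ℝ) + 1 + 2 * ε) * J ε (X i * p) + J ε (X i * Eu p) := by
  have h1 := euler ε hε (pderiv i p)
  have h2 : (C ((n : ℝ) + 2 * (1 + ε)) * pderiv i p + Eu (pderiv i p) : P n) =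
      pderiv i (C ((n : ℝ) + 1 + 2 * ε) * p + Eu p) := by
    have h5 : pderiv i (C ((n : ℝ) + 1 + 2 * ε) * p + Eu p) =
        C ((n : ℝ) + 1 + 2 * ε) * pderiv i p + pderiv i (Eu p) := by
      rw [Derivation.map_add, pderiv_C_mul]
    have h6 : (C ((n : ℝ) + 2 * (1 + ε)) : P n) = C ((n : ℝ) + 1 + 2 * ε) + 1 := by
      rw [show (n : ℝ) + 2 * (1 + ε) = ((n : ℝ) + 1 + 2 * ε) + 1 by ring, C_add, C_1]
    rw [Eu_pderiv, h5, h6]
    ring
  rw [h2, ← ibp ε hε] at h1
  have h3 : (X i * (C ((n : ℝ) + 1 + 2 * ε) * p + Eu p) : P n) =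
      C ((n : ℝ) + 1 + 2 * ε) * (X i * p) + X i * Eu p := by ring
  rw [h3, J_add ε hε, J_C] at h1
  have h4 : (2 * (1 + ε)) ≠ 0 := by positivity
  exact (mul_left_cancel₀ h4 h1).symm

lemma J_lim (p : P n) :
    Filter.Tendsto (fun m : ℕ => J (1 / ((m : ℝ) + 1)) p) Filter.atTop (nhds (Lam p)) := by
  have h0 : Lam p = ∫ x : E n, (Metric.ball (0 : E n) 1).indicator (fun x => ev x p) x := by
    unfold Lam
    rw [integral_indicator Metric.isOpen_ball.measurableSet]
  rw [h0]
  unfold J
  apply tendsto_integral_of_dominated_convergence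
    (fun x => (Metric.closedBall (0 : E n) 1).indicator (fun x => ‖ev x p‖) x)
  · intro m
    exact (((cont_ev p).mul (W_cont _ (by positivity)))).aestronglyMeasurable
  · rw [integrable_indicator_iff Metric.isClosed_closedBall.measurableSet]
    exact (cont_ev p).norm.continuousOn.integrableOn_compact (isCompact_closedBall _ _)
  · intro m
    apply Filter.Eventually.of_forall
    intro x
    by_cases hx : x ∈ Metric.closedBall (0 : E n) 1
    · rw [Set.indicator_of_mem hx, norm_mul]
      have h1 : ‖W (1 / ((m : ℝ) + 1)) x‖ ≤ 1 := by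
        unfold W
        rw [Real.norm_eq_abs, abs_of_nonneg (Real.rpow_nonneg (le_max_left _ _) _)]
        apply Real.rpow_le_one (le_max_left _ _) _ (by positivity)
        rw [ev_rr]
        apply max_le zero_le_one
        nlinarith [norm_nonneg x]
      calc ‖ev x p‖ * ‖W (1 / ((m : ℝ) + 1)) x‖ ≤ ‖ev x p‖ * 1 :=
            mul_le_mul_of_nonneg_left h1 (norm_nonneg _)
        _ = ‖ev x p‖ := mul_one _
    · rw [Set.indicator_of_notMem hx]
      rw [mem_closedBall_zero_iff, not_le] at hx
      rw [W_zero _ (by positivity) x hx.le]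
      simp
  · apply Filter.Eventually.of_forall
    intro x
    by_cases hx : x ∈ Metric.ball (0 : E n) 1
    · rw [Set.indicator_of_mem hx]
      rw [mem_ball_zero_iff] at hx
      have hu : 0 < ev x (1 - rr : P n) := by
        rw [ev_rr]
        nlinarith [norm_nonneg x]
      have h1 : Filter.Tendsto (fun m : ℕ => W (1 / ((m : ℝ) + 1)) x) Filter.atTop (nhds 1) := by
        unfold W
        rw [max_eq_right hu.le]
        have h2 : Filter.Tendsto (fun a : ℝ => (ev x (1 - rr : P n)) ^ a) (nhds 0) (nhds 1) := by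
          have := (Real.continuousAt_const_rpow (a := ev x (1 - rr : P n)) (b := 0) hu.ne').tendsto
          rwa [Real.rpow_zero] at this
        exact h2.comp tendsto_one_div_add_atTop_nhds_zero_nat
      have h3 := h1.const_mul (ev x p)
      rwa [mul_one] at h3
    · rw [Set.indicator_of_notMem hx]
      rw [mem_ball_zero_iff, not_lt] at hx
      have h1 : (fun m : ℕ => ev x p * W (1 / ((m : ℝ) + 1)) x) = fun _ => 0 := by
        funext m
        rw [W_zero _ (by positivity) x hx, mul_zero]
      rw [h1]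
      exact tendsto_const_nhds

lemma ev_integrableOn (p : P n) : IntegrableOn (fun x => ev x p) (Metric.ball (0 : E n) 1) :=
  ((cont_ev p).continuousOn.integrableOn_compact (isCompact_closedBall _ _)).mono_set
    Metric.ball_subset_closedBall

end DivP

open DivP in
/-- KO-3 -/
theorem t_div : S_div := by
  intro n i p
  have h1 : Filter.Tendsto (fun m : ℕ => J (1 / ((m : ℝ) + 1)) (pderiv i p)) Filter.atTop
      (nhds (((n : ℝ) + 1 + 2 * 0) * Lam (X i * p) + Lam (X i * Eu p))) := by
    have h2 : (fun m : ℕ => J (1 / ((m : ℝ) + 1)) (pderiv i p)) = fun m : ℕ =>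
        ((n : ℝ) + 1 + 2 * (1 / ((m : ℝ) + 1))) * J (1 / ((m : ℝ) + 1)) (X i * p) +
          J (1 / ((m : ℝ) + 1)) (X i * Eu p) := by
      funext m
      exact key _ (by positivity) i p
    rw [h2]
    exact ((tendsto_const_nhds.add (tendsto_one_div_add_atTop_nhds_zero_nat.const_mul 2)).mul
      (J_lim _)).add (J_lim _)
  have h3 := tendsto_nhds_unique (J_lim (pderiv i p)) h1
  rw [h3]
  unfold sig
  have h4 : (C (n : ℝ) * (X i * p) + Eu (X i * p) : P n) = C ((n : ℝ) + 1) * (X i * p) + X i * Eu p := by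
    rw [Eu_X, C_add, C_1]
    ring
  rw [h4]
  unfold Lam
  have h5 : ∀ x : E n, ev x (C ((n : ℝ) + 1) * (X i * p) + X i * Eu p) =
      ((n : ℝ) + 1) * ev x (X i * p) + ev x (X i * Eu p) := by
    intro x
    rw [ev_add, ev_mul, ev_C]
  simp_rw [h5]
  rw [integral_add ((ev_integrableOn _).const_mul _) (ev_integrableOn _), integral_const_mul]
  ring

end

end Pool.Agent.R963.Korn
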