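import Pool.Agent.R963.Korn.Fischer

/-! # KO-9: Euler-Lagrange equations -/

open MvPolynomial MeasureTheory

namespace Pool.Agent.R963.Korn

namespace ELAux

open FischerAux

variable {n : ℕ}

theorem pd_comm (i j : Fin n) (p : P n) : pderiv i (pderiv j p) = pderiv j (pderiv i p) := by
  have h : ⁅(pderiv i : Derivation ℝ (P n) (P n)), (pderiv j : Derivation ℝ (P n) (P n))⁆ = 0 := by
    apply MvPolynomial.derivation_ext
    intro k
    rw [Derivation.commutator_apply, pderiv_X, pderiv_X, Derivation.zero_apply]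
    by_cases h1 : j = k
    · by_cases h2 : i = k
      · subst h1; subst h2; simp
      · subst h1; simp [Pi.single_apply, h2, Ne.symm h2]
    · by_cases h2 : i = k
      · subst h2; simp [Pi.single_apply, h1, Ne.symm h1]
      · simp [Pi.single_apply, h1, h2, Ne.symm h1, Ne.symm h2]
  have h1 := congrArg (fun D : Derivation ℝ (P n) (P n) => D p) h
  simp only [Derivation.commutator_apply, Derivation.zero_apply] at h1
  exact sub_eq_zero.1 h1

theorem Lam_add (hl : S_lin) (p q : P n) : Lam (p + q) = Lam p + Lam q := by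
  have h := hl n p q 1 1
  simpa using h

theorem Lam_smul (hl : S_lin) (a : ℝ) (p : P n) : Lam (C a * p) = a * Lam p := by
  have h := hl n p 0 a 0
  simpa using h

theorem Lam_zero (hl : S_lin) : Lam (0 : P n) = 0 := by
  have h := Lam_smul hl 0 (0 : P n)
  simpa using h

theorem Lam_neg (hl : S_lin) (p : P n) : Lam (-p) = - Lam p := by
  have h := Lam_smul hl (-1) p
  simpa using h

theorem Lam_sub (hl : S_lin) (p q : P n) : Lam (p - q) = Lam p - Lam q := by
  rw [sub_eq_add_neg, Lam_add hl, Lam_neg hl]; ring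

theorem Lam_sum (hl : S_lin) {ι : Type*} (s : Finset ι) (f : ι → P n) :
    Lam (∑ i ∈ s, f i) = ∑ i ∈ s, Lam (f i) := by
  classical
  induction s using Finset.induction_on with
  | empty => simp [Lam_zero hl]
  | insert a s ha ih => rw [Finset.sum_insert ha, Finset.sum_insert ha, Lam_add hl, ih]

theorem Eu_add (p q : P n) : Eu (p + q) = Eu p + Eu q := by
  unfold Eu
  rw [← Finset.sum_add_distrib]
  exact Finset.sum_congr rfl fun i _ => by rw [map_add]; ring

theorem sig_add (hl : S_lin) (p q : P n) : sig (p + q) = sig p + sig q := by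
  unfold sig
  rw [Eu_add, ← Lam_add hl]
  congr 1
  ring

theorem sig_zero (hl : S_lin) : sig (0 : P n) = 0 := by
  unfold sig Eu
  simp [Lam_zero hl]

theorem sig_sum (hl : S_lin) {ι : Type*} (s : Finset ι) (f : ι → P n) :
    sig (∑ i ∈ s, f i) = ∑ i ∈ s, sig (f i) := by
  classical
  induction s using Finset.induction_on with
  | empty => simp [sig_zero hl]
  | insert a s ha ih => rw [Finset.sum_insert ha, Finset.sum_insert ha, sig_add hl, ih]

/-- `w_ij = ∂_i u_j - K/2 (∂_i u_j + ∂_j u_i)` -/
noncomputable def ww (K : ℝ) (u : Fin n → P n) (i j : Fin n) : P n :=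
  pderiv i (u j) - C (K / 2) * (pderiv i (u j) + pderiv j (u i))

/-- `W_j` -/
noncomputable def WW (K : ℝ) (u : Fin n → P n) (j : Fin n) : P n := ∑ i, pderiv i (ww K u i j)

/-- `y_j` -/
noncomputable def yy (K : ℝ) (u : Fin n → P n) (j : Fin n) : P n := ∑ i, X i * ww K u i j

theorem first_var (hl : S_lin) (K : ℝ) (u v : Fin n → P n) :
    Lam (∑ i, ∑ j, ww K u i j * pderiv i (v j)) = NN u v - K * DD u v := by
  have h1 : (∑ i, ∑ j, (C (1/2 : ℝ) * (pderiv i (u j) + pderiv j (u i))) *
    (C (1/2 : ℝ) * (pderiv i (v j) + pderiv j (v i))) : P n) =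
      ∑ i, ∑ j, (C (1/2 : ℝ) * (pderiv i (u j) + pderiv j (u i))) * pderiv i (v j) := by
    have h2 : (∑ i, ∑ j, (C (1/2 : ℝ) * (pderiv i (u j) + pderiv j (u i))) * pderiv j (v i) : P n) =
        ∑ i, ∑ j, (C (1/2 : ℝ) * (pderiv i (u j) + pderiv j (u i))) * pderiv i (v j) := by
      rw [Finset.sum_comm]
      refine Finset.sum_congr rfl fun i _ => Finset.sum_congr rfl fun j _ => ?_
      rw [add_comm (pderiv j (u i))]
    have hC : (C (1/2 : ℝ) : P n) + C (1/2 : ℝ) = 1 := by
      rw [← C_add]
      norm_num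
    calc (∑ i, ∑ j, (C (1/2 : ℝ) * (pderiv i (u j) + pderiv j (u i))) *
          (C (1/2 : ℝ) * (pderiv i (v j) + pderiv j (v i))) : P n)
        = C (1/2 : ℝ) * (∑ i, ∑ j, (C (1/2 : ℝ) * (pderiv i (u j) + pderiv j (u i))) * pderiv i (v j))
          + C (1/2 : ℝ) * (∑ i, ∑ j, (C (1/2 : ℝ) * (pderiv i (u j) + pderiv j (u i))) * pderiv j (v i)) := by
          rw [Finset.mul_sum, Finset.mul_sum, ← Finset.sum_add_distrib]
          refine Finset.sum_congr rfl fun i _ => ?_
          rw [Finset.mul_sum, Finset.mul_sum, ← Finset.sum_add_distrib]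
          refine Finset.sum_congr rfl fun j _ => ?_
          ring
      _ = _ := by
          rw [h2, ← add_mul, hC, one_mul]
  unfold NN DD
  rw [h1, ← Lam_smul hl, ← Lam_sub hl]
  congr 1
  rw [Finset.mul_sum, ← Finset.sum_sub_distrib]
  refine Finset.sum_congr rfl fun i _ => ?_
  rw [Finset.mul_sum, ← Finset.sum_sub_distrib]
  refine Finset.sum_congr rfl fun j _ => ?_
  have hK : (C (K / 2) : P n) = C K * C (1 / 2 : ℝ) := by
    rw [← C_mul]
    congr 1
    ring
  rw [ww, hK]
  ring

theorem by_parts (hl : S_lin) (hd : S_div) (K : ℝ) (u v : Fin n → P n) :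
    Lam (∑ i, ∑ j, ww K u i j * pderiv i (v j)) =
      sig (∑ j, yy K u j * v j) - Lam (∑ j, WW K u j * v j) := by
  have h1 : ∀ i j, ww K u i j * pderiv i (v j) =
      pderiv i (ww K u i j * v j) - pderiv i (ww K u i j) * v j := by
    intro i j
    rw [Derivation.leibniz, smul_eq_mul, smul_eq_mul]
    ring
  simp_rw [h1]
  rw [Lam_sum hl, sig_sum hl, Lam_sum hl]
  have h2 : ∀ i : Fin n, Lam (∑ j, (pderiv i (ww K u i j * v j) - pderiv i (ww K u i j) * v j)) =
      ∑ j, (sig (X i * (ww K u i j * v j)) - Lam (pderiv i (ww K u i j) * v j)) := by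
    intro i
    rw [Lam_sum hl]
    exact Finset.sum_congr rfl fun j _ => by rw [Lam_sub hl, hd]
  simp_rw [h2]
  rw [Finset.sum_comm, ← Finset.sum_sub_distrib]
  refine Finset.sum_congr rfl fun j _ => ?_
  rw [Finset.sum_sub_distrib]
  congr 1
  · rw [yy, Finset.sum_mul, sig_sum hl]
    exact Finset.sum_congr rfl fun i _ => by rw [mul_assoc]
  · rw [WW, Finset.sum_mul, Lam_sum hl]

theorem deg_ww (K : ℝ) (u : Fin n → P n) (d : ℕ) (hu : ∀ j, (u j).totalDegree ≤ d) (i j : Fin n) :
    (ww K u i j).totalDegree ≤ d - 1 := by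
  have h1 := deg_pderiv i (u j)
  have h2 := deg_pderiv j (u i)
  have h3 := totalDegree_add (pderiv i (u j)) (pderiv j (u i))
  have h4 := totalDegree_mul (C (K / 2) : P n) (pderiv i (u j) + pderiv j (u i))
  have h5 := totalDegree_sub (pderiv i (u j)) (C (K / 2) * (pderiv i (u j) + pderiv j (u i)))
  rw [totalDegree_C] at h4
  have h6 := hu j
  have h7 := hu i
  unfold ww
  refine h5.trans (max_le (by omega) (h4.trans ?_))
  rw [zero_add]
  exact h3.trans (max_le (by omega) (by omega))

theorem WW_small (K : ℝ) (u : Fin n → P n) (d : ℕ) (hd : d < 2) (hu : ∀ j, (u j).totalDegree ≤ d)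
    (j : Fin n) : WW K u j = 0 := by
  unfold WW
  refine Finset.sum_eq_zero fun i _ => pd_zero i _ ?_
  have := deg_ww K u d hu i j
  omega

theorem deg_WW (K : ℝ) (u : Fin n → P n) (d : ℕ) (hu : ∀ j, (u j).totalDegree ≤ d)
    (j : Fin n) : (WW K u j).totalDegree ≤ d - 2 := by
  unfold WW
  refine totalDegree_finsetSum_le (fun i _ => ?_)
  have h1 := deg_pderiv i (ww K u i j)
  have h2 := deg_ww K u d hu i j
  omega

theorem deg_yy (K : ℝ) (u : Fin n → P n) (d : ℕ) (hu : ∀ j, (u j).totalDegree ≤ d)
    (j : Fin n) : (yy K u j).totalDegree ≤ d := by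
  unfold yy
  refine totalDegree_finsetSum_le (fun i _ => ?_)
  by_cases h : ww K u i j = 0
  · rw [h, mul_zero, totalDegree_zero]; exact Nat.zero_le _
  · have h1 := totalDegree_mul (X i : P n) (ww K u i j)
    rw [totalDegree_X] at h1
    have h2 := deg_ww K u d hu i j
    by_cases hd : d = 0
    · exfalso
      apply h
      have a1 : (u j).totalDegree = 0 := by have := hu j; omega
      have a2 : (u i).totalDegree = 0 := by have := hu i; omega
      rw [ww, pd_zero i _ a1, pd_zero j _ a2]
      simp
    · omega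

end ELAux

open FischerAux ELAux

theorem t_el (hl : S_lin) (hp : S_pos) (hz : S_zero) (hd : S_div) (hs : S_sig) (hf : S_fischer) :
    S_el := by
  intro n d u K hn hK hu hv
  have key : ∀ v : Fin n → P n, (∀ j, (v j).totalDegree ≤ d) →
      sig (∑ j, yy K u j * v j) - Lam (∑ j, WW K u j * v j) = 0 := by
    intro v hvd
    rw [← by_parts hl hd, first_var hl, hv v hvd, sub_self]
  -- the equation inside
  have hW : ∀ j, WW K u j = 0 := by
    by_cases h2 : d < 2
    · exact WW_small K u d h2 hu
    · push Not at h2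
      have h3 := key (fun j => (1 - rr) * WW K u j) (fun j => by
        have a1 := totalDegree_mul (1 - rr : P n) (WW K u j)
        have a2 := deg_rr (n := n)
        have a3 := deg_WW K u d hu j
        omega)
      have h4 : sig (∑ j, yy K u j * ((1 - rr) * WW K u j)) = 0 := by
        rw [sig_sum hl]
        refine Finset.sum_eq_zero fun j _ => ?_
        have e : yy K u j * ((1 - rr) * WW K u j) = (1 - rr) * (yy K u j * WW K u j) := by ring
        rw [e]
        exact (hs n _ hn).1
      rw [h4, zero_sub, neg_eq_zero, Lam_sum hl] at h3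
      have h5 : ∀ j ∈ (Finset.univ : Finset (Fin n)), 0 ≤ Lam (WW K u j * ((1 - rr) * WW K u j)) := by
        intro j _
        have h6 := hp n 0 (WW K u j * ((1 - rr) * WW K u j)) (fun x hx => by
          have e1 : ev x (0 : P n) = 0 := by simp [ev]
          have e2 : ev x (WW K u j * ((1 - rr) * WW K u j)) =
            (1 - ‖x‖ ^ 2) * (ev x (WW K u j)) ^ 2 := by
            have e3 : ev x (rr : P n) = ‖x‖ ^ 2 := by
              unfold ev rr
              rw [EuclideanSpace.norm_sq_eq, map_sum]
              refine Finset.sum_congr rfl fun i _ => ?_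
              rw [map_mul, eval_X, Real.norm_eq_abs, sq_abs]
              ring
            unfold ev at e3 ⊢
            rw [map_mul, map_mul, map_sub, e3, map_one]
            ring
          rw [e1, e2]
          have : ‖x‖ ^ 2 ≤ 1 := by nlinarith [norm_nonneg x]
          exact mul_nonneg (by linarith) (sq_nonneg _))
        rwa [Lam_zero hl] at h6
      intro j
      have h6 := (Finset.sum_eq_zero_iff_of_nonneg h5).1 h3 j (Finset.mem_univ j)
      have e : WW K u j * ((1 - rr) * WW K u j) = (1 - rr) * (WW K u j * WW K u j) := by ring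
      rw [e] at h6
      exact (hz n _ hn).2 h6
  -- the boundary condition
  have hY : ∀ v : Fin n → P n, (∀ j, (v j).totalDegree ≤ d) → sig (∑ j, yy K u j * v j) = 0 := by
    intro v hvd
    have h1 := key v hvd
    have h2 : Lam (∑ j, WW K u j * v j) = 0 := by
      have : (∑ j, WW K u j * v j : P n) = 0 :=
        Finset.sum_eq_zero fun j _ => by rw [hW j, zero_mul]
      rw [this, Lam_zero hl]
    rw [h2, sub_zero] at h1
    exact h1
  choose h q e1 e2 e3 using fun j => hf n d (yy K u j) hn (deg_yy K u d hu j)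
  have h1 := hY h e3
  have h2 : sig (∑ j, yy K u j * h j) = ∑ j, sig (h j * h j) := by
    rw [sig_sum hl]
    refine Finset.sum_congr rfl fun j _ => ?_
    have e : yy K u j * h j = h j * h j + (1 - rr) * (q j * h j) := by
      conv_lhs => rw [e1 j]
      ring
    rw [e, sig_add hl, (hs n _ hn).1, add_zero]
  rw [h2] at h1
  have h3 : ∀ j, h j = 0 := by
    intro j
    have h4 := (Finset.sum_eq_zero_iff_of_nonneg (fun j _ => (hs n (h j) hn).2.1)).1 h1 j
      (Finset.mem_univ j)
    exact (hs n _ hn).2.2 (e2 j) h4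
  have hK2 : (2 : ℝ) - K ≠ 0 := sub_ne_zero.2 (Ne.symm hK)
  have cK : ∀ a b : ℝ, (2 - K) / 2 * a = b → a = 2 / (2 - K) * b := by
    intro a b hab
    field_simp
    linarith
  have hCC : ∀ p r : P n, C ((2 - K) / 2) * p = r → p = C (2 / (2 - K)) * r := by
    intro p r h
    rw [← h, ← mul_assoc, ← C_mul]
    have : 2 / (2 - K) * ((2 - K) / 2) = 1 := by field_simp
    rw [this, C_1, one_mul]
  constructor
  · intro j
    have h4 := hW j
    have h5 : WW K u j = C ((2 - K) / 2) * Lap (u j) - C (K / 2) * pderiv j (dv u) := by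
      unfold WW ww Lap dv
      rw [map_sum, Finset.mul_sum, Finset.mul_sum, ← Finset.sum_sub_distrib]
      refine Finset.sum_congr rfl fun i _ => ?_
      rw [map_sub, pderiv_C_mul, map_add]
      have hc : pderiv i (pderiv j (u i)) = pderiv j (pderiv i (u i)) := pd_comm i j (u i)
      have hC : (C ((2 - K) / 2) : P n) = 1 - C (K / 2) := by
        rw [← C_1, ← C_sub]
        congr 1
        ring
      rw [hc, hC]
      ring
    rw [h5, sub_eq_zero] at h4
    have h6 := hCC _ _ h4
    rw [h6, ← mul_assoc, ← C_mul]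
    congr 2
    field_simp
  · refine ⟨fun j => C (2 / (2 - K)) * q j, fun j => ?_⟩
    have h4 := e1 j
    rw [h3 j, zero_add] at h4
    have h5 : yy K u j = C ((2 - K) / 2) * Eu (u j) - C (K / 2) * (pderiv j (xd u) - u j) := by
      have h6 : pderiv j (xd u) = u j + ∑ i, X i * pderiv j (u i) := by
        unfold xd
        rw [map_sum]
        have : ∀ i, pderiv j (X i * u i) = X i * pderiv j (u i) + (if i = j then u i else 0) := by
          intro i
          rw [Derivation.leibniz, smul_eq_mul, smul_eq_mul, pderiv_X]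
          by_cases hij : i = j
          · subst hij; simp
          · rw [if_neg hij, Pi.single_eq_of_ne hij]
            ring
        simp_rw [this]
        rw [Finset.sum_add_distrib, Finset.sum_ite_eq' Finset.univ j u]
        simp [add_comm]
      rw [h6]
      unfold yy ww Eu
      rw [add_sub_cancel_left, Finset.mul_sum, Finset.mul_sum, ← Finset.sum_sub_distrib]
      refine Finset.sum_congr rfl fun i _ => ?_
      have hC : (C ((2 - K) / 2) : P n) = 1 - C (K / 2) := by
        rw [← C_1, ← C_sub]
        congr 1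
        ring
      rw [hC]
      ring
    rw [h5] at h4
    have h6 : C (2 / (2 - K)) * (C ((2 - K) / 2) * Eu (u j) - C (K / 2) * (pderiv j (xd u) - u j)) =
        C (2 / (2 - K)) * ((1 - rr) * q j) := by rw [h4]
    have a1 : (C (2 / (2 - K)) : P n) * C ((2 - K) / 2) = 1 := by
      rw [← C_mul, ← C_1]
      congr 1
      field_simp
    have a2 : (C (2 / (2 - K)) : P n) * C (K / 2) = C (K / (2 - K)) := by
      rw [← C_mul]
      congr 1
      field_simp
    calc Eu (u j) + C (K / (2 - K)) * u j - C (K / (2 - K)) * pderiv j (xd u)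
        = (C (2 / (2 - K)) * C ((2 - K) / 2)) * Eu (u j) -
            (C (2 / (2 - K)) * C (K / 2)) * (pderiv j (xd u) - u j) := by
          rw [a1, a2]; ring
      _ = C (2 / (2 - K)) * ((1 - rr) * q j) := by rw [← h6]; ring
      _ = (1 - rr) * (C (2 / (2 - K)) * q j) := by ring

end Pool.Agent.R963.Korn
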