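import Pool.Agent.R963.Korn.Stm

/-!
# KO-8 (helper451): the largest generalised eigenvalue
-/

set_option autoImplicit false

namespace Pool.Agent.R963.Korn

namespace EigenAux

lemma lin_zero {a c : ℝ} (h : ∀ t : ℝ, 2 * t * a + t ^ 2 * c ≤ 0) : a = 0 := by
  by_contra ha
  have h0 : 0 < |c| + 1 := by positivity
  have h1 := h (a / (|c| + 1))
  have h2 : 2 * (a / (|c| + 1)) * a + (a / (|c| + 1)) ^ 2 * c =
      (a ^ 2 / (|c| + 1)) * (2 + c / (|c| + 1)) := by
    field_simp
  rw [h2] at h1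
  have h3 : 0 < a ^ 2 / (|c| + 1) := by positivity
  have h4 : -1 ≤ c / (|c| + 1) := by
    rw [le_div_iff₀ h0]
    have := neg_abs_le c
    linarith
  nlinarith

lemma cont {V : Type} [AddCommGroup V] [Module ℝ V] {d : ℕ} (e : V ≃ₗ[ℝ] (Fin d → ℝ))
    (N : V →ₗ[ℝ] V →ₗ[ℝ] ℝ) : Continuous fun x : Fin d → ℝ => N (e.symm x) (e.symm x) := by
  have h : ∀ x : Fin d → ℝ, N (e.symm x) (e.symm x) =
      ∑ i, ∑ j, x i * (x j * N (e.symm (Pi.single i 1)) (e.symm (Pi.single j 1))) := by
    intro x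
    have h1 : e.symm x = ∑ i, x i • e.symm (Pi.single i 1) := by
      conv_lhs => rw [pi_eq_sum_univ' x]
      simp
    rw [h1]
    simp only [map_sum, map_smul, LinearMap.sum_apply, LinearMap.smul_apply, smul_eq_mul,
      Finset.mul_sum]
    rw [Finset.sum_comm]
    refine Finset.sum_congr rfl fun i _ => Finset.sum_congr rfl fun j _ => ?_
    ring
  simp only [h]
  fun_prop

end EigenAux

open EigenAux in
/-- KO-8 -/
theorem t_eigen : S_eigen := by
  intro V _ _ _ N D hN hD hpos K₀ ⟨v₀, hv₀⟩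
  have hv₀0 : v₀ ≠ 0 := by
    rintro rfl
    simp at hv₀
  set e : V ≃ₗ[ℝ] (Fin (Module.finrank ℝ V) → ℝ) := (Module.finBasis ℝ V).equivFun with he
  have hne : ∀ x : Fin (Module.finrank ℝ V) → ℝ, x ≠ 0 → 0 < D (e.symm x) (e.symm x) := by
    intro x hx
    exact hpos _ (by simpa using hx)
  have hcompact : IsCompact (Metric.sphere (0 : Fin (Module.finrank ℝ V) → ℝ) 1) :=
    isCompact_sphere _ _
  have hnonempty : (Metric.sphere (0 : Fin (Module.finrank ℝ V) → ℝ) 1).Nonempty := by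
    refine ⟨‖e v₀‖⁻¹ • e v₀, ?_⟩
    have : e v₀ ≠ 0 := by simpa using hv₀0
    rw [mem_sphere_zero_iff_norm, norm_smul, norm_inv, norm_norm,
      inv_mul_cancel₀ (norm_ne_zero_iff.2 this)]
  have hcont : ContinuousOn (fun x => N (e.symm x) (e.symm x) / D (e.symm x) (e.symm x))
      (Metric.sphere (0 : Fin (Module.finrank ℝ V) → ℝ) 1) := by
    refine ContinuousOn.div (cont e N).continuousOn (cont e D).continuousOn ?_
    intro x hx
    refine (hne x ?_).ne'
    rintro rfl
    simp at hx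
  obtain ⟨x₀, hx₀, hmax⟩ := hcompact.exists_isMaxOn hnonempty hcont
  have hx₀0 : x₀ ≠ 0 := by
    rintro rfl
    simp at hx₀
  set u := e.symm x₀ with hu
  have hu0 : u ≠ 0 := by simpa [hu] using hx₀0
  set K := N u u / D u u with hK
  have hDu := hpos u hu0
  have hNu : N u u = K * D u u := by
    rw [hK, div_mul_cancel₀ _ hDu.ne']
  have hle : ∀ v, N v v ≤ K * D v v := by
    intro v
    by_cases hv : v = 0
    · simp [hv]
    · have h1 : e v ≠ 0 := by simpa using hv
      have hn : 0 < ‖e v‖ := norm_pos_iff.2 h1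
      have h2 : ‖e v‖⁻¹ • e v ∈ Metric.sphere (0 : Fin (Module.finrank ℝ V) → ℝ) 1 := by
        rw [mem_sphere_zero_iff_norm, norm_smul, norm_inv, norm_norm,
          inv_mul_cancel₀ hn.ne']
      have h3 := hmax h2
      simp only [Set.mem_ofPred_eq, map_smul, LinearMap.smul_apply, smul_eq_mul,
        LinearEquiv.symm_apply_apply] at h3
      rw [← hu, ← hK] at h3
      have h4 := hpos v hv
      rw [div_le_iff₀ (by positivity)] at h3
      have h5 : ‖e v‖⁻¹ * (‖e v‖⁻¹ * N v v) = (‖e v‖⁻¹ * ‖e v‖⁻¹) * N v v := by ring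
      have h6 : K * (‖e v‖⁻¹ * (‖e v‖⁻¹ * D v v)) = (‖e v‖⁻¹ * ‖e v‖⁻¹) * (K * D v v) := by ring
      rw [h5, h6] at h3
      exact le_of_mul_le_mul_left h3 (by positivity)
  refine ⟨K, ?_, u, hu0, ?_⟩
  · have h1 := hle v₀
    have h2 := hpos v₀ hv₀0
    nlinarith
  · intro v
    have h1 : N u v - K * D u v = 0 := by
      refine lin_zero (c := N v v - K * D v v) fun t => ?_
      have h2 := hle (u + t • v)
      simp only [map_add, map_smul, LinearMap.add_apply, LinearMap.smul_apply, smul_eq_mul,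
        hN v u, hD v u] at h2
      nlinarith
    linarith

end Pool.Agent.R963.Korn
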