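import Pool.Agent.R963.Korn.Stm

/-! # KO-6: Fischer decomposition -/

open MvPolynomial MeasureTheory

namespace Pool.Agent.R963.Korn

namespace FischerAux

variable {n : ℕ}

theorem deg_pderiv (i : Fin n) (p : P n) : (pderiv i p).totalDegree ≤ p.totalDegree - 1 := by
  have h : pderiv i p = ∑ s ∈ p.support, pderiv i (monomial s (coeff s p)) := by
    conv_lhs => rw [p.as_sum]
    rw [map_sum]
  rw [h]
  refine totalDegree_finsetSum_le (fun s hs => ?_)
  rw [pderiv_monomial]
  by_cases h0 : s i = 0
  · simp [h0]
  · refine (totalDegree_monomial_le _ _).trans ?_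
    have h1 := le_totalDegree hs
    have h2 : s = (s - Finsupp.single i 1) + Finsupp.single i 1 := by
      ext k
      by_cases hk : k = i
      · subst hk
        simp only [Finsupp.coe_add, Finsupp.coe_tsub, Pi.add_apply, Pi.sub_apply,
          Finsupp.single_eq_same]
        omega
      · simp [Finsupp.single_eq_of_ne hk]
    have h3 : (s.sum fun _ e => e) = ((s - Finsupp.single i 1).sum fun _ e => e) + 1 := by
      conv_lhs => rw [h2]
      rw [Finsupp.sum_add_index' (fun _ => rfl) (fun _ _ _ => rfl), Finsupp.sum_single_index rfl]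
    have h4 : ((s - Finsupp.single i 1).sum fun _ => id) =
      ((s - Finsupp.single i 1).sum fun _ e => e) := rfl
    omega

theorem deg_Lap (p : P n) : (Lap p).totalDegree ≤ p.totalDegree - 2 := by
  unfold Lap
  refine totalDegree_finsetSum_le (fun i _ => ?_)
  have h1 := deg_pderiv i p
  have h2 := deg_pderiv i (pderiv i p)
  omega

theorem pd_zero (i : Fin n) (p : P n) (h : p.totalDegree = 0) : pderiv i p = 0 := by
  rw [totalDegree_eq_zero_iff_eq_C] at h
  rw [h, pderiv_C]

theorem pd_pd_zero (i j : Fin n) (p : P n) (h : p.totalDegree ≤ 1) :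
    pderiv i (pderiv j p) = 0 := by
  apply pd_zero
  have := deg_pderiv j p
  omega

theorem deg_rr : (1 - rr : P n).totalDegree ≤ 2 := by
  have h1 : (rr : P n).totalDegree ≤ 2 := by
    unfold rr
    refine totalDegree_finsetSum_le (fun i _ => ?_)
    refine (totalDegree_mul _ _).trans ?_
    rw [totalDegree_X]
  have h2 := totalDegree_sub (1 : P n) rr
  have h3 : (1 : P n).totalDegree = 0 := totalDegree_one
  rw [h3] at h2
  exact h2.trans (by simpa using h1)

theorem rr_ne : (1 - rr : P n) ≠ 0 := by
  intro h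
  have h1 : eval (fun _ => (0 : ℝ)) (1 - rr : P n) = 0 := by rw [h]; simp
  have h2 : eval (fun _ => (0 : ℝ)) (1 - rr : P n) = 1 := by
    unfold rr
    simp
  rw [h2] at h1
  exact one_ne_zero h1

/-- the Laplacian as a linear map -/
noncomputable def LapL : P n →ₗ[ℝ] P n :=
  ∑ i, ((pderiv i : Derivation ℝ (P n) (P n)) : P n →ₗ[ℝ] P n) ∘ₗ
    ((pderiv i : Derivation ℝ (P n) (P n)) : P n →ₗ[ℝ] P n)

theorem LapL_apply (p : P n) : LapL p = Lap p := by
  unfold LapL Lap
  rw [LinearMap.sum_apply]
  rfl

theorem Lap_sub (p q : P n) : Lap (p - q) = Lap p - Lap q := by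
  rw [← LapL_apply, ← LapL_apply, ← LapL_apply, map_sub]

end FischerAux

open FischerAux

theorem t_fischer (hs : S_sig) : S_fischer := by
  intro n d p hn hp
  by_cases hd : d < 2
  · refine ⟨p, 0, by ring, ?_, hp⟩
    unfold Lap
    exact Finset.sum_eq_zero fun i _ => pd_pd_zero i i p (by omega)
  · push Not at hd
    set V := restrictTotalDegree (Fin n) ℝ (d - 2) with hV
    have hTV : ∀ q ∈ V, (LapL ∘ₗ LinearMap.mulLeft ℝ (1 - rr : P n)) q ∈ V := by
      intro q hq
      rw [hV, mem_restrictTotalDegree] at hq ⊢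
      rw [LinearMap.comp_apply, LinearMap.mulLeft_apply, LapL_apply]
      have h1 := deg_Lap ((1 - rr) * q)
      have h2 := totalDegree_mul (1 - rr : P n) q
      have h3 := deg_rr (n := n)
      omega
    set T : V →ₗ[ℝ] V := (LapL ∘ₗ LinearMap.mulLeft ℝ (1 - rr : P n)).restrict hTV with hT
    have hinj : Function.Injective T := by
      rw [← LinearMap.ker_eq_bot, LinearMap.ker_eq_bot']
      intro q hq
      have h1 : Lap ((1 - rr) * (q : P n)) = 0 := by
        have h2 := congrArg Subtype.val hq
        rw [hT, LinearMap.coe_restrict_apply, LinearMap.comp_apply, LinearMap.mulLeft_apply,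
          LapL_apply] at h2
        exact h2
      have h2 : sig (((1 - rr) * (q : P n)) * ((1 - rr) * (q : P n))) = 0 := by
        rw [mul_assoc]
        exact (hs n _ hn).1
      have h3 := (hs n _ hn).2.2 h1 h2
      rcases mul_eq_zero.1 h3 with h4 | h4
      · exact absurd h4 rr_ne
      · exact Subtype.ext h4
    have hsurj := LinearMap.injective_iff_surjective.1 hinj
    have hLp : Lap p ∈ V := by
      rw [hV, mem_restrictTotalDegree]
      have h1 := deg_Lap p
      omega
    obtain ⟨q, hq⟩ := hsurj ⟨Lap p, hLp⟩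
    have hq' : Lap ((1 - rr) * (q : P n)) = Lap p := by
      have h2 := congrArg Subtype.val hq
      rw [hT, LinearMap.coe_restrict_apply, LinearMap.comp_apply, LinearMap.mulLeft_apply,
        LapL_apply] at h2
      exact h2
    refine ⟨p - (1 - rr) * (q : P n), (q : P n), by ring, ?_, ?_⟩
    · rw [Lap_sub, hq', sub_self]
    · have h1 := totalDegree_sub p ((1 - rr) * (q : P n))
      have h2 := totalDegree_mul (1 - rr : P n) (q : P n)
      have h3 := deg_rr (n := n)
      have h4 := (mem_restrictTotalDegree (σ := Fin n) (R := ℝ) (d - 2) (q : P n)).1 q.2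
      refine h1.trans (max_le hp ?_)
      omega

end Pool.Agent.R963.Korn
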