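import Pool.Agent.R963.Korn.Stm

/-!
# KO-11: existence of solid harmonics (MP_67a05c_an)
-/

open MvPolynomial MeasureTheory

namespace Pool.Agent.R963.Korn

noncomputable section

namespace K11

variable {n : ℕ}

/-- real and imaginary part of `(x + i y)^l` -/
def ab (i j : Fin n) : ℕ → P n × P n
  | 0 => (1, 0)
  | l + 1 => (X i * (ab i j l).1 - X j * (ab i j l).2, X j * (ab i j l).1 + X i * (ab i j l).2)

theorem ab_succ1 (i j : Fin n) (l : ℕ) :
    (ab i j (l + 1)).1 = X i * (ab i j l).1 - X j * (ab i j l).2 := rfl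

theorem ab_succ2 (i j : Fin n) (l : ℕ) :
    (ab i j (l + 1)).2 = X j * (ab i j l).1 + X i * (ab i j l).2 := rfl

theorem ab_hom (i j : Fin n) : ∀ l, (ab i j l).1.IsHomogeneous l ∧ (ab i j l).2.IsHomogeneous l
  | 0 => ⟨isHomogeneous_one _ _, isHomogeneous_zero _ _ _⟩
  | l + 1 => by
    obtain ⟨ha, hb⟩ := ab_hom i j l
    have e : 1 + l = l + 1 := by omega
    refine ⟨?_, ?_⟩
    · rw [ab_succ1, ← e]
      exact ((isHomogeneous_X _ _).mul ha).sub ((isHomogeneous_X _ _).mul hb)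
    · rw [ab_succ2, ← e]
      exact ((isHomogeneous_X _ _).mul ha).add ((isHomogeneous_X _ _).mul hb)

theorem pd_other {i j k : Fin n} (hki : k ≠ i) (hkj : k ≠ j) :
    ∀ l, pderiv k (ab i j l).1 = 0 ∧ pderiv k (ab i j l).2 = 0
  | 0 => ⟨by simp [ab], by simp [ab]⟩
  | l + 1 => by
    obtain ⟨ha, hb⟩ := pd_other hki hkj l
    refine ⟨?_, ?_⟩
    · rw [ab_succ1]
      simp [Derivation.leibniz, ha, hb, pderiv_X_of_ne hki.symm, pderiv_X_of_ne hkj.symm]
    · rw [ab_succ2]
      simp [Derivation.leibniz, ha, hb, pderiv_X_of_ne hki.symm, pderiv_X_of_ne hkj.symm]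

theorem pd_ij {i j : Fin n} (hij : i ≠ j) :
    ∀ l : ℕ, pderiv i (ab i j (l + 1)).1 = ((l : P n) + 1) * (ab i j l).1 ∧
      pderiv i (ab i j (l + 1)).2 = ((l : P n) + 1) * (ab i j l).2 ∧
      pderiv j (ab i j (l + 1)).1 = -(((l : P n) + 1) * (ab i j l).2) ∧
      pderiv j (ab i j (l + 1)).2 = ((l : P n) + 1) * (ab i j l).1
  | 0 => by
    refine ⟨?_, ?_, ?_, ?_⟩ <;>
      simp [ab, pderiv_X_of_ne hij, pderiv_X_of_ne hij.symm, pderiv_X_self]
  | l + 1 => by
    obtain ⟨h1, h2, h3, h4⟩ := pd_ij hij l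
    refine ⟨?_, ?_, ?_, ?_⟩
    · rw [ab_succ1 i j (l + 1), map_sub, Derivation.leibniz, Derivation.leibniz, h1, h2,
        pderiv_X_self, pderiv_X_of_ne hij.symm, smul_eq_mul, smul_eq_mul, smul_eq_mul, smul_eq_mul,
        ab_succ1 i j l, ab_succ2 i j l]
      push_cast
      ring
    · rw [ab_succ2 i j (l + 1), map_add, Derivation.leibniz, Derivation.leibniz, h1, h2,
        pderiv_X_self, pderiv_X_of_ne hij.symm, smul_eq_mul, smul_eq_mul, smul_eq_mul, smul_eq_mul,
        ab_succ1 i j l, ab_succ2 i j l]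
      push_cast
      ring
    · rw [ab_succ1 i j (l + 1), map_sub, Derivation.leibniz, Derivation.leibniz, h3, h4,
        pderiv_X_self, pderiv_X_of_ne hij, smul_eq_mul, smul_eq_mul, smul_eq_mul, smul_eq_mul,
        ab_succ1 i j l, ab_succ2 i j l]
      push_cast
      ring
    · rw [ab_succ2 i j (l + 1), map_add, Derivation.leibniz, Derivation.leibniz, h3, h4,
        pderiv_X_self, pderiv_X_of_ne hij, smul_eq_mul, smul_eq_mul, smul_eq_mul, smul_eq_mul,
        ab_succ1 i j l, ab_succ2 i j l]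
      push_cast
      ring

theorem cr {i j : Fin n} (hij : i ≠ j) (l : ℕ) :
    pderiv i (ab i j l).1 = pderiv j (ab i j l).2 := by
  cases l with
  | zero => simp [ab]
  | succ l =>
    obtain ⟨h1, h2, h3, h4⟩ := pd_ij hij l
    rw [h1, h4]

theorem lap {i j : Fin n} (hij : i ≠ j) (l : ℕ) : Lap (ab i j l).1 = 0 := by
  unfold Lap
  rw [Finset.sum_eq_add i j hij]
  · cases l with
    | zero => simp [ab]
    | succ l =>
      obtain ⟨h1, h2, h3, h4⟩ := pd_ij hij l
      have hc : ∀ (k : Fin n) (p : P n), pderiv k (((l : P n) + 1) * p) =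
          ((l : P n) + 1) * pderiv k p := by
        intro k p
        have e : ((l : P n) + 1) = C ((l : ℝ) + 1) := by simp
        rw [e, pderiv_C_mul]
      rw [h1, h3, map_neg, hc, hc, cr hij l]
      ring
  · intro c _ hc
    rw [(pd_other hc.1 hc.2 l).1, map_zero]
  · intro h
    exact absurd (Finset.mem_univ _) h
  · intro h
    exact absurd (Finset.mem_univ _) h

theorem ev_ab {i j : Fin n} (hij : i ≠ j) : ∀ l,
    eval (Pi.single i (1 : ℝ)) (ab i j l).1 = 1 ∧ eval (Pi.single i (1 : ℝ)) (ab i j l).2 = 0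
  | 0 => ⟨by simp [ab], by simp [ab]⟩
  | l + 1 => by
    obtain ⟨ha, hb⟩ := ev_ab hij l
    refine ⟨?_, ?_⟩
    · rw [ab_succ1]
      simp [ha, hb]
    · rw [ab_succ2]
      simp [ha, hb, hij.symm]

end K11

theorem t_harm : S_harm := by
  intro n l hn
  have hij : (⟨0, by omega⟩ : Fin n) ≠ ⟨1, by omega⟩ := by
    intro h
    simp at h
  refine ⟨(K11.ab ⟨0, by omega⟩ ⟨1, by omega⟩ l).1, ?_, (K11.ab_hom _ _ l).1, K11.lap hij l⟩
  intro h
  have := (K11.ev_ab hij l).1
  rw [h] at this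
  simp at this

end

end Pool.Agent.R963.Korn
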