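import Pool.Agent.R963.Korn.Stm

open MvPolynomial MeasureTheory

set_option maxHeartbeats 400000

namespace Pool.Agent.R963.Korn

lemma ev_continuous {n : ℕ} (p : P n) : Continuous fun x : E n => ev x p := by
  unfold ev
  have h : Continuous fun x : E n => (fun i => x i : Fin n → ℝ) := by fun_prop
  exact (MvPolynomial.continuous_eval p).comp h

lemma ev_mul {n : ℕ} (x : E n) (p q : P n) : ev x (p * q) = ev x p * ev x q := by
  unfold ev
  rw [map_mul]

lemma ev_pow {n : ℕ} (x : E n) (p : P n) (m : ℕ) : ev x (p ^ m) = ev x p ^ m := by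
  unfold ev
  rw [map_pow]

lemma ev_rr {n : ℕ} (x : E n) : ev x rr = ‖x‖ ^ 2 := by
  unfold ev rr
  rw [EuclideanSpace.norm_sq_eq]
  simp only [map_sum, map_mul, eval_X, Real.norm_eq_abs, sq_abs]
  refine Finset.sum_congr rfl fun i _ => ?_
  ring

lemma ev_one_sub_rr {n : ℕ} (x : E n) : ev x (1 - rr) = 1 - ‖x‖ ^ 2 := by
  rw [← ev_rr x]
  unfold ev
  rw [map_sub, map_one]

lemma integrableOn_ball {n : ℕ} {f : E n → ℝ} (hf : Continuous f) :
    IntegrableOn f (Metric.ball (0 : E n) 1) volume :=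
  (hf.continuousOn.integrableOn_compact (isCompact_closedBall (0 : E n) 1)).mono_set
    Metric.ball_subset_closedBall

lemma zero_of_integral {n : ℕ} {f : E n → ℝ} (hf : Continuous f)
    (h0 : ∀ x ∈ Metric.ball (0 : E n) 1, 0 ≤ f x)
    (hint : ∫ x in Metric.ball (0 : E n) 1, f x = 0) :
    ∀ x ∈ Metric.ball (0 : E n) 1, f x = 0 := by
  have h1 : 0 ≤ᵐ[volume.restrict (Metric.ball (0 : E n) 1)] f := by
    rw [Filter.EventuallyLE, ae_restrict_iff' measurableSet_ball]
    exact Filter.Eventually.of_forall h0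
  have h2 := (setIntegral_eq_zero_iff_of_nonneg_ae h1 (integrableOn_ball hf)).1 hint
  have h3 := Measure.eqOn_open_of_ae_eq h2 Metric.isOpen_ball hf.continuousOn
    continuous_const.continuousOn
  intro x hx
  exact h3 hx

lemma eq_zero_of_ball {n : ℕ} {p : P n} (h : ∀ x ∈ Metric.ball (0 : E n) 1, ev x p = 0) :
    p = 0 := by
  have hc : (0 : ℝ) < 1 / (n + 1) := by positivity
  refine MvPolynomial.funext_set (fun _ => Set.Ioo (-(1 / ((n : ℝ) + 1))) (1 / (n + 1)))
    (fun _ => Set.Ioo_infinite (by linarith)) ?_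
  intro y hy
  have hy' : ∀ i, |y i| < 1 / (n + 1) := fun i => abs_lt.2 (hy i (Set.mem_univ i))
  let x : E n := WithLp.toLp 2 y
  have hx : x ∈ Metric.ball (0 : E n) 1 := by
    rw [mem_ball_zero_iff]
    have h1 : ‖x‖ ^ 2 < 1 := by
      rw [EuclideanSpace.norm_sq_eq]
      calc ∑ i, ‖x i‖ ^ 2 ≤ ∑ _i : Fin n, (1 / ((n : ℝ) + 1)) ^ 2 := by
            refine Finset.sum_le_sum fun i _ => ?_
            exact pow_le_pow_left₀ (norm_nonneg _) (hy' i).le 2
        _ = n * (1 / ((n : ℝ) + 1)) ^ 2 := by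
            rw [Finset.sum_const, Finset.card_univ, Fintype.card_fin, nsmul_eq_mul]
        _ < 1 := by
            rw [one_div, inv_pow, ← div_eq_mul_inv, div_lt_one (by positivity)]
            nlinarith [(Nat.cast_nonneg n : (0 : ℝ) ≤ n)]
    nlinarith [norm_nonneg x]
  have h2 := h x hx
  simp only [map_zero]
  exact h2

theorem t_zero : S_zero := by
  intro n p _
  constructor
  · intro h
    refine eq_zero_of_ball fun x hx => ?_
    have h1 := zero_of_integral (ev_continuous (p * p)) (fun x _ => by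
      rw [ev_mul]
      exact mul_self_nonneg _) h x hx
    rw [ev_mul] at h1
    exact mul_self_eq_zero.1 h1
  · intro h
    refine eq_zero_of_ball fun x hx => ?_
    have hpos : ∀ x ∈ Metric.ball (0 : E n) 1, 0 < 1 - ‖x‖ ^ 2 := by
      intro x hx
      rw [mem_ball_zero_iff] at hx
      nlinarith [norm_nonneg x]
    have h1 := zero_of_integral (ev_continuous ((1 - rr) * (p * p))) (fun x hx => by
      rw [ev_mul, ev_mul, ev_one_sub_rr]
      exact mul_nonneg (hpos x hx).le (mul_self_nonneg _)) h x hx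
    rw [ev_mul, ev_mul, ev_one_sub_rr] at h1
    rcases mul_eq_zero.1 h1 with h2 | h2
    · exact absurd h2 (hpos x hx).ne'
    · exact mul_self_eq_zero.1 h2

end Pool.Agent.R963.Korn
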