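import Pool.Agent.R963.Korn.KO2

open MvPolynomial MeasureTheory

set_option maxHeartbeats 400000

namespace Pool.Agent.R963.Korn

theorem t_conc : S_conc := by
  intro n p _
  have h := tendsto_integral_of_dominated_convergence
    (μ := volume.restrict (Metric.ball (0 : E n) 1))
    (F := fun (m : ℕ) (x : E n) => ev x (rr ^ m * p)) (f := fun _ => (0 : ℝ))
    (fun x => |ev x p|) (fun m => (ev_continuous _).aestronglyMeasurable)
    (integrableOn_ball (ev_continuous p).abs) ?_ ?_
  · rw [integral_zero] at h
    exact h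
  · intro m
    rw [ae_restrict_iff' measurableSet_ball]
    refine Filter.Eventually.of_forall fun x hx => ?_
    rw [mem_ball_zero_iff] at hx
    rw [ev_mul, ev_pow, ev_rr, Real.norm_eq_abs, abs_mul]
    have h1 : |(‖x‖ ^ 2) ^ m| ≤ 1 := by
      rw [abs_of_nonneg (by positivity)]
      refine pow_le_one₀ (by positivity) ?_
      nlinarith [norm_nonneg x]
    calc |(‖x‖ ^ 2) ^ m| * |ev x p| ≤ 1 * |ev x p| :=
          mul_le_mul_of_nonneg_right h1 (abs_nonneg _)
      _ = |ev x p| := one_mul _
  · rw [ae_restrict_iff' measurableSet_ball]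
    refine Filter.Eventually.of_forall fun x hx => ?_
    rw [mem_ball_zero_iff] at hx
    have h1 : Filter.Tendsto (fun m : ℕ => (‖x‖ ^ 2) ^ m * ev x p) Filter.atTop
        (nhds (0 * ev x p)) := by
      refine Filter.Tendsto.mul_const _ (tendsto_pow_atTop_nhds_zero_of_lt_one ?_ ?_)
      · positivity
      · nlinarith [norm_nonneg x]
    rw [zero_mul] at h1
    refine h1.congr fun m => ?_
    rw [ev_mul, ev_pow, ev_rr]

end Pool.Agent.R963.Korn
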