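import Pool.Agent.R963.Korn.Stm

set_option maxHeartbeats 400000

open MvPolynomial MeasureTheory

namespace Pool.Agent.R963.Korn

lemma continuous_ev {n : ℕ} (p : P n) : Continuous (fun x : E n => ev x p) := by
  unfold ev
  have h1 : Continuous (fun y : Fin n → ℝ => eval y p) := MvPolynomial.continuous_eval p
  exact h1.comp (by fun_prop)

lemma integrableOn_ev {n : ℕ} (p : P n) :
    IntegrableOn (fun x => ev x p) (Metric.ball (0 : E n) 1) :=
  ((continuous_ev p).continuousOn.integrableOn_compact
    (isCompact_closedBall (0 : E n) 1)).mono_set Metric.ball_subset_closedBall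

theorem t_lin : S_lin := by
  intro n p q a b
  have h : ∀ x : E n, ev x (C a * p + C b * q) = a * ev x p + b * ev x q := by
    intro x
    simp [ev]
  unfold Lam
  simp only [h]
  rw [integral_add ((integrableOn_ev p).const_mul a) ((integrableOn_ev q).const_mul b),
    integral_const_mul, integral_const_mul]

theorem t_pos : S_pos := by
  intro n p q h
  unfold Lam
  refine setIntegral_mono_on (integrableOn_ev p) (integrableOn_ev q) measurableSet_ball ?_
  intro x hx
  exact h x (by simpa using hx)

end Pool.Agent.R963.Korn
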