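import Pool.Agent.R963.Korn.Stm

/-!
# KO-12: explicit extremal fields (helper138)
-/

open MvPolynomial MeasureTheory

namespace Pool.Agent.R963.Korn

noncomputable section

set_option autoImplicit false

namespace LowAux

variable {n : ℕ}

theorem pd_comm (i j : Fin n) (p : P n) : pderiv i (pderiv j p) = pderiv j (pderiv i p) := by
  have h : ⁅(pderiv i : Derivation ℝ (P n) (P n)), (pderiv j : Derivation ℝ (P n) (P n))⁆ = 0 := by
    apply MvPolynomial.derivation_ext
    intro k
    rw [Derivation.commutator_apply, pderiv_X, pderiv_X]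
    by_cases h1 : j = k <;> by_cases h2 : i = k <;>
      simp [h1, h2, Ne.symm]
  have h2 := congrArg (fun D : Derivation ℝ (P n) (P n) => D p) h
  simp only [Derivation.commutator_apply, Derivation.zero_apply] at h2
  exact sub_eq_zero.mp h2

/-- `Lam` as a linear map -/
def LamL (hl : S_lin) (n : ℕ) : P n →ₗ[ℝ] ℝ where
  toFun := Lam
  map_add' p q := by
    have := hl n p q 1 1
    simpa using this
  map_smul' a p := by
    have := hl n p 0 a 0
    simpa [MvPolynomial.smul_eq_C_mul] using this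

theorem LamL_apply (hl : S_lin) (p : P n) : LamL hl n p = Lam p := rfl

theorem Eu_add (p q : P n) : Eu (p + q) = Eu p + Eu q := by
  unfold Eu
  simp only [map_add, mul_add, Finset.sum_add_distrib]

theorem Eu_C_mul (a : ℝ) (p : P n) : Eu (C a * p) = C a * Eu p := by
  unfold Eu
  simp only [pderiv_C_mul, Finset.mul_sum]
  exact Finset.sum_congr rfl fun i _ => by ring

theorem Eu_mul (p q : P n) : Eu (p * q) = Eu p * q + p * Eu q := by
  unfold Eu
  simp only [pderiv_mul, mul_add, Finset.sum_add_distrib, Finset.mul_sum, Finset.sum_mul]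
  congr 1
  · exact Finset.sum_congr rfl fun i _ => by ring
  · exact Finset.sum_congr rfl fun i _ => by ring

theorem Eu_X (j : Fin n) : Eu (X j : P n) = X j := by
  unfold Eu
  simp [pderiv_X, Pi.single_apply]

/-- `sig` as a linear map -/
def sigL (hl : S_lin) (n : ℕ) : P n →ₗ[ℝ] ℝ where
  toFun := sig
  map_add' p q := by
    unfold sig
    have e : C (n : ℝ) * (p + q) + Eu (p + q) = (C (n : ℝ) * p + Eu p) + (C (n : ℝ) * q + Eu q) := by
      rw [Eu_add]; ring
    rw [e, ← LamL_apply hl, map_add]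
    rfl
  map_smul' a p := by
    unfold sig
    have e : C (n : ℝ) * (a • p) + Eu (a • p) = a • (C (n : ℝ) * p + Eu p) := by
      rw [MvPolynomial.smul_eq_C_mul, MvPolynomial.smul_eq_C_mul, Eu_C_mul]; ring
    rw [e, ← LamL_apply hl, map_smul]
    rfl

theorem sigL_apply (hl : S_lin) (p : P n) : sigL hl n p = sig p := rfl

/-- the field `w` -/
def ww (K : ℝ) (u : Fin n → P n) (i j : Fin n) : P n :=
  pderiv i (u j) - C (K / 2) * (pderiv i (u j) + pderiv j (u i))

/-- integration by parts -/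
theorem NND (hl : S_lin) (hd : S_div) (K : ℝ) (u v : Fin n → P n) :
    NN u v - K * DD u v = sig (∑ j, (∑ i, X i * ww K u i j) * v j) -
      Lam (∑ j, (∑ i, pderiv i (ww K u i j)) * v j) := by
  have hpt : (∑ i, ∑ j, pderiv i (u j) * pderiv i (v j)) -
      C K * (∑ i, ∑ j, (C (1/2 : ℝ) * (pderiv i (u j) + pderiv j (u i))) *
        (C (1/2 : ℝ) * (pderiv i (v j) + pderiv j (v i)))) =
      ∑ i, ∑ j, ww K u i j * pderiv i (v j) := by
    have hsw : ∑ i, ∑ j, (pderiv i (u j) + pderiv j (u i)) * pderiv j (v i) =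
        ∑ i, ∑ j, (pderiv i (u j) + pderiv j (u i)) * pderiv i (v j) := by
      rw [Finset.sum_comm]
      exact Finset.sum_congr rfl fun i _ => Finset.sum_congr rfl fun j _ => by ring
    have h1 : ∑ i, ∑ j, (C (1/2 : ℝ) * (pderiv i (u j) + pderiv j (u i))) *
        (C (1/2 : ℝ) * (pderiv i (v j) + pderiv j (v i))) =
        C (1/2 : ℝ) * ∑ i, ∑ j, (pderiv i (u j) + pderiv j (u i)) * pderiv i (v j) := by
      have e : ∀ i j, (C (1/2 : ℝ) * (pderiv i (u j) + pderiv j (u i))) *
          (C (1/2 : ℝ) * (pderiv i (v j) + pderiv j (v i))) =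
          C (1/4 : ℝ) * ((pderiv i (u j) + pderiv j (u i)) * pderiv i (v j)) +
          C (1/4 : ℝ) * ((pderiv i (u j) + pderiv j (u i)) * pderiv j (v i)) := by
        intro i j
        have hc : (C (1/4 : ℝ) : P n) = C (1/2) * C (1/2) := by
          rw [← C_mul]; norm_num
        rw [hc]; ring
      simp only [e, Finset.sum_add_distrib, ← Finset.mul_sum]
      rw [hsw]
      have hc : (C (1/2 : ℝ) : P n) = C (1/4) + C (1/4) := by
        rw [← C_add]; norm_num
      rw [hc]; ring
    rw [h1]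
    have hc : (C (K / 2) : P n) = C K * C (1/2) := by
      rw [← C_mul]; congr 1; ring
    simp only [ww, hc, Finset.mul_sum, ← Finset.sum_sub_distrib]
    exact Finset.sum_congr rfl fun i _ => Finset.sum_congr rfl fun j _ => by ring
  have h1 : NN u v - K * DD u v = Lam (∑ i, ∑ j, ww K u i j * pderiv i (v j)) := by
    rw [← hpt]
    unfold NN DD
    rw [← LamL_apply hl, ← LamL_apply hl, ← LamL_apply hl, map_sub, ← MvPolynomial.smul_eq_C_mul,
      map_smul]
    rfl
  rw [h1]
  have h2 : ∑ i, ∑ j, ww K u i j * pderiv i (v j) =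
      (∑ i, ∑ j, pderiv i (ww K u i j * v j)) - ∑ j, (∑ i, pderiv i (ww K u i j)) * v j := by
    rw [Finset.sum_comm (f := fun i j => pderiv i (ww K u i j * v j)), ← Finset.sum_sub_distrib,
      Finset.sum_comm]
    refine Finset.sum_congr rfl fun j _ => ?_
    rw [Finset.sum_mul, ← Finset.sum_sub_distrib]
    refine Finset.sum_congr rfl fun i _ => ?_
    rw [pderiv_mul]; ring
  rw [h2, ← LamL_apply hl, map_sub]
  congr 1
  rw [← sigL_apply hl]
  simp only [map_sum, Finset.sum_mul]
  rw [Finset.sum_comm]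
  refine Finset.sum_congr rfl fun j _ => Finset.sum_congr rfl fun i _ => ?_
  rw [LamL_apply, sigL_apply, hd n i, mul_assoc]

theorem pd_rr (i : Fin n) : pderiv i (rr : P n) = C 2 * X i := by
  unfold rr
  simp only [map_sum, pderiv_mul, pderiv_X]
  rw [Finset.sum_eq_single i]
  · simp only [Pi.single_eq_same, one_mul, mul_one]
    rw [map_ofNat]
    ring
  · intro k _ hk
    simp [Pi.single_apply, hk]
  · intro h
    exact absurd (Finset.mem_univ _) h

theorem Eu_rr : Eu (rr : P n) = C 2 * rr := by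
  unfold Eu
  simp only [pd_rr]
  unfold rr
  rw [Finset.mul_sum]
  exact Finset.sum_congr rfl fun i _ => by ring

theorem Lap_add (p q : P n) : Lap (p + q) = Lap p + Lap q := by
  unfold Lap
  simp only [map_add, Finset.sum_add_distrib]

theorem Lap_C_mul (a : ℝ) (p : P n) : Lap (C a * p) = C a * Lap p := by
  unfold Lap
  simp only [pderiv_C_mul, Finset.mul_sum]

theorem Lap_mul (p q : P n) :
    Lap (p * q) = Lap p * q + C 2 * (∑ i, pderiv i p * pderiv i q) + p * Lap q := by
  unfold Lap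
  simp only [pderiv_mul, map_add, Finset.mul_sum, Finset.sum_mul, ← Finset.sum_add_distrib]
  refine Finset.sum_congr rfl fun i _ => ?_
  rw [map_ofNat]
  ring

theorem Lap_rr : Lap (rr : P n) = C (2 * (n : ℝ)) := by
  unfold Lap
  simp only [pd_rr, pderiv_C_mul, pderiv_X_self, mul_one, Finset.sum_const, Finset.card_univ,
    Fintype.card_fin, nsmul_eq_mul, C_mul]
  rw [map_natCast]
  ring

theorem Lap_X (j : Fin n) : Lap (X j : P n) = 0 := by
  unfold Lap
  refine Finset.sum_eq_zero fun i _ => ?_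
  rw [pderiv_X]
  by_cases h : j = i <;> simp [Pi.single_apply, h]

theorem Lap_rr_mul (q : P n) :
    Lap (rr * q) = C (2 * (n : ℝ)) * q + C 4 * Eu q + rr * Lap q := by
  rw [Lap_mul, Lap_rr]
  have : ∑ i, pderiv i (rr : P n) * pderiv i q = C 2 * Eu q := by
    unfold Eu
    rw [Finset.mul_sum]
    refine Finset.sum_congr rfl fun i _ => ?_
    rw [pd_rr]; ring
  rw [this]
  have hc : (C 4 : P n) = C 2 * C 2 := by
    rw [← C_mul]; norm_num
  rw [hc]; ring

theorem Lap_X_mul (j : Fin n) (q : P n) : Lap (X j * q) = C 2 * pderiv j q + X j * Lap q := by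
  rw [Lap_mul, Lap_X, zero_mul, zero_add]
  have : ∑ i, pderiv i (X j : P n) * pderiv i q = pderiv j q := by
    rw [Finset.sum_eq_single j]
    · rw [pderiv_X_self, one_mul]
    · intro i _ hi
      rw [pderiv_X_of_ne (Ne.symm hi), zero_mul]
    · intro h
      exact absurd (Finset.mem_univ _) h
  rw [this]

section

variable {h : P n} {l : ℕ}

theorem Eu_h (hh : h.IsHomogeneous l) : Eu h = C (l : ℝ) * h := by
  unfold Eu
  rw [hh.sum_X_mul_pderiv, nsmul_eq_mul, map_natCast]

theorem Eu_hj (hh : h.IsHomogeneous l) (hl : 1 ≤ l) (j : Fin n) :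
    Eu (pderiv j h) = C ((l : ℝ) - 1) * pderiv j h := by
  rw [Eu_h hh.pderiv, Nat.cast_sub hl, Nat.cast_one]

theorem Lap_hj (hL : Lap h = 0) (j : Fin n) : Lap (pderiv j h) = 0 := by
  have : Lap (pderiv j h) = pderiv j (Lap h) := by
    unfold Lap
    rw [map_sum]
    refine Finset.sum_congr rfl fun i _ => ?_
    rw [pd_comm i j h, pd_comm i j]
  rw [this, hL, map_zero]

/-- the field -/
def uu (α μ γ : ℝ) (h : P n) (j : Fin n) : P n :=
  C α * pderiv j h + C μ * (rr * pderiv j h) + C γ * (X j * h)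

theorem dv_uu (hh : h.IsHomogeneous l) (hL : Lap h = 0) (α μ γ : ℝ) :
    dv (uu α μ γ h) = C (2 * μ * l + γ * (n + l)) * h := by
  have hE := Eu_h hh
  have e : ∀ i, pderiv i (uu α μ γ h i) =
      C α * pderiv i (pderiv i h) + C μ * (C 2 * (X i * pderiv i h) + rr * pderiv i (pderiv i h)) +
        C γ * (h + X i * pderiv i h) := by
    intro i
    unfold uu
    simp only [map_add, pderiv_mul, pderiv_C, zero_mul, zero_add, pd_rr, pderiv_X_self]
    ring
  unfold dv
  simp only [e, Finset.sum_add_distrib, ← Finset.mul_sum]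
  have h1 : ∑ i, pderiv i (pderiv i h) = 0 := hL
  have h2 : ∑ i, X i * pderiv i h = C (l : ℝ) * h := hE
  rw [h1, h2]
  simp only [Finset.sum_const, Finset.card_univ, Fintype.card_fin, nsmul_eq_mul, C_add, C_mul,
    map_natCast]
  ring

theorem Lap_uu (hh : h.IsHomogeneous l) (hl : 1 ≤ l) (hL : Lap h = 0) (α μ γ : ℝ) (j : Fin n) :
    Lap (uu α μ γ h j) = C (μ * (2 * n + 4 * (l - 1)) + 2 * γ) * pderiv j h := by
  unfold uu
  rw [Lap_add, Lap_add, Lap_C_mul, Lap_C_mul, Lap_C_mul, Lap_rr_mul, Lap_X_mul, Lap_hj hL j, hL,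
    Eu_hj hh hl j]
  simp only [C_add, C_mul]
  ring

theorem xd_uu (hh : h.IsHomogeneous l) (α μ γ : ℝ) :
    xd (uu α μ γ h) = C (α * l) * h + C (μ * l + γ) * (rr * h) := by
  have e : ∀ i, X i * uu α μ γ h i = (C α + C μ * rr) * (X i * pderiv i h) +
      C γ * h * (X i * X i) := by
    intro i
    unfold uu
    ring
  unfold xd
  simp only [e, Finset.sum_add_distrib, ← Finset.mul_sum]
  have h2 : ∑ i, X i * pderiv i h = C (l : ℝ) * h := Eu_h hh
  have h3 : ∑ i, X i * X i = (rr : P n) := rfl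
  rw [h2, h3]
  simp only [C_add, C_mul]
  ring

theorem Eu_uu (hh : h.IsHomogeneous l) (hl : 1 ≤ l) (α μ γ : ℝ) (j : Fin n) :
    Eu (uu α μ γ h j) = C (α * (l - 1)) * pderiv j h + C (μ * (l + 1)) * (rr * pderiv j h) +
      C (γ * (l + 1)) * (X j * h) := by
  unfold uu
  rw [Eu_add, Eu_add, Eu_C_mul, Eu_C_mul, Eu_C_mul, Eu_mul, Eu_mul, Eu_rr, Eu_X, Eu_h hh,
    Eu_hj hh hl j]
  simp only [C_add, C_mul, C_sub, C_1]
  rw [map_ofNat]
  ring

theorem pd_xd_uu (hh : h.IsHomogeneous l) (α μ γ : ℝ) (j : Fin n) :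
    pderiv j (xd (uu α μ γ h)) = C (α * l) * pderiv j h +
      C (μ * l + γ) * (rr * pderiv j h) + C (2 * (μ * l + γ)) * (X j * h) := by
  rw [xd_uu hh, map_add, pderiv_C_mul, pderiv_C_mul, pderiv_mul, pd_rr]
  simp only [C_add, C_mul]
  ring

theorem side_uu (hl : S_lin) (hd : S_div) (α μ γ : ℝ) : Side (uu α μ γ h) := by
  intro i j
  have e : pderiv i (uu α μ γ h j) - pderiv j (uu α μ γ h i) =
      C (2 * μ - γ) * (pderiv j (X i * h) - pderiv i (X j * h)) := by
    unfold uu
    simp only [map_add, pderiv_mul, pderiv_C, zero_mul, zero_add, pd_rr, pd_comm i j h, C_sub,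
      C_mul]
    have hx : pderiv i (X j : P n) = pderiv j (X i : P n) := by
      rw [pderiv_X, pderiv_X]
      by_cases hij : i = j
      · rw [hij]
      · simp [Pi.single_apply, hij, Ne.symm hij]
    rw [hx]
    ring
  rw [e, ← LamL_apply hl, ← MvPolynomial.smul_eq_C_mul, map_smul, map_sub, LamL_apply, LamL_apply,
    hd n j, hd n i]
  have : X j * (X i * h) = X i * (X j * h) := by ring
  rw [this, sub_self, smul_zero]

end

theorem sum_W (K : ℝ) (u : Fin n → P n) (j : Fin n) :
    ∑ i, pderiv i (ww K u i j) = C (1 - K / 2) * Lap (u j) - C (K / 2) * pderiv j (dv u) := by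
  have e : ∀ i, pderiv i (ww K u i j) = C (1 - K / 2) * pderiv i (pderiv i (u j)) -
      C (K / 2) * pderiv j (pderiv i (u i)) := by
    intro i
    unfold ww
    simp only [map_sub, map_add, pderiv_C_mul, pd_comm i j (u i), C_1]
    ring
  simp only [e, Finset.sum_sub_distrib, ← Finset.mul_sum, ← map_sum]
  rfl

theorem sum_y (K : ℝ) (u : Fin n → P n) (j : Fin n) :
    ∑ i, X i * ww K u i j = C (1 - K / 2) * Eu (u j) - C (K / 2) * (pderiv j (xd u) - u j) := by
  have hx : pderiv j (xd u) = u j + ∑ i, X i * pderiv j (u i) := by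
    unfold xd
    simp only [map_sum, pderiv_mul, Finset.sum_add_distrib]
    congr 1
    rw [Finset.sum_eq_single j]
    · rw [pderiv_X_self, one_mul]
    · intro i _ hi
      rw [pderiv_X_of_ne hi, zero_mul]
    · intro h
      exact absurd (Finset.mem_univ _) h
  have e : ∀ i, X i * ww K u i j = C (1 - K / 2) * (X i * pderiv i (u j)) -
      C (K / 2) * (X i * pderiv j (u i)) := by
    intro i
    unfold ww
    simp only [map_sub, C_1]
    ring
  simp only [e, Finset.sum_sub_distrib, ← Finset.mul_sum]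
  rw [hx]
  unfold Eu
  ring

theorem DD_nonneg (hl : S_lin) (hp : S_pos) (hz : S_zero) (hn : 1 ≤ n) (u : Fin n → P n) :
    0 ≤ DD u u ∧ (DD u u = 0 → ∀ i, pderiv i (u i) = 0) := by
  have hsq : ∀ p : P n, 0 ≤ Lam (p * p) := by
    intro p
    have h1 := hp n 0 (p * p) (by
      intro x _
      unfold ev
      rw [map_zero, map_mul]
      exact mul_self_nonneg _)
    have h2 : Lam (0 : P n) = 0 := by
      rw [← LamL_apply hl, map_zero]
    rwa [h2] at h1
  have h1 : DD u u = ∑ i, ∑ j, Lam ((C (1/2 : ℝ) * (pderiv i (u j) + pderiv j (u i))) *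
      (C (1/2 : ℝ) * (pderiv i (u j) + pderiv j (u i)))) := by
    unfold DD
    rw [← LamL_apply hl]
    simp only [map_sum]
    rfl
  rw [h1]
  have h2 : ∀ i, 0 ≤ ∑ j, Lam ((C (1/2 : ℝ) * (pderiv i (u j) + pderiv j (u i))) *
      (C (1/2 : ℝ) * (pderiv i (u j) + pderiv j (u i)))) := fun i =>
    Finset.sum_nonneg fun j _ => hsq _
  refine ⟨Finset.sum_nonneg fun i _ => h2 i, fun h0 i => ?_⟩
  have h3 := (Finset.sum_eq_zero_iff_of_nonneg fun i _ => h2 i).1 h0 i (Finset.mem_univ _)
  have h4 := (Finset.sum_eq_zero_iff_of_nonneg fun j _ => hsq _).1 h3 i (Finset.mem_univ _)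
  have h5 := (hz n _ hn).1 h4
  have h6 : C (1/2 : ℝ) * (pderiv i (u i) + pderiv i (u i)) = pderiv i (u i) := by
    have hc : (C (1/2 : ℝ) : P n) + C (1/2) = 1 := by
      rw [← C_add, ← C_1]; congr 1; norm_num
    calc C (1/2 : ℝ) * (pderiv i (u i) + pderiv i (u i)) =
        ((C (1/2 : ℝ) : P n) + C (1/2)) * pderiv i (u i) := by ring
      _ = _ := by rw [hc, one_mul]
  rwa [h6] at h5

end LowAux

open LowAux in
theorem t_lower (hl : S_lin) (hp : S_pos) (hz : S_zero) (hd : S_div) (hs : S_sig) (hh : S_harm) :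
    S_lower := by
  intro n l hn hl1
  obtain ⟨h, hne, hhom, hL⟩ := hh n l hn
  have hn' : (2 : ℝ) ≤ n := by exact_mod_cast hn
  have hl' : (1 : ℝ) ≤ l := by exact_mod_cast hl1
  set L : ℝ := (l : ℝ) with hLdef
  set m : ℝ := (n : ℝ) with hm
  have hden : 0 < L ^ 2 + L + m - 2 := by nlinarith
  have hLn : 0 < L * (L + m - 1) := by
    apply mul_pos (by linarith)
    linarith
  set θ : ℝ := -((L + 1) * (m + 2 * L - 2)) / (L * (L + m - 1)) with hθ
  have hθ1 : θ * (L * (L + m - 1)) = -((L + 1) * (m + 2 * L - 2)) := by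
    rw [hθ]
    exact div_mul_cancel₀ _ hLn.ne'
  have hθneg : θ < 0 := by
    rw [hθ]
    apply div_neg_of_neg_of_pos _ hLn
    have : 0 < (L + 1) * (m + 2 * L - 2) := by
      apply mul_pos (by linarith)
      linarith
    linarith
  set K : ℝ := Kl n l with hK
  have hK1 : K * (L ^ 2 + L + m - 2) = 2 * (L + 1) * (2 * L + m - 2) := by
    rw [hK]
    unfold Kl
    exact div_mul_cancel₀ _ hden.ne'
  have hκ : K / 2 = θ * (1 - K / 2) := by
    have h1 : (1 - K / 2) * (L ^ 2 + L + m - 2) = -(L * (L + m - 1)) := by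
      linear_combination (-1/2) * hK1
    have h2 : (K / 2 - θ * (1 - K / 2)) * (L ^ 2 + L + m - 2) = 0 := by
      linear_combination (1/2) * hK1 - θ * h1 + hθ1
    rcases mul_eq_zero.mp h2 with h3 | h3
    · linarith
    · exact absurd h3 hden.ne'
  set γ : ℝ := 2 * θ * L with hγ
  set μ : ℝ := L + 1 - θ with hμ
  set c : ℝ := μ * (L + 1 + θ - θ * L) - θ * γ with hc
  obtain ⟨α, hα⟩ : ∃ α : ℝ, α * (L - 1) * (1 - θ) = -c := by
    rcases Nat.lt_or_ge 1 l with h2 | h2
    · have h3 : (2 : ℝ) ≤ L := by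
        rw [hLdef]
        exact_mod_cast h2
      refine ⟨-c / ((L - 1) * (1 - θ)), ?_⟩
      have h4 : L - 1 ≠ 0 := by linarith
      have h5 : 1 - θ ≠ 0 := by linarith
      field_simp
    · have h3 : l = 1 := by omega
      have h4 : L = 1 := by rw [hLdef, h3]; norm_num
      refine ⟨0, ?_⟩
      have h5 : θ = -2 := by
        have h6 := hθ1
        rw [h4] at h6
        have h7 : (θ + 2) * m = 0 := by linear_combination h6
        rcases mul_eq_zero.mp h7 with h8 | h8
        · linarith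
        · linarith
      rw [hc, hμ, hγ, h5, h4]
      norm_num
  have hA0 : 2 * μ * L + γ * (m + L) = 2 * (L + 1) * (2 - m - L) := by
    rw [hμ, hγ]
    linear_combination 2 * hθ1
  have hB0 : μ * (2 * m + 4 * (L - 1)) + 2 * γ = θ * (2 * μ * L + γ * (m + L)) := by
    rw [hA0, hμ, hγ]
    linear_combination 2 * hθ1
  have hAne : 2 * μ * L + γ * (m + L) ≠ 0 := by
    rw [hA0]
    apply mul_ne_zero
    · linarith
    · linarith
  refine ⟨uu α μ γ h, side_uu hl hd α μ γ, ?_, ?_⟩
  · obtain ⟨h1, h2⟩ := DD_nonneg hl hp hz (by omega) (uu α μ γ h)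
    rcases h1.lt_or_eq with h3 | h3
    · exact h3
    · exfalso
      have h4 := h2 h3.symm
      have h5 : dv (uu α μ γ h) = 0 := Finset.sum_eq_zero fun i _ => h4 i
      rw [dv_uu hhom hL] at h5
      rcases mul_eq_zero.mp h5 with h6 | h6
      · rw [C_eq_zero] at h6
        exact hAne h6
      · exact hne h6
  · have hmain := NND hl hd K (uu α μ γ h) (uu α μ γ h)
    have hW : ∀ j, ∑ i, pderiv i (ww K (uu α μ γ h) i j) = 0 := by
      intro j
      rw [sum_W, dv_uu hhom hL, Lap_uu hhom hl1 hL, pderiv_C_mul]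
      have e : ∀ a b c' d' : ℝ, C a * (C b * pderiv j h) - C c' * (C d' * pderiv j h) =
          C (a * b - c' * d') * pderiv j h := by
        intro a b c' d'
        rw [C_sub, C_mul, C_mul]
        ring
      rw [e]
      have h9 : (1 - K / 2) * (μ * (2 * m + 4 * (L - 1)) + 2 * γ) -
          K / 2 * (2 * μ * L + γ * (m + L)) = 0 := by
        linear_combination (1 - K / 2) * hB0 - (2 * μ * L + γ * (m + L)) * hκ
      rw [h9, C_0, zero_mul]
    have hy : ∀ j, ∑ i, X i * ww K (uu α μ γ h) i j =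
        (1 - rr) * (C (-((1 - K / 2) * c)) * pderiv j h) := by
      intro j
      rw [sum_y, Eu_uu hhom hl1, pd_xd_uu hhom]
      unfold uu
      have e : ∀ k a b c' a' b' c'' a₀ b₀ c₀ : ℝ, C (1 - k) * (C a * pderiv j h +
          C b * (rr * pderiv j h) + C c' * (X j * h)) - C k * ((C a' * pderiv j h +
          C b' * (rr * pderiv j h) + C c'' * (X j * h)) - (C a₀ * pderiv j h +
          C b₀ * (rr * pderiv j h) + C c₀ * (X j * h))) =
          C ((1 - k) * a - k * (a' - a₀)) * pderiv j h +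
          C ((1 - k) * b - k * (b' - b₀)) * (rr * pderiv j h) +
          C ((1 - k) * c' - k * (c'' - c₀)) * (X j * h) := by
        intro k a b c' a' b' c'' a₀ b₀ c₀
        simp only [C_sub, C_mul]
        ring
      rw [e]
      have a1 : (1 - K / 2) * (α * (L - 1)) - K / 2 * (α * L - α) = -((1 - K / 2) * c) := by
        linear_combination (1 - K / 2) * hα - α * (L - 1) * hκ
      have a2 : (1 - K / 2) * (μ * (L + 1)) - K / 2 * (μ * L + γ - μ) = (1 - K / 2) * c := by
        linear_combination -(μ * L + γ - μ) * hκ - (1 - K / 2) * hc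
      have a3 : (1 - K / 2) * (γ * (L + 1)) - K / 2 * (2 * (μ * L + γ) - γ) = 0 := by
        linear_combination -(2 * μ * L + γ) * hκ + (1 - K / 2) * ((L + 1 - θ) * hγ - 2 * θ * L * hμ)
      rw [a1, a2, a3, C_0, C_neg]
      ring
    rw [show ∑ j, (∑ i, pderiv i (ww K (uu α μ γ h) i j)) * uu α μ γ h j = 0 from
      Finset.sum_eq_zero fun j _ => by rw [hW j, zero_mul]] at hmain
    have hsg : sig (∑ j, (∑ i, X i * ww K (uu α μ γ h) i j) * uu α μ γ h j) = 0 := by
      rw [← sigL_apply hl, map_sum]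
      refine Finset.sum_eq_zero fun j _ => ?_
      rw [hy j, mul_assoc, sigL_apply]
      exact (hs n _ (by omega)).1
    have h0 : Lam (0 : P n) = 0 := by rw [← LamL_apply hl, map_zero]
    rw [hsg, h0, sub_zero] at hmain
    linarith

end

end Pool.Agent.R963.Korn
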