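import Pool.Agent.R963.Korn.Stm

open MvPolynomial MeasureTheory

namespace Pool.Agent.R963.Korn

noncomputable section

set_option maxHeartbeats 400000

lemma kl_den_pos {n m : ℕ} (hn : 2 ≤ n) (hm : 1 ≤ m) : 0 < ((m : ℝ) ^ 2 + m + n - 2) := by
  have h1 : (2 : ℝ) ≤ n := by exact_mod_cast hn
  have h2 : (1 : ℝ) ≤ m := by exact_mod_cast hm
  nlinarith

lemma kl_step_up {n m : ℕ} (hn : 2 ≤ n) (hm : 1 ≤ m) (h : m * (m - 1) ≤ n) :
    Kl n m ≤ Kl n (m + 1) := by
  have hd1 := kl_den_pos hn hm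
  have hd2 := kl_den_pos (m := m + 1) hn (by omega)
  have h1 : (2 : ℝ) ≤ n := by exact_mod_cast hn
  have h3 : (m : ℝ) * (m - 1) ≤ n := by
    have : ((m * (m - 1) : ℕ) : ℝ) ≤ n := by exact_mod_cast h
    rwa [Nat.cast_mul, Nat.cast_sub hm, Nat.cast_one] at this
  unfold Kl
  rw [div_le_div_iff₀ hd1 hd2]
  push_cast
  have key : 2 * ((m : ℝ) + 1 + 1) * (2 * ((m : ℝ) + 1) + n - 2) * ((m : ℝ) ^ 2 + m + n - 2)
    - 2 * ((m : ℝ) + 1) * (2 * (m : ℝ) + n - 2) * (((m : ℝ) + 1) ^ 2 + (m + 1) + n - 2)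
    = 2 * ((n - 2) * (n - m * (m - 1))) := by ring
  have : 0 ≤ ((n : ℝ) - 2) * (n - m * (m - 1)) := mul_nonneg (by linarith) (by linarith)
  linarith

lemma kl_step_down {n m : ℕ} (hn : 2 ≤ n) (hm : 1 ≤ m) (h : n ≤ m * (m - 1)) :
    Kl n (m + 1) ≤ Kl n m := by
  have hd1 := kl_den_pos hn hm
  have hd2 := kl_den_pos (m := m + 1) hn (by omega)
  have h1 : (2 : ℝ) ≤ n := by exact_mod_cast hn
  have h3 : (n : ℝ) ≤ (m : ℝ) * (m - 1) := by
    have : (n : ℝ) ≤ ((m * (m - 1) : ℕ) : ℝ) := by exact_mod_cast h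
    rwa [Nat.cast_mul, Nat.cast_sub hm, Nat.cast_one] at this
  unfold Kl
  rw [div_le_div_iff₀ hd2 hd1]
  push_cast
  have key : 2 * ((m : ℝ) + 1 + 1) * (2 * ((m : ℝ) + 1) + n - 2) * ((m : ℝ) ^ 2 + m + n - 2)
    - 2 * ((m : ℝ) + 1) * (2 * (m : ℝ) + n - 2) * (((m : ℝ) + 1) ^ 2 + (m + 1) + n - 2)
    = 2 * ((n - 2) * (n - m * (m - 1))) := by ring
  have : ((n : ℝ) - 2) * (n - m * (m - 1)) ≤ 0 := mul_nonpos_of_nonneg_of_nonpos (by linarith) (by linarith)
  linarith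

lemma kl_one {n : ℕ} (hn : 2 ≤ n) : Kl n 1 = 4 := by
  have h1 : (2 : ℝ) ≤ n := by exact_mod_cast hn
  unfold Kl
  have : ((1 : ℕ) : ℝ) ^ 2 + ((1 : ℕ) : ℝ) + n - 2 = n := by push_cast; ring
  rw [this]
  have hn0 : (n : ℝ) ≠ 0 := by positivity
  field_simp
  push_cast
  ring

theorem t_opt : S_opt := by
  intro n l hn hl hmin
  have hl2 : 2 ≤ l := by
    by_contra hcon
    have : l = 0 ∨ l = 1 := by omega
    rcases this with rfl | rfl
    · simp at hl; omega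
    · simp at hl; omega
  -- monotone up to l
  have hup : ∀ k m : ℕ, 1 ≤ m → m + k = l → Kl n m ≤ Kl n l := by
    intro k
    induction k with
    | zero => intro m _ hm; simp at hm; subst hm; exact le_rfl
    | succ k ih =>
      intro m h1 hm
      refine le_trans (kl_step_up hn h1 ?_) (ih (m + 1) (by omega) (by omega))
      by_contra hcon
      have := hmin m (by omega)
      omega
  have hdown : ∀ k : ℕ, Kl n (l + k) ≤ Kl n l := by
    intro k
    induction k with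
    | zero => exact le_rfl
    | succ k ih =>
      refine le_trans (kl_step_down (m := l + k) hn (by omega) ?_) ih
      calc n ≤ l * (l - 1) := hl
        _ ≤ (l + k) * (l + k - 1) := Nat.mul_le_mul (by omega) (by omega)
  have hall : ∀ m : ℕ, 1 ≤ m → Kl n m ≤ Kl n l := by
    intro m hm
    rcases le_total m l with h | h
    · exact hup (l - m) m hm (by omega)
    · obtain ⟨k, rfl⟩ := Nat.exists_eq_add_of_le h
      exact hdown k
  exact ⟨hall, (kl_one hn) ▸ hall 1 le_rfl⟩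

end

end Pool.Agent.R963.Korn
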