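import Pool.Agent.R963.Korn.Stm

open MvPolynomial MeasureTheory

namespace Pool.Agent.R963.Korn

noncomputable section

set_option maxHeartbeats 400000

namespace PolyX

variable {n : ℕ}

theorem coord_cd (i : Fin n) : ContDiff ℝ ⊤ (fun x : E n => x i) :=
  (EuclideanSpace.proj i : E n →L[ℝ] ℝ).contDiff

theorem ev_cd (p : P n) : ContDiff ℝ ⊤ (fun x : E n => ev x p) := by
  unfold ev
  induction p using MvPolynomial.induction_on with
  | C a => simp only [eval_C]; exact contDiff_const
  | add p q hp hq => simp only [map_add]; exact hp.add hq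
  | mul_X p i hp => simp only [map_mul, eval_X]; exact hp.mul (coord_cd i)

theorem ev_fd (p : P n) (x : E n) :
    HasFDerivAt (fun x : E n => ev x p)
      (∑ i, ev x (pderiv i p) • (EuclideanSpace.proj i : E n →L[ℝ] ℝ)) x := by
  induction p using MvPolynomial.induction_on with
  | C a =>
    have h : (∑ i, ev x (pderiv i (C a : P n)) • (EuclideanSpace.proj i : E n →L[ℝ] ℝ)) = 0 := by
      refine Finset.sum_eq_zero fun i _ => ?_
      rw [pderiv_C]
      simp [ev]
    rw [h]
    have h2 : (fun x : E n => ev x (C a : P n)) = fun _ => a := by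
      funext x; simp [ev]
    rw [h2]
    exact hasFDerivAt_const a x
  | add p q hp hq =>
    have h := hp.add hq
    have h2 : (fun x : E n => ev x (p + q)) = fun x => ev x p + ev x q := by
      funext x; simp [ev]
    rw [h2]
    have h3 : (∑ i, ev x (pderiv i (p + q)) • (EuclideanSpace.proj i : E n →L[ℝ] ℝ)) =
        (∑ i, ev x (pderiv i p) • (EuclideanSpace.proj i : E n →L[ℝ] ℝ)) +
        (∑ i, ev x (pderiv i q) • (EuclideanSpace.proj i : E n →L[ℝ] ℝ)) := by
      rw [← Finset.sum_add_distrib]
      refine Finset.sum_congr rfl fun i _ => ?_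
      rw [← add_smul]
      simp [ev]
    rw [h3]
    exact h
  | mul_X p k hp =>
    have hk : HasFDerivAt (fun x : E n => x k) (EuclideanSpace.proj k : E n →L[ℝ] ℝ) x :=
      (EuclideanSpace.proj k : E n →L[ℝ] ℝ).hasFDerivAt
    have h := hp.mul hk
    have h2 : (fun x : E n => ev x (p * X k)) = fun x => ev x p * x k := by
      funext x; simp [ev]
    rw [h2]
    have h3 : (∑ i, ev x (pderiv i (p * X k)) • (EuclideanSpace.proj i : E n →L[ℝ] ℝ)) =
        ev x p • (EuclideanSpace.proj k : E n →L[ℝ] ℝ) +
        x k • (∑ i, ev x (pderiv i p) • (EuclideanSpace.proj i : E n →L[ℝ] ℝ)) := by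
      have h4 : ∀ i, ev x (pderiv i (p * X k)) = x k * ev x (pderiv i p) +
          (if i = k then ev x p else 0) := by
        intro i
        rw [pderiv_mul]
        by_cases hik : i = k
        · subst hik
          rw [pderiv_X_self]
          simp [ev]; ring
        · rw [pderiv_X_of_ne (Ne.symm hik)]
          simp [ev, hik]; ring
      simp only [h4, add_smul, Finset.sum_add_distrib, Finset.smul_sum, smul_smul, ite_smul,
        zero_smul, Finset.sum_ite_eq', Finset.mem_univ, if_true]
      rw [add_comm]
    rw [h3]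
    exact h

theorem ev_dir (p : P n) (x : E n) (i : Fin n) :
    fderiv ℝ (fun x : E n => ev x p) x (EuclideanSpace.single i 1) = ev x (pderiv i p) := by
  rw [(ev_fd p x).fderiv]
  rw [ContinuousLinearMap.sum_apply]
  rw [Finset.sum_eq_single i]
  · simp
  · intro j _ hj
    simp [hj]
  · simp

end PolyX

open PolyX in
theorem t_poly : S_poly := by
  intro n u
  set U : E n → E n := fun x => WithLp.toLp 2 (fun j => ev x (u j)) with hU
  have hUj : ∀ x j, U x j = ev x (u j) := fun x j => rfl
  have hcd : ContDiff ℝ ⊤ U := by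
    rw [contDiff_euclidean]
    intro j
    exact ev_cd (u j)
  have hG : ∀ x i j, G U x i j = ev x (pderiv i (u j)) := by
    intro x i j
    unfold G
    have hd : DifferentiableAt ℝ U x := (hcd.differentiable (by simp)) x
    have h1 : HasFDerivAt (fun x => U x j)
        ((EuclideanSpace.proj j : E n →L[ℝ] ℝ).comp (fderiv ℝ U x)) x :=
      (EuclideanSpace.proj j : E n →L[ℝ] ℝ).hasFDerivAt.comp x hd.hasFDerivAt
    have h2 : (fderiv ℝ U x (EuclideanSpace.single i 1)) j =
        fderiv ℝ (fun x => U x j) x (EuclideanSpace.single i 1) := by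
      rw [h1.fderiv]; rfl
    rw [h2]
    exact ev_dir (u j) x i
  refine ⟨U, hcd, hG, ?_, ?_, ?_⟩
  · unfold Nint NN Lam
    simp only [hG]
    congr 1
    funext x
    simp only [ev, map_sum, map_mul]
    refine Finset.sum_congr rfl fun i _ => Finset.sum_congr rfl fun j _ => ?_
    ring
  · unfold Dint DD Lam
    simp only [hG]
    congr 1
    funext x
    simp only [ev, map_sum, map_mul, map_add, eval_C]
    refine Finset.sum_congr rfl fun i _ => Finset.sum_congr rfl fun j _ => ?_
    ring
  · intro hS i j
    have h := hS i j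
    unfold Lam at h
    rw [← h]
    simp only [hG]
    congr 1
    funext x
    simp only [ev, map_sub]

end

end Pool.Agent.R963.Korn
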