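import Pool.Agent.R963.Korn.Stm

open MvPolynomial MeasureTheory

set_option maxHeartbeats 400000

namespace Pool.Agent.R963.Korn

noncomputable section

namespace Rigid

variable {n : ℕ}

theorem pd_comm (i j : Fin n) (p : P n) : pderiv i (pderiv j p) = pderiv j (pderiv i p) := by
  have h : ⁅(pderiv i : Derivation ℝ (P n) (P n)), (pderiv j : Derivation ℝ (P n) (P n))⁆ = 0 := by
    apply MvPolynomial.derivation_ext
    intro k
    rw [Derivation.commutator_apply, pderiv_X, pderiv_X]
    have h1 : ∀ a b : Fin n, (pderiv a) ((Pi.single b (1 : P n) : Fin n → P n) k) = (0 : P n) := by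
      intro a b
      by_cases hb : k = b
      · subst hb
        rw [Pi.single_eq_same]
        exact Derivation.map_one_eq_zero _
      · rw [Pi.single_eq_of_ne hb, map_zero]
    rw [h1, h1, sub_zero]
    rfl
  have h1 := congrArg (fun D : Derivation ℝ (P n) (P n) => D p) h
  simp only [Derivation.commutator_apply] at h1
  exact sub_eq_zero.1 h1

theorem pd_C (i : Fin n) (a : ℝ) (p : P n) : pderiv i (C a * p) = C a * pderiv i p := by
  rw [pderiv_C_mul]

theorem pd_two (i : Fin n) (p : P n) : pderiv i (2 * p) = 2 * pderiv i p := by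
  have h : (2 : P n) = C 2 := by rw [map_ofNat]
  rw [h, pd_C]

theorem pd_X (i j : Fin n) (p : P n) :
    pderiv i (X j * p) = (if j = i then p else 0) + X j * pderiv i p := by
  rw [Derivation.leibniz, smul_eq_mul, smul_eq_mul, pderiv_X]
  split_ifs with h
  · rw [h, Pi.single_eq_same]
    ring
  · rw [Pi.single_eq_of_ne h]
    ring

theorem Eu_add (p q : P n) : Eu (p + q) = Eu p + Eu q := by
  unfold Eu
  rw [← Finset.sum_add_distrib]
  exact Finset.sum_congr rfl fun i _ => by rw [map_add, mul_add]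

theorem Eu_C (a : ℝ) (p : P n) : Eu (C a * p) = C a * Eu p := by
  unfold Eu
  rw [Finset.mul_sum]
  exact Finset.sum_congr rfl fun i _ => by rw [pd_C]; ring

theorem Eu_zero : Eu (0 : P n) = 0 := by
  unfold Eu
  exact Finset.sum_eq_zero fun i _ => by rw [map_zero, mul_zero]

theorem Eu_sum {ι : Type} (s : Finset ι) (f : ι → P n) : Eu (∑ k ∈ s, f k) = ∑ k ∈ s, Eu (f k) := by
  classical
  induction s using Finset.induction_on with
  | empty => simp [Eu_zero]
  | insert a s ha ih => rw [Finset.sum_insert ha, Finset.sum_insert ha, Eu_add, ih]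

theorem Eu_X (j : Fin n) (p : P n) : Eu (X j * p) = X j * p + X j * Eu p := by
  unfold Eu
  have h : ∀ i : Fin n, (X i * pderiv i (X j * p) : P n) =
      (if j = i then X i * p else 0) + X j * (X i * pderiv i p) := by
    intro i
    rw [pd_X]
    split_ifs with h <;> ring
  rw [Finset.sum_congr rfl fun i _ => h i, Finset.sum_add_distrib, Finset.sum_ite_eq,
    if_pos (Finset.mem_univ _), ← Finset.mul_sum]

theorem Lap_add (p q : P n) : Lap (p + q) = Lap p + Lap q := by
  unfold Lap
  rw [← Finset.sum_add_distrib]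
  exact Finset.sum_congr rfl fun i _ => by rw [map_add, map_add]

theorem Lap_sub (p q : P n) : Lap (p - q) = Lap p - Lap q := by
  unfold Lap
  rw [← Finset.sum_sub_distrib]
  exact Finset.sum_congr rfl fun i _ => by rw [map_sub, map_sub]

theorem Lap_C (a : ℝ) (p : P n) : Lap (C a * p) = C a * Lap p := by
  unfold Lap
  rw [Finset.mul_sum]
  exact Finset.sum_congr rfl fun i _ => by rw [pd_C, pd_C]

theorem Lap_zero : Lap (0 : P n) = 0 := by
  unfold Lap
  exact Finset.sum_eq_zero fun i _ => by rw [map_zero, map_zero]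

theorem Lap_sum {ι : Type} (s : Finset ι) (f : ι → P n) :
    Lap (∑ k ∈ s, f k) = ∑ k ∈ s, Lap (f k) := by
  classical
  induction s using Finset.induction_on with
  | empty => simp [Lap_zero]
  | insert a s ha ih => rw [Finset.sum_insert ha, Finset.sum_insert ha, Lap_add, ih]

theorem Lap_pd (j : Fin n) (p : P n) : Lap (pderiv j p) = pderiv j (Lap p) := by
  unfold Lap
  rw [map_sum]
  exact Finset.sum_congr rfl fun i _ => by rw [pd_comm i j p, pd_comm i j (pderiv i p)]

theorem pd_Eu (j : Fin n) (p : P n) : pderiv j (Eu p) = Eu (pderiv j p) + pderiv j p := by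
  unfold Eu
  rw [map_sum]
  have h : ∀ i : Fin n, pderiv j (X i * pderiv i p) =
      (if i = j then pderiv i p else 0) + X i * pderiv i (pderiv j p) := by
    intro i
    rw [pd_X, pd_comm j i]
  rw [Finset.sum_congr rfl fun i _ => h i, Finset.sum_add_distrib, Finset.sum_ite_eq',
    if_pos (Finset.mem_univ _), add_comm]

theorem Lap_Eu (p : P n) : Lap (Eu p) = Eu (Lap p) + 2 * Lap p := by
  have h : ∀ i : Fin n, pderiv i (pderiv i (Eu p)) =
      Eu (pderiv i (pderiv i p)) + 2 * pderiv i (pderiv i p) := by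
    intro i
    rw [pd_Eu, map_add, pd_Eu]
    ring
  have h2 : Lap (Eu p) = ∑ i, pderiv i (pderiv i (Eu p)) := rfl
  rw [h2, Finset.sum_congr rfl fun i _ => h i, Finset.sum_add_distrib, ← Eu_sum,
    ← Finset.mul_sum]
  rfl

theorem Lap_X (j : Fin n) (p : P n) : Lap (X j * p) = X j * Lap p + 2 * pderiv j p := by
  have h : ∀ i : Fin n, pderiv i (pderiv i (X j * p)) =
      X j * pderiv i (pderiv i p) + (if j = i then 2 * pderiv i p else 0) := by
    intro i
    rw [pd_X, map_add, pd_X]
    split_ifs with h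
    · ring
    · rw [map_zero]
      ring
  have h2 : Lap (X j * p) = ∑ i, pderiv i (pderiv i (X j * p)) := rfl
  rw [h2, Finset.sum_congr rfl fun i _ => h i, Finset.sum_add_distrib, Finset.sum_ite_eq,
    if_pos (Finset.mem_univ _), ← Finset.mul_sum]
  rfl

theorem Lap_rr (g : P n) : Lap (rr * g) = C (2 * (n : ℝ)) * g + 4 * Eu g + rr * Lap g := by
  have h0 : (rr * g : P n) = ∑ i, X i * (X i * g) := by
    unfold rr
    rw [Finset.sum_mul]
    exact Finset.sum_congr rfl fun i _ => by ring
  have h : ∀ i : Fin n, Lap (X i * (X i * g)) =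
      2 * g + 4 * (X i * pderiv i g) + (X i * X i) * Lap g := by
    intro i
    rw [Lap_X, Lap_X, pd_X, if_pos rfl]
    ring
  rw [h0, Lap_sum, Finset.sum_congr rfl fun i _ => h i, Finset.sum_add_distrib,
    Finset.sum_add_distrib, Finset.sum_const, Finset.card_univ, Fintype.card_fin,
    ← Finset.mul_sum, ← Finset.sum_mul]
  have h3 : (n • (2 * g) : P n) = C (2 * (n : ℝ)) * g := by
    rw [nsmul_eq_mul, map_mul, map_ofNat, map_natCast]
    ring
  rw [h3]
  rfl

theorem pd_rr (j : Fin n) (g : P n) :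
    pderiv j ((rr - 1) * g) = 2 * (X j * g) + (rr - 1) * pderiv j g := by
  have h1 : pderiv j (rr : P n) = 2 * X j := by
    unfold rr
    rw [map_sum]
    have h : ∀ i : Fin n, pderiv j (X i * X i : P n) = if i = j then 2 * X i else 0 := by
      intro i
      rw [pd_X, pderiv_X]
      split_ifs with h
      · rw [h, Pi.single_eq_same]
        ring
      · rw [Pi.single_eq_of_ne h]
        ring
    rw [Finset.sum_congr rfl fun i _ => h i, Finset.sum_ite_eq', if_pos (Finset.mem_univ _)]
  rw [Derivation.leibniz, map_sub, h1, Derivation.map_one_eq_zero, smul_eq_mul, smul_eq_mul]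
  ring

/-! homogeneous components -/

theorem hsum (p : P n) {N : ℕ} (hN : p.totalDegree < N) :
    ∑ l ∈ Finset.range N, homogeneousComponent l p = p := by
  conv_rhs => rw [← sum_homogeneousComponent p]
  symm
  apply Finset.sum_subset
  · intro l hl
    rw [Finset.mem_range] at hl ⊢
    omega
  · intro l _ hl
    rw [Finset.mem_range] at hl
    exact homogeneousComponent_eq_zero _ _ (by omega)

theorem hc_pd (i : Fin n) (p : P n) (m : ℕ) :
    homogeneousComponent m (pderiv i p) = pderiv i (homogeneousComponent (m + 1) p) := by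
  have hN : p.totalDegree < p.totalDegree + m + 2 := by omega
  conv_lhs => rw [← hsum p hN]
  rw [map_sum, map_sum, Finset.sum_eq_single (m + 1)]
  · have h1 : (pderiv i (homogeneousComponent (m + 1) p)).IsHomogeneous m :=
      (homogeneousComponent_isHomogeneous (m + 1) p).pderiv
    exact homogeneousComponent_eq_self h1
  · intro l _ hl
    rcases Nat.eq_zero_or_pos l with h0 | h0
    · rw [h0, homogeneousComponent_zero, pderiv_C, map_zero]
    · have h1 : (pderiv i (homogeneousComponent l p)).IsHomogeneous (l - 1) :=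
        (homogeneousComponent_isHomogeneous l p).pderiv
      rw [homogeneousComponent_of_mem h1, if_neg (by omega)]
  · intro h
    exact absurd (Finset.mem_range.2 (by omega)) h

theorem Lap_hc (p : P n) (hp : Lap p = 0) (l : ℕ) : Lap (homogeneousComponent l p) = 0 := by
  rcases l with _ | _ | m
  · unfold Lap
    exact Finset.sum_eq_zero fun i _ => by
      rw [homogeneousComponent_zero, pderiv_C, map_zero]
  · unfold Lap
    exact Finset.sum_eq_zero fun i _ => by
      rw [← hc_pd, homogeneousComponent_zero, pderiv_C]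
  · have h : ∀ i : Fin n, pderiv i (pderiv i (homogeneousComponent (m + 1 + 1) p)) =
        homogeneousComponent m (pderiv i (pderiv i p)) := by
      intro i
      rw [← hc_pd, ← hc_pd]
    unfold Lap at hp ⊢
    rw [Finset.sum_congr rfl fun i _ => h i, ← map_sum, hp, map_zero]

theorem Eu_hom {p : P n} {l : ℕ} (hp : p.IsHomogeneous l) : Eu p = C (l : ℝ) * p := by
  unfold Eu
  rw [hp.sum_X_mul_pderiv, nsmul_eq_mul, map_natCast]

theorem Eu_hc (p : P n) (l : ℕ) : Eu (homogeneousComponent l p) =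
    C (l : ℝ) * homogeneousComponent l p :=
  Eu_hom (homogeneousComponent_isHomogeneous l p)

/-- the component of a weighted sum -/
theorem hc_sum (p : P n) (a : ℕ → ℝ) {N : ℕ} (hN : p.totalDegree < N) (l : ℕ) :
    homogeneousComponent l (∑ k ∈ Finset.range N, C (a k) * homogeneousComponent k p) =
      C (a l) * homogeneousComponent l p := by
  rw [map_sum]
  have h : ∀ k ∈ Finset.range N, homogeneousComponent l (C (a k) * homogeneousComponent k p) =
      if l = k then C (a k) * homogeneousComponent k p else 0 := by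
    intro k _
    rw [homogeneousComponent_C_mul,
      homogeneousComponent_of_mem (homogeneousComponent_isHomogeneous k p)]
    split_ifs with h
    · rfl
    · rw [mul_zero]
  rw [Finset.sum_congr rfl h, Finset.sum_ite_eq]
  split_ifs with h1
  · rfl
  · rw [Finset.mem_range, not_lt] at h1
    rw [homogeneousComponent_eq_zero _ _ (by omega), mul_zero]

/-- a weighted sum with nonzero weights vanishes only if the polynomial vanishes -/
theorem zero_of_sum (p : P n) (a : ℕ → ℝ) {N : ℕ} (hN : p.totalDegree < N)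
    (h : ∑ k ∈ Finset.range N, C (a k) * homogeneousComponent k p = 0) {l : ℕ} (hl : a l ≠ 0) :
    homogeneousComponent l p = 0 := by
  have h1 := hc_sum p a hN l
  rw [h, map_zero] at h1
  exact (mul_eq_zero.1 h1.symm).resolve_left fun h2 => hl (C_eq_zero.1 h2)

theorem Eu_expand (p : P n) {N : ℕ} (hN : p.totalDegree < N) :
    Eu p = ∑ k ∈ Finset.range N, C (k : ℝ) * homogeneousComponent k p := by
  conv_lhs => rw [← hsum p hN]
  rw [Eu_sum]
  exact Finset.sum_congr rfl fun k _ => Eu_hc p k

theorem eq_zero_of_hc (p : P n) (h : ∀ l, homogeneousComponent l p = 0) : p = 0 := by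
  rw [← sum_homogeneousComponent p]
  exact Finset.sum_eq_zero fun l _ => h l

end Rigid

open Rigid in
theorem t_rigid (hs : S_sig) : S_rigid := by
  intro n u q θ hn hθ1 hθ2 hne hLap hZ
  have hn1 : 1 ≤ n := by omega
  have hnr : (2 : ℝ) ≤ n := by exact_mod_cast hn
  have hθ : (1 : ℝ) - θ ≠ 0 := by intro h; linarith
  have hCθ : (C (1 - θ) : P n) ≠ 0 := by rwa [Ne, C_eq_zero]
  obtain ⟨ψ, hψ⟩ : ∃ ψ, ψ = dv u := ⟨_, rfl⟩
  obtain ⟨β, hβ⟩ : ∃ β, β = xd u := ⟨_, rfl⟩
  rw [← hψ] at hLap
  rw [← hβ] at hZ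
  -- Step 1
  have hLψ : Lap ψ = 0 := by
    have h1 : Lap ψ = C θ * Lap ψ := by
      have h2 : Lap ψ = ∑ i, Lap (pderiv i (u i)) := by
        conv_lhs => rw [hψ]
        unfold dv
        rw [Lap_sum]
      have h3 : ∀ i, Lap (pderiv i (u i)) = C θ * pderiv i (pderiv i ψ) := fun i => by
        rw [Lap_pd, hLap, pd_C]
      rw [Finset.sum_congr rfl fun i _ => h3 i, ← Finset.mul_sum] at h2
      exact h2
    have h2 : C (1 - θ) * Lap ψ = 0 := by
      rw [map_sub, map_one, sub_mul, one_mul]
      exact sub_eq_zero.2 h1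
    exact (mul_eq_zero.1 h2).resolve_left hCθ
  have hLβ : Lap β = C θ * Eu ψ + 2 * ψ := by
    have h3 : ∀ i, Lap (X i * u i) = C θ * (X i * pderiv i ψ) + 2 * pderiv i (u i) :=
      fun i => by rw [Lap_X, hLap]; ring
    rw [hβ]
    unfold xd
    rw [Lap_sum, Finset.sum_congr rfl fun i _ => h3 i, Finset.sum_add_distrib, ← Finset.mul_sum,
      ← Finset.mul_sum, hψ]
    rfl
  -- Step 2
  have hLZ : ∀ j, Lap ((1 - rr) * q j) = C (θ * (1 - θ)) * Eu (pderiv j ψ) := by
    intro j
    rw [← hZ, Lap_sub, Lap_add, Lap_C, Lap_C, Lap_Eu, Lap_pd, hLap, hLβ, map_add, pd_C, pd_two,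
      Eu_C, pd_Eu, map_mul, map_sub, map_one]
    ring
  -- the components
  obtain ⟨N, hN⟩ : ∃ N, N = ψ.totalDegree + 1 := ⟨_, rfl⟩
  have hN' : ψ.totalDegree < N := by omega
  obtain ⟨f, hf⟩ : ∃ f : ℕ → P n, ∀ l, f l = homogeneousComponent l ψ := ⟨_, fun _ => rfl⟩
  have hLf : ∀ l, Lap (f l) = 0 := fun l => by rw [hf]; exact Lap_hc ψ hLψ l
  have hEf : ∀ l, Eu (f l) = C (l : ℝ) * f l := fun l => by rw [hf]; exact Eu_hc ψ l
  have hEpf : ∀ l j, Eu (pderiv j (f l)) = C ((l : ℝ) - 1) * pderiv j (f l) := by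
    intro l j
    have h1 := pd_Eu j (f l)
    rw [hEf, pd_C] at h1
    rw [map_sub, map_one]
    linear_combination -h1
  have hsψ : ∑ l ∈ Finset.range N, f l = ψ := by
    simp only [hf]
    exact hsum ψ hN'
  obtain ⟨c, hc⟩ : ∃ c : ℕ → ℝ, ∀ l, c l = θ * (1 - θ) * ((l : ℝ) - 1) /
    (2 * (n + 2 * l - 2)) := ⟨_, fun _ => rfl⟩
  have hc2 : ∀ l : ℕ, 1 ≤ l → c l * (2 * (n + 2 * l - 2)) = θ * (1 - θ) * ((l : ℝ) - 1) := by
    intro l hl
    have hl' : (1 : ℝ) ≤ l := by exact_mod_cast hl
    rw [hc, div_mul_cancel₀]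
    have : (0 : ℝ) < 2 * (n + 2 * l - 2) := by linarith
    exact this.ne'
  have hpd0 : ∀ j, pderiv j (f 0) = 0 := by
    intro j
    rw [hf, homogeneousComponent_zero, pderiv_C]
  -- Step 3
  have hLG1 : ∀ j l, Lap (C (c l) * ((rr - 1) * pderiv j (f l))) =
      C (θ * (1 - θ)) * Eu (pderiv j (f l)) := by
    intro j l
    rw [Lap_C, sub_mul, one_mul, Lap_sub, Lap_rr, Lap_pd, hLf, map_zero, mul_zero, sub_zero,
      add_zero, hEpf]
    rcases Nat.eq_zero_or_pos l with h0 | h0
    · rw [h0, hpd0]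
      ring
    · have h1 := hc2 l h0
      have h2 : c l * (2 * n + 4 * ((l : ℝ) - 1)) = θ * (1 - θ) * ((l : ℝ) - 1) := by
        rw [← h1]
        ring
      have h3 : (4 : P n) = C 4 := by rw [map_ofNat]
      rw [h3, ← mul_assoc (C 4), ← map_mul, ← add_mul, ← map_add, ← mul_assoc, ← map_mul, h2,
        ← mul_assoc, ← map_mul]
  have hG : ∀ j, (1 - rr) * q j = ∑ l ∈ Finset.range N, C (c l) * ((rr - 1) * pderiv j (f l)) := by
    intro j
    obtain ⟨q', hq'⟩ : ∃ q', q' = q j + ∑ l ∈ Finset.range N, C (c l) * pderiv j (f l) :=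
      ⟨_, rfl⟩
    have h1 : (1 - rr) * q j - ∑ l ∈ Finset.range N, C (c l) * ((rr - 1) * pderiv j (f l)) =
        (1 - rr) * q' := by
      have h2 : ∑ l ∈ Finset.range N, C (c l) * ((rr - 1) * pderiv j (f l)) =
          (rr - 1) * ∑ l ∈ Finset.range N, C (c l) * pderiv j (f l) := by
        rw [Finset.mul_sum]
        exact Finset.sum_congr rfl fun l _ => by ring
      rw [h2, hq']
      ring
    have h2 : Lap ((1 - rr) * q') = 0 := by
      rw [← h1, Lap_sub, hLZ, Lap_sum, Finset.sum_congr rfl fun l _ => hLG1 j l,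
        ← Finset.mul_sum, ← Eu_sum, ← map_sum, hsψ, sub_self]
    have h3 : sig (((1 - rr) * q') * ((1 - rr) * q')) = 0 := by
      have h4 := (hs n (q' * ((1 - rr) * q')) hn1).1
      rw [← mul_assoc] at h4
      exact h4
    have h4 := (hs n ((1 - rr) * q') hn1).2.2 h2 h3
    rw [h4] at h1
    exact sub_eq_zero.1 h1
  -- Step 4
  have hdivZ : ∑ j, pderiv j ((1 - rr) * q j) = C (1 - θ ^ 2) * Eu ψ + C (1 - θ) * ψ := by
    have h1 : ∀ j, pderiv j ((1 - rr) * q j) = Eu (pderiv j (u j)) + pderiv j (u j) +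
        C θ * pderiv j (u j) - C θ * pderiv j (pderiv j β) := by
      intro j
      rw [← hZ, map_sub, map_add, pd_Eu, pd_C, pd_C]
    have h2 : ∑ j, pderiv j (u j) = ψ := hψ.symm
    have h3 : ∑ j, pderiv j (pderiv j β) = Lap β := rfl
    rw [Finset.sum_congr rfl fun j _ => h1 j, Finset.sum_sub_distrib, Finset.sum_add_distrib,
      Finset.sum_add_distrib, ← Eu_sum, ← Finset.mul_sum, ← Finset.mul_sum, h2, h3, hLβ]
    simp only [map_sub, map_one, map_pow]
    ring
  have hdivG : ∑ j, pderiv j ((1 - rr) * q j) =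
      ∑ l ∈ Finset.range N, C (2 * c l * l) * f l := by
    have h1 : ∀ j, pderiv j ((1 - rr) * q j) =
        ∑ l ∈ Finset.range N, C (c l) * (2 * (X j * pderiv j (f l)) +
          (rr - 1) * pderiv j (pderiv j (f l))) := by
      intro j
      rw [hG, map_sum]
      exact Finset.sum_congr rfl fun l _ => by rw [pd_C, pd_rr]
    rw [Finset.sum_congr rfl fun j _ => h1 j, Finset.sum_comm]
    refine Finset.sum_congr rfl fun l _ => ?_
    rw [← Finset.mul_sum, Finset.sum_add_distrib, ← Finset.mul_sum, ← Finset.mul_sum]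
    have h2 : ∑ j, X j * pderiv j (f l) = Eu (f l) := rfl
    have h3 : ∑ j, pderiv j (pderiv j (f l)) = Lap (f l) := rfl
    rw [h2, h3, hLf, hEf]
    simp only [map_mul, map_ofNat]
    ring
  have hψ0 : ψ = 0 := by
    have h1 : ∑ l ∈ Finset.range N, C ((1 - θ ^ 2) * l + (1 - θ) - 2 * c l * l) *
        homogeneousComponent l ψ = 0 := by
      have h2 : ∀ l ∈ Finset.range N, C ((1 - θ ^ 2) * l + (1 - θ) - 2 * c l * l) *
          homogeneousComponent l ψ = C (1 - θ ^ 2) * (C (l : ℝ) * f l) + C (1 - θ) * f l -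
            C (2 * c l * l) * f l := by
        intro l _
        rw [← hf, map_sub, map_add, map_mul]
        ring
      have h3 : ∑ l ∈ Finset.range N, C (l : ℝ) * f l = Eu ψ := by
        rw [Eu_expand ψ hN']
        exact Finset.sum_congr rfl fun l _ => by rw [hf]
      rw [Finset.sum_congr rfl h2, Finset.sum_sub_distrib, Finset.sum_add_distrib,
        ← Finset.mul_sum, ← Finset.mul_sum, h3, hsψ, ← hdivG, hdivZ, sub_self]
    refine eq_zero_of_hc ψ fun l => ?_
    refine zero_of_sum ψ _ hN' h1 ?_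
    rcases Nat.eq_zero_or_pos l with h0 | h0
    · subst h0
      simpa using hθ
    · have hl' : (1 : ℝ) ≤ l := by exact_mod_cast h0
      have hpos : (0 : ℝ) < n + 2 * l - 2 := by linarith
      intro h2
      have h3 := hc2 l h0
      have h4 : (1 - θ) * (θ * ((l : ℝ) * (l + n - 1)) + ((l : ℝ) + 1) * (n + 2 * l - 2)) = 0 := by
        linear_combination (n + 2 * (l : ℝ) - 2) * h2 + (l : ℝ) * h3
      have h5 := (mul_eq_zero.1 h4).resolve_left hθ
      exact hne l h0 (by linarith)
  -- Step 5
  have hEq : ∀ j, Eu (u j) + C θ * u j = C θ * pderiv j β := by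
    intro j
    have h1 := hG j
    have h2 : ∀ l, f l = 0 := fun l => by rw [hf, hψ0, map_zero]
    have h3 : ∑ l ∈ Finset.range N, C (c l) * ((rr - 1) * pderiv j (f l)) = 0 :=
      Finset.sum_eq_zero fun l _ => by rw [h2, map_zero, mul_zero, mul_zero]
    rw [h3, ← hZ j] at h1
    exact sub_eq_zero.1 h1
  have hEβ : Eu β = β := by
    have h1 : ∑ j, X j * (Eu (u j) + C θ * u j) = ∑ j, X j * (C θ * pderiv j β) :=
      Finset.sum_congr rfl fun j _ => by rw [hEq]
    have h2 : ∑ j, X j * (C θ * pderiv j β) = C θ * Eu β := by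
      unfold Eu
      rw [Finset.mul_sum]
      exact Finset.sum_congr rfl fun j _ => by ring
    have h3 : ∑ j, X j * (Eu (u j) + C θ * u j) = Eu β - β + C θ * β := by
      have h4 : ∀ j, X j * (Eu (u j) + C θ * u j) = Eu (X j * u j) - X j * u j +
          C θ * (X j * u j) := by
        intro j
        rw [Eu_X]
        ring
      rw [Finset.sum_congr rfl fun j _ => h4 j, Finset.sum_add_distrib, Finset.sum_sub_distrib,
        ← Eu_sum, ← Finset.mul_sum, hβ]
      rfl
    rw [h2, h3] at h1
    have h4 : C (1 - θ) * (Eu β - β) = 0 := by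
      rw [map_sub, map_one]
      linear_combination h1
    exact sub_eq_zero.1 ((mul_eq_zero.1 h4).resolve_left hCθ)
  intro j
  have hEb : Eu (pderiv j β) = 0 := by
    have h1 := pd_Eu j β
    rw [hEβ] at h1
    linear_combination -h1
  have hb : ∃ c : ℝ, pderiv j β = C c := by
    obtain ⟨b, hbd⟩ : ∃ b, b = pderiv j β := ⟨_, rfl⟩
    rw [← hbd] at hEb ⊢
    have h1 := Eu_expand b (Nat.lt_succ_self _)
    rw [hEb] at h1
    refine ⟨coeff 0 b, ?_⟩
    have h2 : ∀ l, l ≠ 0 → homogeneousComponent l b = 0 := fun l hl =>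
      zero_of_sum b _ (Nat.lt_succ_self _) h1.symm (by exact_mod_cast hl)
    conv_lhs => rw [← sum_homogeneousComponent b]
    rw [Finset.sum_eq_single 0, homogeneousComponent_zero]
    · intro l _ hl
      exact h2 l hl
    · intro h
      exact absurd (Finset.mem_range.2 (by omega)) h
  obtain ⟨c0, hc0⟩ := hb
  refine ⟨c0, ?_⟩
  rw [← hc0]
  have h1 : Eu (u j - pderiv j β) + C θ * (u j - pderiv j β) = 0 := by
    have h2 : Eu (u j - pderiv j β) = Eu (u j) - Eu (pderiv j β) := by
      have h3 := Eu_add (u j - pderiv j β) (pderiv j β)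
      rw [sub_add_cancel] at h3
      linear_combination -h3
    rw [h2, hEb]
    linear_combination hEq j
  obtain ⟨v, hv⟩ : ∃ v, v = u j - pderiv j β := ⟨_, rfl⟩
  rw [← hv] at h1
  have h2 : v = 0 := by
    refine eq_zero_of_hc v fun l => ?_
    have h3 : ∑ k ∈ Finset.range (v.totalDegree + 1), C ((k : ℝ) + θ) *
        homogeneousComponent k v = 0 := by
      have h4 : ∀ k ∈ Finset.range (v.totalDegree + 1), C ((k : ℝ) + θ) *
          homogeneousComponent k v = C (k : ℝ) * homogeneousComponent k v +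
            C θ * homogeneousComponent k v := fun k _ => by rw [map_add, add_mul]
      rw [Finset.sum_congr rfl h4, Finset.sum_add_distrib,
        ← Eu_expand v (Nat.lt_succ_self _), ← Finset.mul_sum, sum_homogeneousComponent, h1]
    refine zero_of_sum v _ (Nat.lt_succ_self _) h3 ?_
    intro h4
    rcases l with _ | _ | m
    · push_cast at h4
      linarith
    · push_cast at h4
      linarith
    · push_cast at h4
      have : (0 : ℝ) ≤ m := Nat.cast_nonneg m
      linarith
  rw [h2] at hv
  exact sub_eq_zero.1 hv.symm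

end

end Pool.Agent.R963.Korn
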