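import Pool.Agent.R963.Korn.Stm

set_option autoImplicit false
set_option maxHeartbeats 400000

open MvPolynomial MeasureTheory

namespace Pool.Agent.R963.Korn

noncomputable section

namespace Sig

variable {n : ℕ}

lemma Lam_add (hl : S_lin) (p q : P n) : Lam (p + q) = Lam p + Lam q := by
  have h := hl n p q 1 1
  rwa [C_1, one_mul, one_mul, one_mul, one_mul] at h

lemma Lam_zero (hl : S_lin) : Lam (0 : P n) = 0 := by
  have h := hl n 0 0 0 0
  simpa using h

lemma Lam_C (hl : S_lin) (p : P n) (a : ℝ) : Lam (C a * p) = a * Lam p := by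
  have h := hl n p 0 a 0
  simpa using h

/-- the integral functional as a linear map -/
def Ll (hl : S_lin) (n : ℕ) : P n →ₗ[ℝ] ℝ where
  toFun := Lam
  map_add' := Lam_add hl
  map_smul' := fun a p => by rw [smul_eq_C_mul, Lam_C hl]; rfl

lemma Lam_sum (hl : S_lin) (f : Fin n → P n) : Lam (∑ i, f i) = ∑ i, Lam (f i) :=
  map_sum (Ll hl n) f Finset.univ

lemma Eu_add (p q : P n) : Eu (p + q) = Eu p + Eu q := by
  unfold Eu
  rw [← Finset.sum_add_distrib]
  refine Finset.sum_congr rfl fun i _ => ?_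
  rw [map_add, mul_add]

lemma Eu_mul (p q : P n) : Eu (p * q) = Eu p * q + p * Eu q := by
  unfold Eu
  rw [Finset.sum_mul, Finset.mul_sum, ← Finset.sum_add_distrib]
  refine Finset.sum_congr rfl fun i _ => ?_
  rw [pderiv_mul]
  ring

lemma Eu_C (a : ℝ) : Eu (C a : P n) = 0 := by
  unfold Eu
  refine Finset.sum_eq_zero fun i _ => ?_
  rw [pderiv_C, mul_zero]

lemma sig_add (hl : S_lin) (p q : P n) : sig (p + q) = sig p + sig q := by
  unfold sig
  rw [Eu_add, ← Lam_add hl]
  congr 1
  ring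

lemma sig_C (hl : S_lin) (p : P n) (a : ℝ) : sig (C a * p) = a * sig p := by
  unfold sig
  rw [Eu_mul, Eu_C, ← Lam_C hl]
  congr 1
  ring

/-- the sphere functional as a linear map -/
def Sl (hl : S_lin) (n : ℕ) : P n →ₗ[ℝ] ℝ where
  toFun := sig
  map_add' := sig_add hl
  map_smul' := fun a p => by rw [smul_eq_C_mul, sig_C hl]; rfl

lemma sig_sum (hl : S_lin) (f : Fin n → P n) : sig (∑ i, f i) = ∑ i, sig (f i) :=
  map_sum (Sl hl n) f Finset.univ

lemma sig_sub (hl : S_lin) (p q : P n) : sig (p - q) = sig p - sig q :=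
  map_sub (Sl hl n) p q

lemma sig_rr (hl : S_lin) (hd : S_div) (g : P n) : sig (rr * g) = sig g := by
  have e1 : rr * g = ∑ i, X i * (X i * g) := by
    unfold rr
    rw [Finset.sum_mul]
    exact Finset.sum_congr rfl fun i _ => by ring
  have e2 : ∀ i : Fin n, pderiv i (X i * g) = g + X i * pderiv i g := by
    intro i
    rw [pderiv_mul, pderiv_X_self, one_mul]
  rw [e1, sig_sum hl]
  have e3 : ∀ i : Fin n, sig (X i * (X i * g)) = Lam (g + X i * pderiv i g) := by
    intro i
    rw [← hd n i (X i * g), e2]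
  simp only [e3]
  rw [← Lam_sum hl, Finset.sum_add_distrib, Finset.sum_const, Finset.card_univ, Fintype.card_fin]
  unfold sig Eu
  congr 1
  rw [nsmul_eq_mul]
  congr 2

lemma sig_rr_pow (hl : S_lin) (hd : S_div) (g : P n) (m : ℕ) : sig (rr ^ m * g) = sig g := by
  induction m with
  | zero => rw [pow_zero, one_mul]
  | succ m ih => rw [pow_succ', mul_assoc, sig_rr hl hd, ih]

lemma Eu_rr : Eu (rr : P n) = C 2 * rr := by
  have e1 : ∀ i : Fin n, pderiv i (rr : P n) = C 2 * X i := by
    intro i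
    unfold rr
    rw [map_sum, Finset.sum_eq_single i]
    · rw [pderiv_mul, pderiv_X_self]
      have : (C 2 : P n) = 2 := map_ofNat C 2
      rw [this]; ring
    · intro j _ hj
      rw [pderiv_mul, pderiv_X_of_ne hj]
      ring
    · intro h
      exact absurd (Finset.mem_univ i) h
  unfold Eu
  simp only [e1]
  unfold rr
  rw [Finset.mul_sum]
  exact Finset.sum_congr rfl fun i _ => by ring

lemma Eu_rr_pow (m : ℕ) : Eu ((rr : P n) ^ m) = C (2 * (m : ℝ)) * rr ^ m := by
  induction m with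
  | zero =>
    rw [pow_zero]
    have : (1 : P n) = C 1 := C_1.symm
    rw [this, Eu_C]
    simp
  | succ m ih =>
    rw [pow_succ, Eu_mul, ih, Eu_rr]
    have e : (C (2 * ((m + 1 : ℕ) : ℝ)) : P n) = C (2 * (m : ℝ)) + C 2 := by
      rw [← C_add]
      congr 1
      push_cast
      ring
    rw [e]
    ring

lemma Lam_nonneg (hl : S_lin) (hp : S_pos) (q : P n) (h : ∀ x : E n, ‖x‖ < 1 → 0 ≤ ev x q) :
    0 ≤ Lam q := by
  rw [← Lam_zero (n := n) hl]
  refine hp n 0 q fun x hx => ?_
  have : ev x (0 : P n) = 0 := by unfold ev; simp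
  rw [this]
  exact h x hx

lemma ev_mul (x : E n) (p q : P n) : ev x (p * q) = ev x p * ev x q := by
  unfold ev; rw [map_mul]

lemma ev_rr_nonneg (x : E n) : 0 ≤ ev x (rr : P n) := by
  unfold ev rr
  rw [map_sum]
  refine Finset.sum_nonneg fun i _ => ?_
  rw [map_mul]
  exact mul_self_nonneg _

lemma ev_rr_pow_nonneg (x : E n) (m : ℕ) : 0 ≤ ev x ((rr : P n) ^ m) := by
  have : ev x ((rr : P n) ^ m) = (ev x (rr : P n)) ^ m := by unfold ev; rw [map_pow]
  rw [this]
  exact pow_nonneg (ev_rr_nonneg x) m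

lemma sig_sq_nonneg (hl : S_lin) (hp : S_pos) (hd : S_div) (hc : S_conc) (hn : 1 ≤ n) (p : P n) :
    0 ≤ sig (p * p) := by
  refine le_of_tendsto' (hc n (Eu (p * p)) hn) fun m => ?_
  rw [← sig_rr_pow hl hd (p * p) m]
  have e : sig (rr ^ m * (p * p)) =
      ((n : ℝ) + 2 * m) * Lam (rr ^ m * (p * p)) + Lam (rr ^ m * Eu (p * p)) := by
    unfold sig
    rw [Eu_mul (rr ^ m), Eu_rr_pow, ← Lam_C hl, ← Lam_add hl]
    congr 1
    rw [C_add]
    ring
  rw [e]
  have h1 : 0 ≤ Lam (rr ^ m * (p * p)) := by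
    refine Lam_nonneg hl hp _ fun x _ => ?_
    rw [ev_mul, ev_mul]
    exact mul_nonneg (ev_rr_pow_nonneg x m) (mul_self_nonneg _)
  have h2 : 0 ≤ ((n : ℝ) + 2 * m) * Lam (rr ^ m * (p * p)) := mul_nonneg (by positivity) h1
  linarith

end Sig

open Sig in
theorem t_sig (hl : S_lin) (hp : S_pos) (hz : S_zero) (hd : S_div) (hc : S_conc) : S_sig := by
  intro n p hn
  refine ⟨?_, sig_sq_nonneg hl hp hd hc hn p, fun hLap h0 => ?_⟩
  · rw [sub_mul, one_mul, sig_sub hl, sig_rr hl hd, sub_self]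
  -- Cauchy-Schwarz
  have hB : sig (p * Eu p) = 0 := by
    have hq : ∀ t : ℝ, 0 ≤ 2 * t * sig (p * Eu p) + t ^ 2 * sig (Eu p * Eu p) := by
      intro t
      have h1 := sig_sq_nonneg hl hp hd hc hn (p + C t * Eu p)
      have e : (p + C t * Eu p) * (p + C t * Eu p) =
          p * p + (C (2 * t) * (p * Eu p) + C (t ^ 2) * (Eu p * Eu p)) := by
        rw [C_mul, C_pow]
        have : (C 2 : P n) = 2 := map_ofNat C 2
        rw [this]
        ring
      rw [e, sig_add hl, sig_add hl, sig_C hl, sig_C hl, h0, zero_add] at h1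
      exact h1
    generalize sig (p * Eu p) = B at hq
    generalize sig (Eu p * Eu p) = A at hq
    by_contra hB
    have hA : 0 ≤ A := by
      by_contra hA
      push Not at hA
      have h1 := hq 1
      have h2 := hq (-1)
      nlinarith
    have h1 := hq (-B / (A + 1))
    have hA1 : 0 < A + 1 := by linarith
    have e : 2 * (-B / (A + 1)) * B + (-B / (A + 1)) ^ 2 * A =
        -(B ^ 2 * (A + 2) / (A + 1) ^ 2) := by
      field_simp
      ring
    rw [e] at h1
    have h2 : 0 < B ^ 2 * (A + 2) / (A + 1) ^ 2 := by positivity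
    linarith
  have hsum : ∑ i, Lam (pderiv i p * pderiv i p) = 0 := by
    have e1 : p * Eu p = ∑ i, X i * (p * pderiv i p) := by
      unfold Eu
      rw [Finset.mul_sum]
      exact Finset.sum_congr rfl fun i _ => by ring
    rw [e1, sig_sum hl] at hB
    have e2 : ∀ i : Fin n, sig (X i * (p * pderiv i p)) =
        Lam (pderiv i p * pderiv i p + p * pderiv i (pderiv i p)) := by
      intro i
      rw [← hd n i, pderiv_mul]
    simp only [e2, Lam_add hl] at hB
    rw [Finset.sum_add_distrib, ← Lam_sum hl (fun i => p * pderiv i (pderiv i p)),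
      ← Finset.mul_sum] at hB
    have e3 : ∑ i, pderiv i (pderiv i p) = 0 := hLap
    rw [e3, mul_zero, Lam_zero hl, add_zero] at hB
    exact hB
  have hpd : ∀ i, pderiv i p = 0 := by
    intro i
    have hnn : ∀ j ∈ Finset.univ, 0 ≤ Lam (pderiv j p * pderiv j p) := by
      intro j _
      refine Lam_nonneg hl hp _ fun x _ => ?_
      rw [ev_mul]
      exact mul_self_nonneg _
    have h1 := (Finset.sum_eq_zero_iff_of_nonneg hnn).1 hsum i (Finset.mem_univ i)
    exact (hz n _ hn).1 h1
  have hEu : Eu p = 0 := by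
    unfold Eu
    refine Finset.sum_eq_zero fun i _ => ?_
    rw [hpd i, mul_zero]
  have h2 : (n : ℝ) * Lam (p * p) = 0 := by
    rw [← h0, ← Lam_C hl]
    unfold sig
    rw [Eu_mul, hEu, zero_mul, mul_zero, add_zero, add_zero]
  have h3 : Lam (p * p) = 0 := by
    rcases mul_eq_zero.1 h2 with h | h
    · have : (1 : ℝ) ≤ n := by exact_mod_cast hn
      linarith
    · exact h
  exact (hz n p hn).1 h3

end

end Pool.Agent.R963.Korn
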