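import Pool.Agent.R963.Korn.Stm

/-!
Piece KO-14 of MP_67a05c_an: passage from polynomial to `C^1` vector fields.
-/

set_option maxHeartbeats 400000

open MvPolynomial MeasureTheory

namespace Pool.Agent.R963.Korn

noncomputable section

variable {n : ℕ}

theorem smooth_int {f : E n → ℝ} (hf : Continuous f) :
    Integrable f (volume.restrict (Metric.ball (0 : E n) 1)) :=
  (hf.continuousOn.integrableOn_compact (isCompact_closedBall (0 : E n) 1)).mono_set
    Metric.ball_subset_closedBall

theorem smooth_ev (p : P n) : Continuous fun x : E n => ev x p := by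
  unfold ev
  exact (MvPolynomial.continuous_eval p).comp (by fun_prop)

theorem smooth_G {u : E n → E n} (hu : ContDiff ℝ 1 u) (i j : Fin n) :
    Continuous fun x => G u x i j := by
  unfold G
  have h1 : Continuous fun x => fderiv ℝ u x (EuclideanSpace.single i 1) :=
    (hu.continuous_fderiv one_ne_zero).clm_apply continuous_const
  exact (EuclideanSpace.proj (𝕜 := ℝ) j).continuous.comp h1

theorem smooth_young (a b : ℝ) {δ : ℝ} (hδ : 0 < δ) :
    (a + b) ^ 2 ≤ (1 + δ) * a ^ 2 + (1 + 1 / δ) * b ^ 2 := by
  have h : (1 + δ) * a ^ 2 + (1 + 1 / δ) * b ^ 2 - (a + b) ^ 2 = (δ * a - b) ^ 2 / δ := by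
    field_simp
    ring
  have h2 : 0 ≤ (δ * a - b) ^ 2 / δ := by positivity
  linarith

theorem smooth_vol : 0 < (volume.real (Metric.ball (0 : E n) 1)) := by
  rw [measureReal_def]
  exact ENNReal.toReal_pos (Metric.measure_ball_pos _ _ one_pos).ne' measure_ball_lt_top.ne

theorem t_smooth (_hl : S_lin) (_hp : S_pos) (ha : S_approx) : S_smooth := by
  intro n K₀ hn hK hpoly u hu hside
  have hgc := smooth_G hu
  set vol : ℝ := volume.real (Metric.ball (0 : E n) 1) with hvol
  have hv : 0 < vol := smooth_vol
  have key : ∀ δ : ℝ, 0 < δ →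
      Nint u ≤ (1 + δ) * (K₀ * ((1 + δ) * Dint u + (δ ^ 2 + δ))) + 4 * (δ ^ 2 + δ) := by
    intro δ hδ
    obtain ⟨P, hP⟩ := ha n u hu (δ ^ 2) (by positivity)
    set p : E n → Fin n → Fin n → ℝ := fun x i j => ev x (pderiv i (P j)) with hp
    have hpc : ∀ i j, Continuous fun x => p x i j := fun i j => smooth_ev _
    set Err : ℝ := ∫ x in Metric.ball (0 : E n) 1,
      ∑ i, ∑ j, (p x i j - G u x i j) ^ 2 with hErr
    have hErr' : Err < δ ^ 2 := hP
    set A : Fin n → Fin n → ℝ := fun i j =>
      (∫ x in Metric.ball (0 : E n) 1, (p x i j - p x j i)) / (2 * vol) with hA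
    have hAs : ∀ i j, A j i = -A i j := by
      intro i j
      simp only [hA]
      rw [← neg_div, ← integral_neg]
      congr 1
      refine integral_congr_ae (Filter.Eventually.of_forall fun x => ?_)
      simp
    have hAi : ∀ i j, ∫ x in Metric.ball (0 : E n) 1, (p x i j - p x j i) = 2 * vol * A i j := by
      intro i j
      simp only [hA]
      field_simp
    set V : Fin n → Korn.P n := fun j => P j - ∑ i, C (A i j) * X i with hV
    have hdV : ∀ i j, pderiv i (V j) = pderiv i (P j) - C (A i j) := by
      intro i j
      simp only [hV, map_sub, map_sum]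
      congr 1
      rw [Finset.sum_eq_single i]
      · rw [Derivation.leibniz]
        simp
      · intro b _ hb
        rw [Derivation.leibniz, pderiv_X_of_ne hb]
        simp
      · intro h
        exact absurd (Finset.mem_univ i) h
    have hevV : ∀ x i j, ev x (pderiv i (V j)) = p x i j - A i j := by
      intro x i j
      rw [hdV]
      simp [ev, hp]
    have hside' : Side V := by
      intro i j
      unfold Lam
      have e : ∀ x : E n, ev x (pderiv i (V j) - pderiv j (V i)) =
          (p x i j - p x j i) - 2 * A i j := by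
        intro x
        have h1 : ev x (pderiv i (V j) - pderiv j (V i)) =
            ev x (pderiv i (V j)) - ev x (pderiv j (V i)) := by simp [ev]
        rw [h1, hevV, hevV, hAs i j]
        ring
      simp only [e]
      have I1 : Integrable (fun x => p x i j - p x j i)
          (volume.restrict (Metric.ball (0 : E n) 1)) := smooth_int ((hpc i j).sub (hpc j i))
      have I2 : Integrable (fun _ : E n => 2 * A i j)
          (volume.restrict (Metric.ball (0 : E n) 1)) := smooth_int continuous_const
      rw [integral_sub I1 I2, hAi i j, setIntegral_const, smul_eq_mul, ← hvol]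
      ring
    have h0 := hpoly V hside'
    -- the two quadratic forms
    have hNN : NN V V = ∫ x in Metric.ball (0 : E n) 1, ∑ i, ∑ j, (p x i j - A i j) ^ 2 := by
      unfold NN Lam
      refine integral_congr_ae (Filter.Eventually.of_forall fun x => ?_)
      have : ev x (∑ i, ∑ j, pderiv i (V j) * pderiv i (V j)) =
          ∑ i, ∑ j, ev x (pderiv i (V j)) * ev x (pderiv i (V j)) := by simp [ev, map_sum]
      simp only [this, hevV]
      refine Finset.sum_congr rfl fun i _ => Finset.sum_congr rfl fun j _ => ?_
      ring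
    have hDD : DD V V = ∫ x in Metric.ball (0 : E n) 1,
        ∑ i, ∑ j, ((p x i j + p x j i) / 2) ^ 2 := by
      unfold DD Lam
      refine integral_congr_ae (Filter.Eventually.of_forall fun x => ?_)
      have : ev x (∑ i, ∑ j, (C (1/2 : ℝ) * (pderiv i (V j) + pderiv j (V i))) *
          (C (1/2 : ℝ) * (pderiv i (V j) + pderiv j (V i)))) =
          ∑ i, ∑ j, ((1/2 : ℝ) * (ev x (pderiv i (V j)) + ev x (pderiv j (V i)))) *
            ((1/2 : ℝ) * (ev x (pderiv i (V j)) + ev x (pderiv j (V i)))) := by
        simp [ev, map_sum]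
      simp only [this, hevV]
      refine Finset.sum_congr rfl fun i _ => Finset.sum_congr rfl fun j _ => ?_
      rw [hAs i j]
      ring
    -- continuity of the integrands
    have cN : Continuous fun x => ∑ i, ∑ j, (G u x i j) ^ 2 :=
      continuous_finsetSum _ fun i _ => continuous_finsetSum _ fun j _ => (hgc i j).pow 2
    have cD : Continuous fun x => ∑ i, ∑ j, ((G u x i j + G u x j i) / 2) ^ 2 :=
      continuous_finsetSum _ fun i _ => continuous_finsetSum _ fun j _ =>
        (((hgc i j).add (hgc j i)).div_const 2).pow 2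
    have cE : Continuous fun x => ∑ i, ∑ j, (p x i j - G u x i j) ^ 2 :=
      continuous_finsetSum _ fun i _ => continuous_finsetSum _ fun j _ =>
        ((hpc i j).sub (hgc i j)).pow 2
    have cV : Continuous fun x => ∑ i, ∑ j, (p x i j - A i j) ^ 2 :=
      continuous_finsetSum _ fun i _ => continuous_finsetSum _ fun j _ =>
        ((hpc i j).sub continuous_const).pow 2
    have cS : Continuous fun x => ∑ i, ∑ j, ((p x i j + p x j i) / 2) ^ 2 :=
      continuous_finsetSum _ fun i _ => continuous_finsetSum _ fun j _ =>
        (((hpc i j).add (hpc j i)).div_const 2).pow 2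
    set SA : ℝ := ∑ i, ∑ j, (A i j) ^ 2 with hSA
    have F1 : Nint u ≤ (1 + δ) * NN V V + (1 + 1 / δ) * (2 * Err + 2 * (vol * SA)) := by
      have hle : Nint u ≤ ∫ x in Metric.ball (0 : E n) 1,
          ((1 + δ) * (∑ i, ∑ j, (p x i j - A i j) ^ 2) +
            ((1 + 1 / δ) * 2 * (∑ i, ∑ j, (p x i j - G u x i j) ^ 2) +
              (1 + 1 / δ) * 2 * SA)) := by
        unfold Nint
        refine integral_mono (smooth_int cN) (smooth_int ((continuous_const.mul cV).add
          ((continuous_const.mul cE).add continuous_const))) fun x => ?_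
        simp only [hSA, Finset.mul_sum, ← Finset.sum_add_distrib]
        refine Finset.sum_le_sum fun i _ => Finset.sum_le_sum fun j _ => ?_
        have h1 := smooth_young (p x i j - A i j) (G u x i j - p x i j + A i j) hδ
        have h2 : (G u x i j - p x i j + A i j) ^ 2 ≤
            2 * (p x i j - G u x i j) ^ 2 + 2 * (A i j) ^ 2 := by
          nlinarith [sq_nonneg (G u x i j - p x i j - A i j)]
        have h3 : (1 + 1 / δ) * (G u x i j - p x i j + A i j) ^ 2 ≤
            (1 + 1 / δ) * (2 * (p x i j - G u x i j) ^ 2 + 2 * (A i j) ^ 2) :=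
          mul_le_mul_of_nonneg_left h2 (by positivity)
        have h4 : p x i j - A i j + (G u x i j - p x i j + A i j) = G u x i j := by ring
        rw [h4] at h1
        linarith
      refine hle.trans (le_of_eq ?_)
      have I1 : Integrable (fun x => (1 + δ) * (∑ i, ∑ j, (p x i j - A i j) ^ 2))
          (volume.restrict (Metric.ball (0 : E n) 1)) := smooth_int (continuous_const.mul cV)
      have I2 : Integrable (fun x => (1 + 1 / δ) * 2 * (∑ i, ∑ j, (p x i j - G u x i j) ^ 2))
          (volume.restrict (Metric.ball (0 : E n) 1)) := smooth_int (continuous_const.mul cE)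
      have I3 : Integrable (fun _ : E n => (1 + 1 / δ) * 2 * SA)
          (volume.restrict (Metric.ball (0 : E n) 1)) := smooth_int continuous_const
      have I4 : Integrable (fun x => (1 + 1 / δ) * 2 * (∑ i, ∑ j, (p x i j - G u x i j) ^ 2) +
          (1 + 1 / δ) * 2 * SA) (volume.restrict (Metric.ball (0 : E n) 1)) := I2.add I3
      rw [integral_add I1 I4, integral_add I2 I3, integral_const_mul, integral_const_mul, setIntegral_const, smul_eq_mul, ← hvol, ← hNN,
        ← hErr]
      ring
    have F2 : DD V V ≤ (1 + δ) * Dint u + (1 + 1 / δ) * Err := by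
      rw [hDD]
      have hle : ∫ x in Metric.ball (0 : E n) 1, ∑ i, ∑ j, ((p x i j + p x j i) / 2) ^ 2 ≤
          ∫ x in Metric.ball (0 : E n) 1,
          ((1 + δ) * (∑ i, ∑ j, ((G u x i j + G u x j i) / 2) ^ 2) +
            (1 + 1 / δ) * (∑ i, ∑ j, (p x i j - G u x i j) ^ 2)) := by
        refine integral_mono (smooth_int cS) (smooth_int ((continuous_const.mul cD).add
          (continuous_const.mul cE))) fun x => ?_
        have hsym : ∑ i, ∑ j, (p x i j - G u x i j) ^ 2 =
            ∑ i, ∑ j, ((p x i j - G u x i j) ^ 2 + (p x j i - G u x j i) ^ 2) / 2 := by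
          have hc : ∑ i, ∑ j, (p x j i - G u x j i) ^ 2 =
              ∑ i, ∑ j, (p x i j - G u x i j) ^ 2 := Finset.sum_comm
          simp only [add_div, Finset.sum_add_distrib, ← Finset.sum_div]
          rw [hc]
          ring
        simp only
        rw [hsym]
        simp only [Finset.mul_sum, ← Finset.sum_add_distrib]
        refine Finset.sum_le_sum fun i _ => Finset.sum_le_sum fun j _ => ?_
        have h1 := smooth_young ((G u x i j + G u x j i) / 2)
          ((p x i j - G u x i j + (p x j i - G u x j i)) / 2) hδ
        have h2 : ((p x i j - G u x i j + (p x j i - G u x j i)) / 2) ^ 2 ≤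
            ((p x i j - G u x i j) ^ 2 + (p x j i - G u x j i) ^ 2) / 2 := by
          nlinarith [sq_nonneg (p x i j - G u x i j - (p x j i - G u x j i))]
        have h3 := mul_le_mul_of_nonneg_left h2 (by positivity : (0 : ℝ) ≤ 1 + 1 / δ)
        have h4 : (G u x i j + G u x j i) / 2 + (p x i j - G u x i j + (p x j i - G u x j i)) / 2
            = (p x i j + p x j i) / 2 := by ring
        rw [h4] at h1
        linarith
      refine hle.trans (le_of_eq ?_)
      have I1 : Integrable (fun x => (1 + δ) * (∑ i, ∑ j, ((G u x i j + G u x j i) / 2) ^ 2))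
          (volume.restrict (Metric.ball (0 : E n) 1)) := smooth_int (continuous_const.mul cD)
      have I2 : Integrable (fun x => (1 + 1 / δ) * (∑ i, ∑ j, (p x i j - G u x i j) ^ 2))
          (volume.restrict (Metric.ball (0 : E n) 1)) := smooth_int (continuous_const.mul cE)
      rw [integral_add I1 I2, integral_const_mul, integral_const_mul, ← hErr]
      rfl
    have F3 : vol * SA ≤ Err := by
      have hce : ∀ i j, Continuous fun x =>
          (p x i j - G u x i j) - (p x j i - G u x j i) := fun i j =>
        ((hpc i j).sub (hgc i j)).sub ((hpc j i).sub (hgc j i))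
      have hint : ∀ i j, ∫ x in Metric.ball (0 : E n) 1,
          ((p x i j - G u x i j) - (p x j i - G u x j i)) = 2 * vol * A i j := by
        intro i j
        have e : ∀ x : E n, (p x i j - G u x i j) - (p x j i - G u x j i) =
            (p x i j - p x j i) - (G u x i j - G u x j i) := fun x => by ring
        simp only [e]
        have I1 : Integrable (fun x => p x i j - p x j i)
            (volume.restrict (Metric.ball (0 : E n) 1)) := smooth_int ((hpc i j).sub (hpc j i))
        have I2 : Integrable (fun x => G u x i j - G u x j i)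
            (volume.restrict (Metric.ball (0 : E n) 1)) := smooth_int ((hgc i j).sub (hgc j i))
        rw [integral_sub I1 I2, hAi, hside i j, sub_zero]
      have hle : ∫ x in Metric.ball (0 : E n) 1, ∑ i, ∑ j,
            (4 * A i j * ((p x i j - G u x i j) - (p x j i - G u x j i)) - 4 * (A i j) ^ 2) ≤
          ∫ x in Metric.ball (0 : E n) 1, 4 * ∑ i, ∑ j, (p x i j - G u x i j) ^ 2 := by
        refine integral_mono (smooth_int (continuous_finsetSum _ fun i _ =>
          continuous_finsetSum _ fun j _ => (continuous_const.mul (hce i j)).sub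
            continuous_const)) (smooth_int (continuous_const.mul cE)) fun x => ?_
        have hsym : 4 * ∑ i, ∑ j, (p x i j - G u x i j) ^ 2 =
            ∑ i, ∑ j, (2 * (p x i j - G u x i j) ^ 2 + 2 * (p x j i - G u x j i) ^ 2) := by
          have hc : ∑ i, ∑ j, (p x j i - G u x j i) ^ 2 =
              ∑ i, ∑ j, (p x i j - G u x i j) ^ 2 := Finset.sum_comm
          simp only [Finset.sum_add_distrib, ← Finset.mul_sum]
          rw [hc]
          ring
        simp only
        rw [hsym]
        refine Finset.sum_le_sum fun i _ => Finset.sum_le_sum fun j _ => ?_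
        nlinarith [sq_nonneg ((p x i j - G u x i j) - (p x j i - G u x j i) - 2 * A i j),
          sq_nonneg ((p x i j - G u x i j) + (p x j i - G u x j i))]
      rw [integral_const_mul, ← hErr] at hle
      have e2 : ∫ x in Metric.ball (0 : E n) 1, ∑ i, ∑ j,
            (4 * A i j * ((p x i j - G u x i j) - (p x j i - G u x j i)) - 4 * (A i j) ^ 2) =
          4 * (vol * SA) := by
        have I1 : ∀ i j, Integrable (fun x =>
            4 * A i j * ((p x i j - G u x i j) - (p x j i - G u x j i)))
            (volume.restrict (Metric.ball (0 : E n) 1)) := fun i j =>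
          smooth_int (continuous_const.mul (hce i j))
        have I2 : ∀ i j, Integrable (fun _ : E n => 4 * (A i j) ^ 2)
            (volume.restrict (Metric.ball (0 : E n) 1)) := fun i j => smooth_int continuous_const
        have I3 : ∀ i j, Integrable (fun x =>
            4 * A i j * ((p x i j - G u x i j) - (p x j i - G u x j i)) - 4 * (A i j) ^ 2)
            (volume.restrict (Metric.ball (0 : E n) 1)) := fun i j => (I1 i j).sub (I2 i j)
        rw [integral_finsetSum _ (fun i _ => integrable_finsetSum _ fun j _ => I3 i j), hSA,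
          Finset.mul_sum, Finset.mul_sum]
        refine Finset.sum_congr rfl fun i _ => ?_
        rw [integral_finsetSum _ (fun j _ => I3 i j), Finset.mul_sum, Finset.mul_sum]
        refine Finset.sum_congr rfl fun j _ => ?_
        rw [integral_sub (I1 i j) (I2 i j), integral_const_mul, hint, setIntegral_const,
          smul_eq_mul, ← hvol]
        ring
      rw [e2] at hle
      linarith
    have hErr0 : 0 ≤ Err := integral_nonneg fun x =>
      Finset.sum_nonneg fun i _ => Finset.sum_nonneg fun j _ => sq_nonneg _
    have hd1 : 0 ≤ 1 + 1 / δ := by positivity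
    have hd2 : (1 + 1 / δ) * Err ≤ δ ^ 2 + δ := by
      have : (1 + 1 / δ) * δ ^ 2 = δ ^ 2 + δ := by field_simp
      rw [← this]
      exact mul_le_mul_of_nonneg_left hErr'.le hd1
    have hK0 : 0 ≤ K₀ := by linarith
    have s1 : NN V V ≤ K₀ * ((1 + δ) * Dint u + (δ ^ 2 + δ)) :=
      h0.trans (mul_le_mul_of_nonneg_left (F2.trans (by linarith)) hK0)
    have s2 : (1 + δ) * NN V V ≤ (1 + δ) * (K₀ * ((1 + δ) * Dint u + (δ ^ 2 + δ))) :=
      mul_le_mul_of_nonneg_left s1 (by linarith)
    have s3 : (1 + 1 / δ) * (2 * Err + 2 * (vol * SA)) ≤ 4 * (δ ^ 2 + δ) := by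
      have : (1 + 1 / δ) * (2 * Err + 2 * (vol * SA)) ≤ (1 + 1 / δ) * (4 * Err) :=
        mul_le_mul_of_nonneg_left (by linarith) hd1
      linarith
    linarith
  -- let δ → 0
  have hlim : Filter.Tendsto (fun δ : ℝ =>
      (1 + δ) * (K₀ * ((1 + δ) * Dint u + (δ ^ 2 + δ))) + 4 * (δ ^ 2 + δ))
      (nhdsWithin 0 (Set.Ioi 0)) (nhds (K₀ * Dint u)) := by
    have hc : Continuous (fun δ : ℝ =>
      (1 + δ) * (K₀ * ((1 + δ) * Dint u + (δ ^ 2 + δ))) + 4 * (δ ^ 2 + δ)) := by fun_prop
    have h1 := hc.tendsto 0
    simp only [add_zero, one_mul, ne_eq, OfNat.ofNat_ne_zero, not_false_eq_true, zero_pow,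
      mul_zero] at h1
    exact h1.mono_left nhdsWithin_le_nhds
  exact ge_of_tendsto hlim (Filter.eventually_of_mem self_mem_nhdsWithin fun δ hδ => key δ hδ)

end

end Pool.Agent.R963.Korn
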