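import Pool.Agent.R963.Korn.Defs

open MvPolynomial MeasureTheory

namespace Pool.Agent.R963.Korn

noncomputable section

/-! Statements of the pieces. -/

/-- KO-1 basic facts of the integral functional. -/
def S_lin : Prop := ∀ (n : ℕ) (p q : P n) (a b : ℝ), Lam (C a * p + C b * q) = a * Lam p + b * Lam q

/-- KO-1 -/
def S_pos : Prop := ∀ (n : ℕ) (p q : P n), (∀ x : E n, ‖x‖ < 1 → ev x p ≤ ev x q) → Lam p ≤ Lam q

/-- KO-2 positivity -/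
def S_zero : Prop := ∀ (n : ℕ) (p : P n), 1 ≤ n →
  (Lam (p * p) = 0 → p = 0) ∧ (Lam ((1 - rr) * (p * p)) = 0 → p = 0)

/-- KO-3 divergence theorem on the ball -/
def S_div : Prop := ∀ (n : ℕ) (i : Fin n) (p : P n), Lam (pderiv i p) = sig (X i * p)

/-- KO-4 powers of r^2 concentrate -/
def S_conc : Prop := ∀ (n : ℕ) (p : P n), 1 ≤ n →
  Filter.Tendsto (fun m : ℕ => Lam (rr ^ m * p)) Filter.atTop (nhds 0)

/-- KO-5 sigma is a positive functional which does not see multiples of 1-r^2 -/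
def S_sig : Prop := ∀ (n : ℕ) (p : P n), 1 ≤ n →
  sig ((1 - rr) * p) = 0 ∧ 0 ≤ sig (p * p) ∧ (Lap p = 0 → sig (p * p) = 0 → p = 0)

/-- KO-6 Fischer decomposition -/
def S_fischer : Prop := ∀ (n : ℕ) (d : ℕ) (p : P n), 1 ≤ n → p.totalDegree ≤ d →
  ∃ h q : P n, p = h + (1 - rr) * q ∧ Lap h = 0 ∧ h.totalDegree ≤ d

/-- KO-7 the rigidity lemma -/
def S_rigid : Prop := ∀ (n : ℕ) (u q : Fin n → P n) (θ : ℝ), 2 ≤ n → -2 < θ → θ < -1 →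
  (∀ l : ℕ, 1 ≤ l → θ * ((l : ℝ) * (l + n - 1)) ≠ -(((l : ℝ) + 1) * (n + 2 * l - 2))) →
  (∀ j, Lap (u j) = C θ * pderiv j (dv u)) →
  (∀ j, Eu (u j) + C θ * u j - C θ * pderiv j (xd u) = (1 - rr) * q j) →
  ∀ j, ∃ c : ℝ, u j = C c

/-- KO-8 largest generalised eigenvalue -/
def S_eigen : Prop := ∀ (V : Type) [AddCommGroup V] [Module ℝ V] [FiniteDimensional ℝ V]
  (N D : V →ₗ[ℝ] V →ₗ[ℝ] ℝ), (∀ u v, N u v = N v u) → (∀ u v, D u v = D v u) →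
  (∀ v, v ≠ 0 → 0 < D v v) → ∀ K₀ : ℝ, (∃ v, K₀ * D v v < N v v) →
  ∃ K : ℝ, K₀ < K ∧ ∃ u : V, u ≠ 0 ∧ ∀ v, N u v = K * D u v

/-- KO-9 Euler-Lagrange equations -/
def S_el : Prop := ∀ (n : ℕ) (d : ℕ) (u : Fin n → P n) (K : ℝ), 1 ≤ n → K ≠ 2 →
  (∀ j, (u j).totalDegree ≤ d) →
  (∀ v : Fin n → P n, (∀ j, (v j).totalDegree ≤ d) → NN u v = K * DD u v) →
  (∀ j, Lap (u j) = C (K / (2 - K)) * pderiv j (dv u)) ∧
  ∃ q : Fin n → P n, ∀ j, Eu (u j) + C (K / (2 - K)) * u j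
    - C (K / (2 - K)) * pderiv j (xd u) = (1 - rr) * q j

/-- KO-10 upper bound for polynomial fields -/
def S_upper : Prop := ∀ (n : ℕ) (K₀ : ℝ), 2 ≤ n → 4 ≤ K₀ → (∀ l : ℕ, 1 ≤ l → Kl n l ≤ K₀) →
  ∀ u : Fin n → P n, Side u → NN u u ≤ K₀ * DD u u

/-- KO-11 existence of solid harmonics -/
def S_harm : Prop := ∀ (n l : ℕ), 2 ≤ n → ∃ h : P n, h ≠ 0 ∧ h.IsHomogeneous l ∧ Lap h = 0

/-- KO-12 lower bound -/
def S_lower : Prop := ∀ (n l : ℕ), 2 ≤ n → 1 ≤ l →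
  ∃ u : Fin n → P n, Side u ∧ 0 < DD u u ∧ NN u u = Kl n l * DD u u

/-- KO-13 approximation of smooth fields by polynomial fields -/
def S_approx : Prop := ∀ (n : ℕ) (u : E n → E n), ContDiff ℝ 1 u → ∀ ε : ℝ, 0 < ε →
  ∃ P : Fin n → P n, ∫ x in Metric.ball (0 : E n) 1,
    ∑ i, ∑ j, (ev x (pderiv i (P j)) - G u x i j) ^ 2 < ε

/-- KO-14 passage to smooth fields -/
def S_smooth : Prop := ∀ (n : ℕ) (K₀ : ℝ), 2 ≤ n → 1 ≤ K₀ →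
  (∀ u : Fin n → P n, Side u → NN u u ≤ K₀ * DD u u) →
  ∀ u : E n → E n, ContDiff ℝ 1 u → SideInt u → Nint u ≤ K₀ * Dint u

/-- KO-15 polynomial fields as smooth fields -/
def S_poly : Prop := ∀ (n : ℕ) (u : Fin n → P n), ∃ U : E n → E n,
  ContDiff ℝ ⊤ U ∧ (∀ x i j, G U x i j = ev x (pderiv i (u j))) ∧
  Nint U = NN u u ∧ Dint U = DD u u ∧ (Side u → SideInt U)

/-- KO-16 the optimal degree -/
def S_opt : Prop := ∀ (n l : ℕ), 2 ≤ n → n ≤ l * (l - 1) → (∀ m : ℕ, n ≤ m * (m - 1) → l ≤ m) →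
  (∀ m : ℕ, 1 ≤ m → Kl n m ≤ Kl n l) ∧ 4 ≤ Kl n l

end

end Pool.Agent.R963.Korn
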