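import Pool.Agent.R963.Korn.Stm

/-! # KO-10: the upper bound for polynomial fields -/

set_option autoImplicit false
set_option maxHeartbeats 400000

open MvPolynomial MeasureTheory

namespace Pool.Agent.R963.Korn

noncomputable section

namespace Upper

variable {n : ℕ}

/-! ## the functional -/

theorem Lam_add (hl : S_lin) (p q : P n) : Lam (p + q) = Lam p + Lam q := by
  have h := hl n p q 1 1
  simpa using h

theorem Lam_C_mul (hl : S_lin) (a : ℝ) (p : P n) : Lam (C a * p) = a * Lam p := by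
  have h := hl n p 0 a 0
  simpa using h

theorem Lam_zero (hl : S_lin) : Lam (0 : P n) = 0 := by
  have h := Lam_C_mul hl 0 (0 : P n)
  simpa using h

/-- `Lam` as a linear map -/
def LL (hl : S_lin) (n : ℕ) : P n →ₗ[ℝ] ℝ where
  toFun := Lam
  map_add' := Lam_add hl
  map_smul' := fun a p => by
    rw [MvPolynomial.smul_eq_C_mul, Lam_C_mul hl]
    rfl

theorem LL_apply (hl : S_lin) (p : P n) : LL hl n p = Lam p := rfl

theorem Lam_sub (hl : S_lin) (p q : P n) : Lam (p - q) = Lam p - Lam q :=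
  map_sub (LL hl n) p q

theorem Lam_neg (hl : S_lin) (p : P n) : Lam (-p) = -Lam p :=
  map_neg (LL hl n) p

theorem Lam_sum (hl : S_lin) {ι : Type*} (s : Finset ι) (f : ι → P n) :
    Lam (∑ i ∈ s, f i) = ∑ i ∈ s, Lam (f i) :=
  map_sum (LL hl n) f s

theorem Lam_C (hl : S_lin) (a : ℝ) : Lam (C a : P n) = a * Lam (1 : P n) := by
  rw [← Lam_C_mul hl, mul_one]

theorem Lam_sq_nonneg (hl : S_lin) (hp : S_pos) (p : P n) : 0 ≤ Lam (p * p) := by
  have h := hp n 0 (p * p) fun x _ => by
    unfold ev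
    rw [map_zero, map_mul]
    exact mul_self_nonneg _
  rwa [Lam_zero hl] at h

theorem Lam_one_ne (hz : S_zero) (hn : 1 ≤ n) : Lam (1 : P n) ≠ 0 := by
  intro h
  have := (hz n 1 hn).1 (by rwa [mul_one])
  exact one_ne_zero this

/-! ## derivatives -/

theorem pd_comm (i j : Fin n) (p : P n) : pderiv i (pderiv j p) = pderiv j (pderiv i p) := by
  by_cases hij : i = j
  · subst hij; rfl
  · ext m
    rw [coeff_pderiv, coeff_pderiv, coeff_pderiv, coeff_pderiv]
    have h1 : (m + Finsupp.single i 1 : Fin n →₀ ℕ) j = m j := by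
      rw [Finsupp.add_apply, Finsupp.single_eq_of_ne (Ne.symm hij), add_zero]
    have h2 : (m + Finsupp.single j 1 : Fin n →₀ ℕ) i = m i := by
      rw [Finsupp.add_apply, Finsupp.single_eq_of_ne hij, add_zero]
    rw [h1, h2, add_right_comm]
    ring

theorem eq_C_of_pderiv (p : P n) (h : ∀ i, pderiv i p = 0) : p = C (coeff 0 p) := by
  ext m
  rw [coeff_C]
  by_cases hm : (0 : Fin n →₀ ℕ) = m
  · rw [if_pos hm, ← hm]
  · rw [if_neg hm]
    obtain ⟨i, hi⟩ : ∃ i, m i ≠ 0 := by
      by_contra hcon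
      push Not at hcon
      exact hm (Finsupp.ext fun i => (hcon i).symm)
    have h1 : coeff (m - Finsupp.single i 1) (pderiv i p) = 0 := by rw [h i, coeff_zero]
    rw [coeff_pderiv] at h1
    have h2 : m - Finsupp.single i 1 + Finsupp.single i 1 = m := by
      apply tsub_add_cancel_of_le
      rw [Finsupp.single_le_iff]
      omega
    rw [h2] at h1
    rcases mul_eq_zero.mp h1 with h3 | h3
    · exact h3
    · exfalso
      have : (0 : ℝ) ≤ (((m - Finsupp.single i 1 : Fin n →₀ ℕ) i : ℕ) : ℝ) := Nat.cast_nonneg _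
      linarith

/-! ## the forms -/

/-- symmetric gradient -/
def EE (u : Fin n → P n) (i j : Fin n) : P n := C (1/2 : ℝ) * (pderiv i (u j) + pderiv j (u i))

theorem EE_symm (u : Fin n → P n) (i j : Fin n) : EE u i j = EE u j i := by
  unfold EE
  rw [add_comm]

theorem EE_add (u v : Fin n → P n) (i j : Fin n) : EE (u + v) i j = EE u i j + EE v i j := by
  unfold EE
  rw [Pi.add_apply, Pi.add_apply, map_add, map_add]
  ring

theorem EE_smul (c : ℝ) (u : Fin n → P n) (i j : Fin n) : EE (c • u) i j = C c * EE u i j := by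
  unfold EE
  rw [Pi.smul_apply, Pi.smul_apply, Derivation.map_smul, Derivation.map_smul,
    MvPolynomial.smul_eq_C_mul, MvPolynomial.smul_eq_C_mul]
  ring

theorem DD_eq (hl : S_lin) (u v : Fin n → P n) :
    DD u v = ∑ i, ∑ j, Lam (EE u i j * EE v i j) := by
  unfold DD
  rw [Lam_sum hl]
  exact Finset.sum_congr rfl fun i _ => Lam_sum hl _ _

theorem NN_eq (hl : S_lin) (u v : Fin n → P n) :
    NN u v = ∑ i, ∑ j, Lam (pderiv i (u j) * pderiv i (v j)) := by
  unfold NN
  rw [Lam_sum hl]
  exact Finset.sum_congr rfl fun i _ => Lam_sum hl _ _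

theorem NN_symm (u v : Fin n → P n) : NN u v = NN v u := by
  unfold NN
  congr 1
  exact Finset.sum_congr rfl fun i _ => Finset.sum_congr rfl fun j _ => mul_comm _ _

theorem DD_eq' (u v : Fin n → P n) :
    DD u v = Lam (∑ i, ∑ j, EE u i j * EE v i j) := rfl

theorem DD_symm (u v : Fin n → P n) : DD u v = DD v u := by
  rw [DD_eq', DD_eq']
  refine congrArg Lam (Finset.sum_congr rfl fun i _ => Finset.sum_congr rfl fun j _ => ?_)
  exact mul_comm (EE u i j) (EE v i j)

theorem NN_add (hl : S_lin) (u u' v : Fin n → P n) : NN (u + u') v = NN u v + NN u' v := by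
  rw [NN_eq hl, NN_eq hl, NN_eq hl, ← Finset.sum_add_distrib]
  refine Finset.sum_congr rfl fun i _ => ?_
  rw [← Finset.sum_add_distrib]
  refine Finset.sum_congr rfl fun j _ => ?_
  rw [Pi.add_apply, map_add, add_mul, Lam_add hl]

theorem NN_smul (hl : S_lin) (c : ℝ) (u v : Fin n → P n) : NN (c • u) v = c * NN u v := by
  rw [NN_eq hl, NN_eq hl, Finset.mul_sum]
  refine Finset.sum_congr rfl fun i _ => ?_
  rw [Finset.mul_sum]
  refine Finset.sum_congr rfl fun j _ => ?_
  rw [Pi.smul_apply, Derivation.map_smul, MvPolynomial.smul_eq_C_mul, mul_assoc, Lam_C_mul hl]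

theorem DD_add (hl : S_lin) (u u' v : Fin n → P n) : DD (u + u') v = DD u v + DD u' v := by
  rw [DD_eq hl, DD_eq hl, DD_eq hl, ← Finset.sum_add_distrib]
  refine Finset.sum_congr rfl fun i _ => ?_
  rw [← Finset.sum_add_distrib]
  refine Finset.sum_congr rfl fun j _ => ?_
  rw [EE_add, add_mul, Lam_add hl]

theorem DD_smul (hl : S_lin) (c : ℝ) (u v : Fin n → P n) : DD (c • u) v = c * DD u v := by
  rw [DD_eq hl, DD_eq hl, Finset.mul_sum]
  refine Finset.sum_congr rfl fun i _ => ?_
  rw [Finset.mul_sum]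
  refine Finset.sum_congr rfl fun j _ => ?_
  rw [EE_smul, mul_assoc, Lam_C_mul hl]

theorem NN_sub_right (hl : S_lin) (u v w : Fin n → P n) : NN u (v - w) = NN u v - NN u w := by
  have h : v = (v - w) + w := by abel
  have h2 := NN_add hl (v - w) w u
  rw [← h] at h2
  rw [NN_symm u (v - w), NN_symm u v, NN_symm u w, h2]
  ring

theorem DD_sub_right (hl : S_lin) (u v w : Fin n → P n) : DD u (v - w) = DD u v - DD u w := by
  have h : v = (v - w) + w := by abel
  have h2 := DD_add hl (v - w) w u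
  rw [← h] at h2
  rw [DD_symm u (v - w), DD_symm u v, DD_symm u w, h2]
  ring

/-! ## the space -/

/-- normalised fields of degree at most `d` -/
def VV (hl : S_lin) (n d : ℕ) : Submodule ℝ (Fin n → P n) where
  carrier := {v | (∀ j, (v j).totalDegree ≤ d) ∧ Side v ∧ ∀ j, Lam (v j) = 0}
  zero_mem' := by
    refine ⟨fun j => by simp, fun i j => ?_, fun j => Lam_zero hl⟩
    rw [Pi.zero_apply, Pi.zero_apply, map_zero, map_zero, sub_zero, Lam_zero hl]
  add_mem' := by
    rintro v w ⟨h1, h2, h3⟩ ⟨g1, g2, g3⟩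
    refine ⟨fun j => ?_, fun i j => ?_, fun j => ?_⟩
    · rw [Pi.add_apply]
      exact (totalDegree_add _ _).trans (max_le (h1 j) (g1 j))
    · have : pderiv i ((v + w) j) - pderiv j ((v + w) i) =
          (pderiv i (v j) - pderiv j (v i)) + (pderiv i (w j) - pderiv j (w i)) := by
        rw [Pi.add_apply, Pi.add_apply, map_add, map_add]; ring
      rw [this, Lam_add hl, h2, g2, add_zero]
    · rw [Pi.add_apply, Lam_add hl, h3, g3, add_zero]
  smul_mem' := by
    rintro c v ⟨h1, h2, h3⟩
    refine ⟨fun j => ?_, fun i j => ?_, fun j => ?_⟩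
    · rw [Pi.smul_apply]
      exact (totalDegree_smul_le _ _).trans (h1 j)
    · have : pderiv i ((c • v) j) - pderiv j ((c • v) i) =
          C c * (pderiv i (v j) - pderiv j (v i)) := by
        rw [Pi.smul_apply, Pi.smul_apply, Derivation.map_smul, Derivation.map_smul,
          MvPolynomial.smul_eq_C_mul, MvPolynomial.smul_eq_C_mul]
        ring
      rw [this, Lam_C_mul hl, h2, mul_zero]
    · rw [Pi.smul_apply, MvPolynomial.smul_eq_C_mul, Lam_C_mul hl, h3, mul_zero]

theorem mem_VV (hl : S_lin) {d : ℕ} {v : Fin n → P n} :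
    v ∈ VV hl n d ↔ (∀ j, (v j).totalDegree ≤ d) ∧ Side v ∧ ∀ j, Lam (v j) = 0 := Iff.rfl

theorem fin_VV (hl : S_lin) (n d : ℕ) : FiniteDimensional ℝ (VV hl n d) := by
  let f : (VV hl n d) →ₗ[ℝ] (Fin n → restrictTotalDegree (Fin n) ℝ d) :=
    { toFun := fun v j => ⟨(v : Fin n → P n) j, (mem_restrictTotalDegree _ _ _).mpr (v.2.1 j)⟩
      map_add' := fun v w => by
        funext j
        apply Subtype.ext
        rfl
      map_smul' := fun c v => by
        funext j
        apply Subtype.ext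
        rfl }
  refine Module.Finite.of_injective f fun v w h => ?_
  apply Subtype.ext
  funext j
  exact congrArg Subtype.val (congrFun h j)

/-- `NN` on the space -/
def Nf (hl : S_lin) (n d : ℕ) : (VV hl n d) →ₗ[ℝ] (VV hl n d) →ₗ[ℝ] ℝ :=
  LinearMap.mk₂ ℝ (fun u v => NN (u : Fin n → P n) v)
    (fun u u' v => NN_add hl _ _ _)
    (fun c u v => NN_smul hl _ _ _)
    (fun u v v' => by
      change NN (u : Fin n → P n) ((v : Fin n → P n) + v') = _
      rw [NN_symm, NN_add hl, NN_symm, NN_symm (v' : Fin n → P n)])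
    (fun c u v => by
      change NN (u : Fin n → P n) (c • (v : Fin n → P n)) = _
      rw [NN_symm, NN_smul hl, NN_symm]
      rfl)

/-- `DD` on the space -/
def Df (hl : S_lin) (n d : ℕ) : (VV hl n d) →ₗ[ℝ] (VV hl n d) →ₗ[ℝ] ℝ :=
  LinearMap.mk₂ ℝ (fun u v => DD (u : Fin n → P n) v)
    (fun u u' v => DD_add hl _ _ _)
    (fun c u v => DD_smul hl _ _ _)
    (fun u v v' => by
      change DD (u : Fin n → P n) ((v : Fin n → P n) + v') = _
      rw [DD_symm, DD_add hl, DD_symm, DD_symm (v' : Fin n → P n)])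
    (fun c u v => by
      change DD (u : Fin n → P n) (c • (v : Fin n → P n)) = _
      rw [DD_symm, DD_smul hl, DD_symm]
      rfl)

theorem Nf_apply (hl : S_lin) {d : ℕ} (u v : VV hl n d) :
    Nf hl n d u v = NN (u : Fin n → P n) v := rfl

theorem Df_apply (hl : S_lin) {d : ℕ} (u v : VV hl n d) :
    Df hl n d u v = DD (u : Fin n → P n) v := rfl

theorem DD_nonneg (hl : S_lin) (hp : S_pos) (v : Fin n → P n) : 0 ≤ DD v v := by
  rw [DD_eq hl]
  exact Finset.sum_nonneg fun i _ => Finset.sum_nonneg fun j _ => Lam_sq_nonneg hl hp _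

theorem EE_zero (hl : S_lin) (hp : S_pos) (hz : S_zero) (hn : 1 ≤ n) (v : Fin n → P n)
    (h : DD v v = 0) (i j : Fin n) : EE v i j = 0 := by
  rw [DD_eq hl] at h
  have h1 := (Finset.sum_eq_zero_iff_of_nonneg (fun i _ =>
    Finset.sum_nonneg fun j _ => Lam_sq_nonneg hl hp (EE v i j))).mp h i (Finset.mem_univ i)
  have h2 := (Finset.sum_eq_zero_iff_of_nonneg (fun j _ =>
    Lam_sq_nonneg hl hp (EE v i j))).mp h1 j (Finset.mem_univ j)
  exact (hz n _ hn).1 h2

theorem eq_zero_of_DD (hl : S_lin) (hp : S_pos) (hz : S_zero) (hn : 1 ≤ n) {d : ℕ}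
    (v : Fin n → P n) (hv : v ∈ VV hl n d) (h : DD v v = 0) : v = 0 := by
  have hanti : ∀ i j, pderiv i (v j) = -pderiv j (v i) := by
    intro i j
    have h1 := EE_zero hl hp hz hn v h i j
    unfold EE at h1
    rcases mul_eq_zero.mp h1 with h2 | h2
    · exfalso
      rw [C_eq_zero] at h2
      norm_num at h2
    · exact eq_neg_of_add_eq_zero_left h2
  have hT : ∀ k i j, pderiv k (pderiv i (v j)) = 0 := by
    intro k i j
    have e : pderiv k (pderiv i (v j)) = -pderiv k (pderiv i (v j)) := by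
      calc pderiv k (pderiv i (v j)) = pderiv i (pderiv k (v j)) := pd_comm _ _ _
        _ = -pderiv i (pderiv j (v k)) := by rw [hanti k j, map_neg]
        _ = -pderiv j (pderiv i (v k)) := by rw [pd_comm]
        _ = pderiv j (pderiv k (v i)) := by rw [hanti i k, map_neg, neg_neg]
        _ = pderiv k (pderiv j (v i)) := pd_comm _ _ _
        _ = -pderiv k (pderiv i (v j)) := by rw [hanti j i, map_neg]
    exact self_eq_neg.mp e
  have hD : ∀ i j, pderiv i (v j) = 0 := by
    intro i j
    have h1 := eq_C_of_pderiv (pderiv i (v j)) fun k => hT k i j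
    have h2 := hv.2.1 i j
    rw [show pderiv j (v i) = -pderiv i (v j) from by rw [hanti j i], h1, Lam_sub hl, Lam_neg hl,
      Lam_C hl] at h2
    have h3 : coeff 0 (pderiv i (v j)) * Lam (1 : P n) = 0 := by linarith
    rcases mul_eq_zero.mp h3 with h4 | h4
    · rw [h1, h4, C_0]
    · exact absurd h4 (Lam_one_ne hz hn)
  funext j
  have h1 := eq_C_of_pderiv (v j) fun i => hD i j
  have h2 := hv.2.2 j
  rw [h1, Lam_C hl] at h2
  rcases mul_eq_zero.mp h2 with h4 | h4
  · rw [h1, h4, C_0]; rfl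
  · exact absurd h4 (Lam_one_ne hz hn)

/-- from fields in the space to all fields of bounded degree -/
theorem extend (hl : S_lin) (hz : S_zero) (hn : 1 ≤ n) {d : ℕ} (hd : 1 ≤ d) (K : ℝ)
    (u : Fin n → P n) (hu : Side u) (h : ∀ v ∈ VV hl n d, NN u v = K * DD u v)
    (v : Fin n → P n) (hv : ∀ j, (v j).totalDegree ≤ d) : NN u v = K * DD u v := by
  have hL := Lam_one_ne hz hn
  set A : Fin n → Fin n → ℝ := fun i j =>
    (Lam (pderiv i (v j)) - Lam (pderiv j (v i))) / (2 * Lam (1 : P n)) with hA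
  have hAa : ∀ i j, A j i = -A i j := by
    intro i j
    simp only [hA]
    ring
  set r0 : Fin n → P n := fun j => ∑ i, C (A i j) * X i with hr0
  set c : Fin n → ℝ := fun j => (Lam (v j) - Lam (r0 j)) / Lam (1 : P n) with hc
  set r : Fin n → P n := fun j => r0 j + C (c j) with hr
  have hdr : ∀ i j, pderiv i (r j) = C (A i j) := by
    intro i j
    simp only [hr, hr0]
    rw [map_add, pderiv_C, add_zero, map_sum, Finset.sum_eq_single i]
    · rw [pderiv_C_mul, pderiv_X_self, mul_one]
    · intro k _ hk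
      rw [pderiv_C_mul, pderiv_X_of_ne hk, mul_zero]
    · intro hi
      exact absurd (Finset.mem_univ _) hi
  have hmem : v - r ∈ VV hl n d := by
    refine ⟨fun j => ?_, fun i j => ?_, fun j => ?_⟩
    · rw [Pi.sub_apply]
      refine (totalDegree_sub _ _).trans (max_le (hv j) ?_)
      simp only [hr, hr0]
      refine (totalDegree_add _ _).trans (max_le ?_ ?_)
      · refine (totalDegree_finsetSum _ _).trans (Finset.sup_le fun i _ => ?_)
        refine (totalDegree_mul _ _).trans ?_
        rw [totalDegree_C, totalDegree_X, zero_add]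
        exact hd
      · rw [totalDegree_C]; exact Nat.zero_le _
    · rw [Pi.sub_apply, Pi.sub_apply, map_sub, map_sub, hdr, hdr, Lam_sub hl, Lam_sub hl,
        Lam_sub hl, Lam_C hl, Lam_C hl, hAa i j]
      simp only [hA]
      field_simp
      ring
    · rw [Pi.sub_apply, Lam_sub hl]
      simp only [hr]
      rw [Lam_add hl, Lam_C hl]
      simp only [hc]
      field_simp
      ring
  have hNr : NN u r = 0 := by
    rw [NN_eq hl]
    have e1 : ∀ i j, Lam (pderiv i (u j) * pderiv i (r j)) = A i j * Lam (pderiv i (u j)) := by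
      intro i j
      rw [hdr, mul_comm, Lam_C_mul hl]
    simp only [e1]
    have e2 : ∑ i, ∑ j, A i j * Lam (pderiv i (u j)) = ∑ i, ∑ j, -(A i j * Lam (pderiv i (u j))) := by
      rw [Finset.sum_comm]
      refine Finset.sum_congr rfl fun i _ => Finset.sum_congr rfl fun j _ => ?_
      have h1 := hu i j
      rw [Lam_sub hl] at h1
      rw [hAa i j, show Lam (pderiv j (u i)) = Lam (pderiv i (u j)) by linarith]
      ring
    simp only [Finset.sum_neg_distrib] at e2
    linarith
  have hDr : DD u r = 0 := by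
    rw [DD_eq hl]
    refine Finset.sum_eq_zero fun i _ => Finset.sum_eq_zero fun j _ => ?_
    have : EE r i j = 0 := by
      unfold EE
      rw [hdr, hdr, ← C_add, hAa i j, add_neg_cancel, C_0, mul_zero]
    rw [this, mul_zero, Lam_zero hl]
  have h1 := h _ hmem
  rw [NN_sub_right hl, DD_sub_right hl, hNr, hDr, sub_zero, sub_zero] at h1
  exact h1

end Upper

open Upper in
theorem t_upper (hl : S_lin) (hp : S_pos) (hz : S_zero) (he : S_eigen) (hel : S_el)
    (hr : S_rigid) : S_upper := by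
  intro n K₀ hn hK₀ hKl u0 hu0
  by_contra hcon
  push Not at hcon
  have hn1 : 1 ≤ n := by omega
  have hL := Lam_one_ne hz hn1
  -- degree
  obtain ⟨d, hd1, hd⟩ : ∃ d : ℕ, 1 ≤ d ∧ ∀ j, (u0 j).totalDegree ≤ d := by
    refine ⟨max 1 (Finset.univ.sup fun j => (u0 j).totalDegree), le_max_left _ _, fun j => ?_⟩
    exact le_trans (Finset.le_sup (f := fun j => (u0 j).totalDegree) (Finset.mem_univ j))
      (le_max_right _ _)
  -- normalise
  set v0 : Fin n → P n := fun j => u0 j - C (Lam (u0 j) / Lam (1 : P n)) with hv0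
  have hpd : ∀ i j, pderiv i (v0 j) = pderiv i (u0 j) := by
    intro i j
    simp only [hv0]
    rw [map_sub, pderiv_C, sub_zero]
  have hv0m : v0 ∈ VV hl n d := by
    refine ⟨fun j => ?_, fun i j => ?_, fun j => ?_⟩
    · refine (totalDegree_sub _ _).trans (max_le (hd j) ?_)
      rw [totalDegree_C]; exact Nat.zero_le _
    · rw [hpd, hpd]
      exact hu0 i j
    · simp only [hv0]
      rw [Lam_sub hl, Lam_C hl]
      field_simp
      ring
  have hNv : NN v0 v0 = NN u0 u0 := by
    unfold NN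
    simp only [hpd]
  have hDv : DD v0 v0 = DD u0 u0 := by
    unfold DD
    simp only [hpd]
  have := fin_VV hl n d
  obtain ⟨K, hK, u, hu, huv⟩ := he (VV hl n d) (Nf hl n d) (Df hl n d)
    (fun u v => NN_symm _ _) (fun u v => DD_symm _ _)
    (fun v hv => by
      rw [Df_apply]
      rcases (DD_nonneg hl hp (v : Fin n → P n)).lt_or_eq with h | h
      · exact h
      · exact absurd (Subtype.ext (eq_zero_of_DD hl hp hz hn1 _ v.2 h.symm)) hv)
    K₀ ⟨⟨v0, hv0m⟩, by rw [Df_apply, Nf_apply, hNv, hDv]; exact hcon⟩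
  have hall := extend hl hz hn1 hd1 K (u : Fin n → P n) u.2.2.1
    (fun v hv => huv ⟨v, hv⟩)
  have hK4 : 4 < K := lt_of_le_of_lt hK₀ hK
  obtain ⟨hLap, q, hq⟩ := hel n d (u : Fin n → P n) K hn1 (by linarith) u.2.1 hall
  have h2K : 2 - K < 0 := by linarith
  have hθ1 : -2 < K / (2 - K) := by
    rw [lt_div_iff_of_neg h2K]
    linarith
  have hθ2 : K / (2 - K) < -1 := by
    rw [div_lt_iff_of_neg h2K]
    linarith
  have hcond : ∀ l : ℕ, 1 ≤ l →
      K / (2 - K) * ((l : ℝ) * (l + n - 1)) ≠ -(((l : ℝ) + 1) * (n + 2 * l - 2)) := by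
    intro l hl1 heq
    have hl1' : (1 : ℝ) ≤ l := by exact_mod_cast hl1
    have hn' : (2 : ℝ) ≤ n := by exact_mod_cast hn
    have e1 : K * ((l : ℝ) * (l + n - 1)) = -(((l : ℝ) + 1) * (n + 2 * l - 2)) * (2 - K) := by
      rw [← heq, mul_right_comm, div_mul_cancel₀ _ h2K.ne]
    have hden : 0 < (l : ℝ) ^ 2 + l + n - 2 := by nlinarith
    have e2 : K = Kl n l := by
      unfold Kl
      rw [eq_div_iff hden.ne']
      nlinarith
    have := hKl l hl1
    linarith
  have hconst := hr n (u : Fin n → P n) q (K / (2 - K)) hn hθ1 hθ2 hcond hLap hq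
  apply hu
  apply Subtype.ext
  funext j
  obtain ⟨c, hc⟩ := hconst j
  have h2 := u.2.2.2 j
  rw [hc, Lam_C hl] at h2
  rcases mul_eq_zero.mp h2 with h4 | h4
  · rw [hc, h4, C_0]; rfl
  · exact absurd h4 hL

end

end Pool.Agent.R963.Korn
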